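import Pool.Agent.Helper68.FR.Defs
import Pool.Agent.Helper68.FR.FreeRF

/-!
Functoriality of the finite residual, and groups `G` obtained from a group `L` by adjoining one
element `t` with the relations `α x * t = t * β x`.
-/

namespace Pool.Agent.H88FR

open Pool.Agent.Helper68.FR

theorem fres_le_comap {G G' : Type*} [Group G] [Group G'] (f : G →* G') (H : Subgroup G)
    (H' : Subgroup G') (h : H ≤ H'.comap f) : fres H ≤ (fres H').comap f := by
  intro x hx
  rw [Subgroup.mem_comap, mem_fres]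
  intro K hK hi
  have h1 : x ∈ (K.comap f ⊓ H) := by
    apply mem_fres.mp hx
    · exact inf_le_right
    · change (K.comap f ⊓ H).relIndex H ≠ 0
      rw [Subgroup.inf_relIndex_right, Subgroup.relIndex_comap]
      have h2 : K.IsFiniteRelIndex H' := ⟨hi⟩
      have h3 : K.IsFiniteRelIndex (H.map f) :=
        Subgroup.isFiniteRelIndex_of_le_right _ (Subgroup.map_le_iff_le_comap.mpr h)
      exact Subgroup.relIndex_ne_zero
  exact h1.1

theorem fres_mono {G : Type*} [Group G] {H H' : Subgroup G} (h : H ≤ H') : fres H ≤ fres H' := by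
  have h1 := fres_le_comap (MonoidHom.id G) H H' (by rwa [Subgroup.comap_id])
  rwa [Subgroup.comap_id] at h1

theorem fch_le_comap {G G' : Type*} [Group G] [Group G'] (f : G →* G') (n : ℕ) :
    fch G n ≤ (fch G' n).comap f := by
  induction n with
  | zero =>
    change ⊤ ≤ Subgroup.comap f ⊤
    rw [Subgroup.comap_top]
  | succ n ih => exact fres_le_comap f _ _ ih

theorem fch_eq_bot_of_injective {G G' : Type*} [Group G] [Group G'] (f : G →* G')
    (hf : Function.Injective f) (n : ℕ) (h : fch G' n = ⊥) : fch G n = ⊥ := by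
  rw [eq_bot_iff]
  intro x hx
  have h1 := fch_le_comap f n hx
  rw [h, Subgroup.mem_comap, Subgroup.mem_bot] at h1
  rw [Subgroup.mem_bot]
  exact hf (by rw [h1, map_one])

/-- `G` is obtained from `L` by adjoining an element `t` with the relations `α x * t = t * β x`,
`x` in `A`. -/
structure HX (G L A : Type) [Group G] [Group L] [Group A] where
  /-- the map of the base group -/
  ι : L →* G
  /-- the stable letter -/
  t : G
  /-- first map of the associated group -/
  α : A →* L
  /-- second map of the associated group -/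
  β : A →* L
  rel : ∀ x, ι (α x) * t = t * ι (β x)
  gen : ∀ S : Subgroup G, (∀ h, ι h ∈ S) → t ∈ S → S = ⊤
  univ : ∀ (P : Type) [Group P] (φ : L →* P) (s : P), (∀ x, φ (α x) * s = s * φ (β x)) →
    ∃ Θ : G →* P, (∀ h, Θ (ι h) = φ h) ∧ Θ t = s

theorem not_mem_fres_of_action {G : Type} [Group G] (K : Subgroup G) [hKn : K.Normal] (S : Type)
    [Finite S] (Θ : G →* Equiv.Perm ((G ⧸ K) × S))
    (h1 : ∀ g q s, (Θ g (q, s)).1 = (g : G ⧸ K) * q) (k : G) (s : S)
    (hk : Θ k (1, s) ≠ (1, s)) : k ∉ fres K := by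
  intro hmem
  let K₀ : Subgroup G :=
    { carrier := {x | x ∈ K ∧ Θ x (1, s) = (1, s)}
      one_mem' := ⟨K.one_mem, by rw [map_one]; rfl⟩
      mul_mem' := by
        rintro x y ⟨hx, hx'⟩ ⟨hy, hy'⟩
        refine ⟨K.mul_mem hx hy, ?_⟩
        rw [map_mul, Equiv.Perm.mul_apply, hy', hx']
      inv_mem' := by
        rintro x ⟨hx, hx'⟩
        refine ⟨K.inv_mem hx, ?_⟩
        rw [map_inv, Equiv.Perm.inv_eq_iff_eq, hx'] }
  have h2 : k ∈ K₀ := by
    refine mem_fres.mp hmem K₀ (fun x hx => hx.1) ?_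
    have h3 : ∀ x y : K, (Θ (x : G) (1, s)).2 = (Θ (y : G) (1, s)).2 →
        x⁻¹ * y ∈ K₀.subgroupOf K := by
      intro x y hxy
      rw [Subgroup.mem_subgroupOf]
      refine ⟨(x⁻¹ * y).2, ?_⟩
      have hx1 := h1 (x : G) 1 s
      have hy1 := h1 (y : G) 1 s
      rw [(QuotientGroup.eq_one_iff (x : G)).mpr x.2, one_mul] at hx1
      rw [(QuotientGroup.eq_one_iff (y : G)).mpr y.2, one_mul] at hy1
      have h4 : Θ (x : G) (1, s) = Θ (y : G) (1, s) := Prod.ext (hx1.trans hy1.symm) hxy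
      rw [Subgroup.coe_mul, Subgroup.coe_inv, map_mul, map_inv, Equiv.Perm.mul_apply, ← h4]
      simp
    have h5 : Finite (K ⧸ K₀.subgroupOf K) := by
      apply Finite.of_injective (fun q : K ⧸ K₀.subgroupOf K => (Θ (q.out : G) (1, s)).2)
      intro q q' hq
      have h6 := h3 _ _ hq
      rw [← QuotientGroup.eq, QuotientGroup.out_eq', QuotientGroup.out_eq'] at h6
      exact h6
    exact Subgroup.index_ne_zero_of_finite
  exact hk h2.2

variable {G L A : Type} [Group G] [Group L] [Group A] (X : HX G L A)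

theorem HX.exists_action (K : Subgroup G) [hKn : K.Normal] (S : Type)
    (c : L → (G ⧸ K) → Equiv.Perm S)
    (hc : ∀ g g' q, c (g * g') q = c g ((X.ι g' : G ⧸ K) * q) * c g' q)
    (d : (G ⧸ K) → Equiv.Perm S)
    (hd : ∀ x q, d ((X.ι (X.β x) : G ⧸ K) * q) * c (X.β x) q =
      c (X.α x) ((X.t : G ⧸ K) * q) * d q) :
    ∃ Θ : G →* Equiv.Perm ((G ⧸ K) × S),
      (∀ g q s, Θ (X.ι g) (q, s) = ((X.ι g : G ⧸ K) * q, c g q s)) ∧
      (∀ q s, Θ X.t (q, s) = ((X.t : G ⧸ K) * q, d q s)) ∧
      (∀ g q s, (Θ g (q, s)).1 = (g : G ⧸ K) * q) := by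
  have hc1 : ∀ q, c 1 q = 1 := by
    intro q
    have h := hc 1 1 q
    rw [mul_one, map_one, QuotientGroup.mk_one, one_mul] at h
    exact left_eq_mul.mp h
  have hrelq : ∀ x, ((X.ι (X.α x) : G) : G ⧸ K) * (X.t : G ⧸ K) = (X.t : G ⧸ K) *
      ((X.ι (X.β x) : G) : G ⧸ K) := by
    intro x
    rw [← QuotientGroup.mk_mul, ← QuotientGroup.mk_mul, X.rel x]
  have hinv1 : ∀ g q, c g⁻¹ ((X.ι g : G ⧸ K) * q) * c g q = 1 := by
    intro g q
    rw [← hc, inv_mul_cancel, hc1]
  have hinv2 : ∀ g q, c g (((X.ι g : G ⧸ K))⁻¹ * q) * c g⁻¹ q = 1 := by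
    intro g q
    have h := hc g g⁻¹ q
    rw [mul_inv_cancel, hc1, map_inv, QuotientGroup.mk_inv] at h
    exact h.symm
  let φ : L →* Equiv.Perm ((G ⧸ K) × S) :=
    { toFun := fun g =>
        { toFun := fun p => ((X.ι g : G ⧸ K) * p.1, c g p.1 p.2)
          invFun := fun p => ((X.ι g : G ⧸ K)⁻¹ * p.1, c g⁻¹ p.1 p.2)
          left_inv := by
            rintro ⟨q, s⟩
            refine Prod.ext (by simp) ?_
            have h := hinv1 g q
            have h2 := congrArg (fun e : Equiv.Perm S => e s) h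
            simpa using h2
          right_inv := by
            rintro ⟨q, s⟩
            refine Prod.ext (by simp) ?_
            have h := hinv2 g q
            have h2 := congrArg (fun e : Equiv.Perm S => e s) h
            simpa using h2 }
      map_one' := by
        ext ⟨q, s⟩
        · simp
        · simp [hc1]
      map_mul' := by
        intro g g'
        ext ⟨q, s⟩
        · simp [mul_assoc]
        · simp [hc] }
  let τ : Equiv.Perm ((G ⧸ K) × S) :=
    { toFun := fun p => ((X.t : G ⧸ K) * p.1, d p.1 p.2)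
      invFun := fun p => ((X.t : G ⧸ K)⁻¹ * p.1, (d ((X.t : G ⧸ K)⁻¹ * p.1))⁻¹ p.2)
      left_inv := by
        rintro ⟨q, s⟩
        refine Prod.ext (by simp) (by simp)
      right_inv := by
        rintro ⟨q, s⟩
        refine Prod.ext (by simp) (by simp) }
  obtain ⟨Θ, hΘ, hΘt⟩ := X.univ (Equiv.Perm ((G ⧸ K) × S)) φ τ (by
    intro x
    ext ⟨q, s⟩
    · change ((X.ι (X.α x) : G) : G ⧸ K) * ((X.t : G ⧸ K) * q) =
        (X.t : G ⧸ K) * (((X.ι (X.β x) : G) : G ⧸ K) * q)
      rw [← mul_assoc, hrelq, mul_assoc]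
    · change c (X.α x) ((X.t : G ⧸ K) * q) (d q s) =
        d (((X.ι (X.β x) : G) : G ⧸ K) * q) (c (X.β x) q s)
      have h := congrArg (fun e : Equiv.Perm S => e s) (hd x q)
      simpa using h.symm)
  have h1 : ∀ g q s, Θ (X.ι g) (q, s) = ((X.ι g : G ⧸ K) * q, c g q s) := by
    intro g q s
    rw [hΘ]
    rfl
  have h2 : ∀ q s, Θ X.t (q, s) = ((X.t : G ⧸ K) * q, d q s) := by
    intro q s
    rw [hΘt]
    rfl
  refine ⟨Θ, h1, h2, ?_⟩
  let S₀ : Subgroup G :=
    { carrier := {g | ∀ q s, (Θ g (q, s)).1 = (g : G ⧸ K) * q}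
      one_mem' := by
        intro q s
        rw [map_one]
        simp
      mul_mem' := by
        intro x y hx hy q s
        rw [map_mul, Equiv.Perm.mul_apply]
        have h3 := hx (Θ y (q, s)).1 (Θ y (q, s)).2
        rw [Prod.mk.eta] at h3
        rw [h3, hy q s, QuotientGroup.mk_mul, mul_assoc]
      inv_mem' := by
        intro x hx q s
        have h3 := hx (Θ x⁻¹ (q, s)).1 (Θ x⁻¹ (q, s)).2
        have h5 : Θ x (Θ x⁻¹ (q, s)) = (q, s) := by
          rw [← Equiv.Perm.mul_apply, ← map_mul, mul_inv_cancel, map_one]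
          rfl
        rw [Prod.mk.eta, h5] at h3
        rw [QuotientGroup.mk_inv]
        exact (eq_inv_mul_iff_mul_eq.mpr h3.symm) }
  have h3 : S₀ = ⊤ := by
    apply X.gen
    · intro h q s
      rw [h1]
    · intro q s
      rw [h2]
  intro g
  have h4 : g ∈ S₀ := by
    rw [h3]
    exact Subgroup.mem_top g
  exact h4

end Pool.Agent.H88FR
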