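import Pool.Agent.H88FR.Master

/-!
The chains of iterated finite residuals of `G` and of the base group `L`, if the finite residual of
`G` meets the associated subgroups trivially.
-/

namespace Pool.Agent.H88FR

open Pool.Agent.Helper68.FR

variable {G L A : Type} [Group G] [Group L] [Group A] (X : HX G L A)

theorem HX.comap_fch (hA : ∀ x : A, X.ι (X.β x) ∈ fch G 1 → x = 1) {j : ℕ} (hj : 1 ≤ j) :
    (fch G (j + 1)).comap X.ι = fres ((fch G j).comap X.ι) := by
  apply le_antisymm
  · exact X.comap_fres_le (fch G j) (fun x hx => hA x (fch_anti G hj hx))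
  · exact fres_le_comap X.ι _ _ le_rfl

theorem HX.comap_fch_le (hA : ∀ x : A, X.ι (X.β x) ∈ fch G 1 → x = 1) (j : ℕ) :
    (fch G (j + 1)).comap X.ι ≤ fch L j := by
  induction j with
  | zero => exact le_top
  | succ j ih =>
    rw [X.comap_fch hA (by omega)]
    exact fres_mono ih

theorem HX.fch_bot (hA : ∀ x : A, X.ι (X.β x) ∈ fch G 1 → x = 1) {n : ℕ} (hn : 1 ≤ n)
    (h : fch L n = ⊥) : fch G (n + 1) = ⊥ := by
  apply X.fres_eq_bot' (fch G n) (fun x hx => hA x (fch_anti G hn hx))
  rw [← X.comap_fch hA hn, eq_bot_iff, ← h]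
  exact X.comap_fch_le hA n

include X in
theorem HX.fch_one_bot (hA : ∀ x : A, x = 1) (h : fch L 1 = ⊥) : fch G 1 = ⊥ := by
  apply X.fres_eq_bot' ⊤ (fun x _ => hA x)
  rw [Subgroup.comap_top]
  exact h

/-- The structure on the quotients by a normal subgroup `P` of the base group and by its normal
closure. -/
def HX.quot (P : Subgroup L) [hP : P.Normal] :
    HX (G ⧸ Subgroup.normalClosure (X.ι '' (P : Set L))) (L ⧸ P) A where
  ι := QuotientGroup.map P (Subgroup.normalClosure (X.ι '' (P : Set L))) X.ι (by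
    intro x hx
    exact Subgroup.subset_normalClosure ⟨x, hx, rfl⟩)
  t := QuotientGroup.mk' _ X.t
  α := (QuotientGroup.mk' P).comp X.α
  β := (QuotientGroup.mk' P).comp X.β
  rel := by
    intro x
    change QuotientGroup.mk' _ (X.ι (X.α x)) * QuotientGroup.mk' _ X.t =
      QuotientGroup.mk' _ X.t * QuotientGroup.mk' _ (X.ι (X.β x))
    rw [← map_mul, ← map_mul, X.rel]
  gen := by
    intro S h1 h2
    have h3 : S.comap (QuotientGroup.mk' (Subgroup.normalClosure (X.ι '' (P : Set L)))) = ⊤ := by
      apply X.gen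
      · intro h
        exact h1 (QuotientGroup.mk' P h)
      · exact h2
    rw [eq_top_iff]
    intro x _
    obtain ⟨g, rfl⟩ := QuotientGroup.mk'_surjective _ x
    have h4 : g ∈ S.comap (QuotientGroup.mk' (Subgroup.normalClosure (X.ι '' (P : Set L)))) := by
      rw [h3]
      exact Subgroup.mem_top g
    exact h4
  univ := by
    intro Q _ φ s hs
    obtain ⟨Θ, hΘ, hΘt⟩ := X.univ Q (φ.comp (QuotientGroup.mk' P)) s hs
    have hker : Subgroup.normalClosure (X.ι '' (P : Set L)) ≤ Θ.ker := by
      apply Subgroup.normalClosure_le_normal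
      rintro _ ⟨x, hx, rfl⟩
      change Θ (X.ι x) = 1
      rw [hΘ]
      have h1 : QuotientGroup.mk' P x = 1 := (QuotientGroup.eq_one_iff x).mpr hx
      rw [MonoidHom.comp_apply, h1, map_one]
    refine ⟨QuotientGroup.lift _ Θ hker, ?_, ?_⟩
    · intro h
      obtain ⟨l, rfl⟩ := QuotientGroup.mk'_surjective _ h
      exact hΘ l
    · exact hΘt

theorem fres_map_bot {L : Type} [Group L] (D P : Subgroup L) [hP : P.Normal]
    (h : fres D = P) : fres (D.map (QuotientGroup.mk' P)) = ⊥ := by
  rw [eq_bot_iff]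
  intro x hx
  obtain ⟨l, rfl⟩ := QuotientGroup.mk'_surjective _ x
  rw [Subgroup.mem_bot]
  by_contra hne
  have h1 : l ∉ fres D := by
    rw [h]
    intro h2
    exact hne ((QuotientGroup.eq_one_iff l).mpr h2)
  rw [mem_fres] at h1
  push Not at h1
  obtain ⟨M, hM1, hM2, hM3⟩ := h1
  have hPM : P ≤ M := by
    intro z hz
    rw [← h] at hz
    exact mem_fres.mp hz M hM1 hM2
  have hcm : (M.map (QuotientGroup.mk' P)).comap (QuotientGroup.mk' P) = M := by
    apply Subgroup.comap_map_eq_self
    rw [QuotientGroup.ker_mk']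
    exact hPM
  have h2 : QuotientGroup.mk' P l ∈ M.map (QuotientGroup.mk' P) := by
    apply mem_fres.mp hx
    · exact Subgroup.map_mono hM1
    · change (M.map (QuotientGroup.mk' P)).relIndex (D.map (QuotientGroup.mk' P)) ≠ 0
      rw [← Subgroup.relIndex_comap, hcm]
      exact hM2
  rw [← Subgroup.mem_comap, hcm] at h2
  exact hM3 h2

theorem HX.stab_up (hA : ∀ x : A, X.ι (X.β x) ∈ fch G 1 → x = 1) {n : ℕ} (hn : 1 ≤ n)
    (h : fch L n = fch L (n + 1)) : fch G (n + 1) = fch G (n + 2) := by
  set P := fch L n with hP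
  have hPn : P.Normal := fch_normal L n
  have hD : (fch G (n + 1)).comap X.ι = P := by
    apply le_antisymm
    · exact X.comap_fch_le hA n
    · rw [h]
      exact fch_le_comap X.ι (n + 1)
  have hDn : fres ((fch G n).comap X.ι) = P := by
    rw [← X.comap_fch hA hn, hD]
  let N := Subgroup.normalClosure (X.ι '' (P : Set L))
  have hNle : ∀ j, N ≤ fch G j := by
    intro j
    apply Subgroup.normalClosure_le_normal
    rintro _ ⟨x, hx, rfl⟩
    have h1 : fch L (n + j) = P := fch_const L h (by omega)
    have h2 : x ∈ fch L (n + j) := by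
      rw [h1]
      exact hx
    exact fch_anti G (by omega) (fch_le_comap X.ι (n + j) h2)
  let mk : G →* G ⧸ N := QuotientGroup.mk' N
  have hmk : Function.Surjective mk := QuotientGroup.mk'_surjective N
  let K' : Subgroup (G ⧸ N) := (fch G n).map mk
  have hK'n : K'.Normal := (fch_normal G n).map mk hmk
  have hker : mk.ker = N := QuotientGroup.ker_mk' N
  have hcm : K'.comap mk = fch G n := by
    apply Subgroup.comap_map_eq_self
    rw [hker]
    exact hNle _
  have h1 : fres K' = ⊥ := by
    apply (X.quot P).fres_eq_bot' K'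
    · intro x hx
      have h2 : mk (X.ι (X.β x)) ∈ K' := hx
      rw [← Subgroup.mem_comap, hcm] at h2
      exact hA x (fch_anti G hn h2)
    · have h3 : K'.comap (X.quot P).ι = ((fch G n).comap X.ι).map (QuotientGroup.mk' P) := by
        ext l
        obtain ⟨l, rfl⟩ := QuotientGroup.mk'_surjective _ l
        constructor
        · intro h4
          have h5 : mk (X.ι l) ∈ K' := h4
          rw [← Subgroup.mem_comap, hcm] at h5
          exact ⟨l, h5, rfl⟩
        · rintro ⟨l', hl', hll'⟩
          rw [← hll']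
          exact ⟨X.ι l', hl', rfl⟩
      rw [h3]
      exact fres_map_bot _ P hDn
  have h2 : fch G (n + 1) ≤ N := by
    intro x hx
    have h3 := fres_le_comap mk (fch G n) K' (by rw [hcm]) hx
    rw [h1, Subgroup.mem_comap, Subgroup.mem_bot] at h3
    rw [← hker]
    exact h3
  exact le_antisymm (h2.trans (hNle _)) (fch_succ_le G _)

theorem HX.stab_down (hA : ∀ x : A, X.ι (X.β x) ∈ fch G 1 → x = 1) {n : ℕ}
    (h : fch G n = fch G (n + 1)) : fch L n = fch L (n + 1) := by
  apply le_antisymm _ (fch_succ_le L n)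
  calc fch L n ≤ (fch G n).comap X.ι := fch_le_comap X.ι n
    _ = (fch G (n + 1 + 1)).comap X.ι := by rw [fch_const G h (by omega : n ≤ n + 1 + 1)]
    _ ≤ fch L (n + 1) := X.comap_fch_le hA (n + 1)

end Pool.Agent.H88FR
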