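import Pool.Agent.H88FR.Root
import Pool.Agent.Helper68.FR.Perm

/-!
One-relator groups with relator `t⁻¹ u t v⁻¹`.
-/

namespace Pool.Agent.H88FR

open Pool.Agent.Helper68.FR

section

variable (X : Type) (u v : FreeGroup X)

/-- The word `t⁻¹ u t v⁻¹`, where `t` is the generator `none`. -/
def cycRel : FreeGroup (Option X) :=
  (FreeGroup.of none)⁻¹ * FreeGroup.map some u * FreeGroup.of none * (FreeGroup.map some v)⁻¹

theorem ι_mk (w : FreeGroup X) :
    (FreeGroup.lift fun x => (PresentedGroup.of (some x) :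
      PresentedGroup ({cycRel X u v} : Set (FreeGroup (Option X))))) w =
    PresentedGroup.mk _ (FreeGroup.map some w) := by
  have h : (FreeGroup.lift fun x => (PresentedGroup.of (some x) :
      PresentedGroup ({cycRel X u v} : Set (FreeGroup (Option X))))) =
      (PresentedGroup.mk _).comp (FreeGroup.map some) := by
    apply FreeGroup.ext_hom
    intro x
    rw [FreeGroup.lift_apply_of, MonoidHom.comp_apply, FreeGroup.map.of]
    rfl
  rw [h]
  rfl

/-- The structure of an HNN extension of a free group with cyclic associated subgroups. -/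
def hxCyc : HX (PresentedGroup ({cycRel X u v} : Set (FreeGroup (Option X)))) (FreeGroup X)
    (Multiplicative ℤ) where
  ι := FreeGroup.lift fun x => PresentedGroup.of (some x)
  t := PresentedGroup.of none
  α := zpowersHom _ u
  β := zpowersHom _ v
  rel := by
    intro z
    rw [zpowersHom_apply, zpowersHom_apply, map_zpow, map_zpow, ι_mk, ι_mk]
    have h := mk_rel_one (cycRel X u v)
    have h' : PresentedGroup.mk ({cycRel X u v} : Set (FreeGroup (Option X))) (cycRel X u v) =
        (PresentedGroup.of none)⁻¹ * PresentedGroup.mk _ (FreeGroup.map some u) *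
          PresentedGroup.of none * (PresentedGroup.mk _ (FreeGroup.map some v))⁻¹ := rfl
    rw [h', mul_inv_eq_one] at h
    have h1 : PresentedGroup.mk ({cycRel X u v} : Set (FreeGroup (Option X)))
        (FreeGroup.map some u) = PresentedGroup.of none * PresentedGroup.mk _
        (FreeGroup.map some v) * (PresentedGroup.of none)⁻¹ := by
      rw [eq_mul_inv_iff_mul_eq, ← inv_mul_eq_iff_eq_mul, ← mul_assoc]
      exact h
    rw [h1, conj_zpow, inv_mul_cancel_right]
  gen := by
    intro S h1 h2
    rw [eq_top_iff, ← PresentedGroup.closure_range_of, Subgroup.closure_le]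
    rintro _ ⟨o, rfl⟩
    cases o with
    | none => exact h2
    | some x =>
      have h3 := h1 (FreeGroup.of x)
      rwa [FreeGroup.lift_apply_of] at h3
  univ := by
    intro P _ φ s hs
    let f : Option X → P := fun o => o.elim s (fun x => φ (FreeGroup.of x))
    have hf : ∀ w, FreeGroup.lift f (FreeGroup.map some w) = φ w := by
      intro w
      have h1 : (FreeGroup.lift f).comp (FreeGroup.map some) = φ := by
        apply FreeGroup.ext_hom
        intro x
        rw [MonoidHom.comp_apply, FreeGroup.map.of, FreeGroup.lift_apply_of]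
        rfl
      exact DFunLike.congr_fun h1 w
    have hrel : ∀ r ∈ ({cycRel X u v} : Set (FreeGroup (Option X))), FreeGroup.lift f r = 1 := by
      intro r hr
      rw [Set.mem_singleton_iff] at hr
      subst hr
      rw [cycRel, map_mul, map_mul, map_mul, map_inv, map_inv, hf, hf, FreeGroup.lift_apply_of,
        mul_inv_eq_one]
      have h1 := hs (Multiplicative.ofAdd 1)
      rw [zpowersHom_apply, zpowersHom_apply] at h1
      simp only [toAdd_ofAdd, zpow_one] at h1
      change s⁻¹ * φ u * s = φ v
      rw [mul_assoc, h1, inv_mul_cancel_left]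
    refine ⟨PresentedGroup.toGroup hrel, ?_, ?_⟩
    · have h1 : (PresentedGroup.toGroup hrel).comp (FreeGroup.lift fun x =>
          (PresentedGroup.of (some x) :
          PresentedGroup ({cycRel X u v} : Set (FreeGroup (Option X))))) = φ := by
        apply FreeGroup.ext_hom
        intro x
        rw [MonoidHom.comp_apply, FreeGroup.lift_apply_of, PresentedGroup.toGroup.of]
        rfl
      intro h
      exact DFunLike.congr_fun h1 h
    · exact PresentedGroup.toGroup.of hrel

theorem cyc_edge (hu : u ≠ 1) (hv : v ≠ 1) (z : Multiplicative ℤ)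
    (hz : (hxCyc X u v).ι ((hxCyc X u v).β z) ∈
      fch (PresentedGroup ({cycRel X u v} : Set (FreeGroup (Option X)))) 1) : z = 1 := by
  by_contra hne
  have hz0 : Multiplicative.toAdd z ≠ 0 := by
    intro h
    apply hne
    rw [← ofAdd_toAdd z, h]
    rfl
  obtain ⟨B₁, hB₁⟩ := exists_exp_group u hu
  obtain ⟨B₂, hB₂⟩ := exists_exp_group v hv
  obtain ⟨p, hpge, hp⟩ := Nat.exists_infinite_primes
    (B₁ + B₂ + (Multiplicative.toAdd z).natAbs + 1)
  have hpf : Fact p.Prime := ⟨hp⟩
  obtain ⟨W₁, _, _, ψ₁, hW₁, hψ₁⟩ := hB₁ p hp (by omega)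
  obtain ⟨W₂, _, _, ψ₂, hW₂, hψ₂⟩ := hB₂ p hp (by omega)
  let W := W₁ × W₂
  let ψ : FreeGroup X →* W := ψ₁.prod ψ₂
  have hexp : ∀ x : W, x ^ p = 1 := by
    rintro ⟨x, y⟩
    exact Prod.ext (hW₁ x) (hW₂ y)
  have hou : orderOf (ψ u) = p := by
    apply orderOf_eq_prime (hexp _)
    intro h
    exact hψ₁ (congrArg Prod.fst h)
  have hov : orderOf (ψ v) = p := by
    apply orderOf_eq_prime (hexp _)
    intro h
    exact hψ₂ (congrArg Prod.snd h)
  obtain ⟨π, hπ⟩ := exists_conj (ι := Unit) (fun _ => ψ u) (fun _ => ψ v) (by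
    have h1 : ∀ (g : W) (w : FreeGroup Unit), FreeGroup.lift (fun _ => g) w =
        g ^ (Multiplicative.toAdd (expSum () w)) := by
      intro g w
      have h2 : FreeGroup.lift (fun _ => g) = (zpowersHom W g).comp (expSum ()) := by
        apply FreeGroup.ext_hom
        intro x
        rw [MonoidHom.comp_apply, FreeGroup.lift_apply_of, expSum, FreeGroup.lift_apply_of,
          zpowersHom_apply]
        simp
      rw [h2, MonoidHom.comp_apply, zpowersHom_apply]
    intro w
    rw [h1, h1, ← orderOf_dvd_iff_zpow_eq_one, ← orderOf_dvd_iff_zpow_eq_one, hou, hov])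
  have hπ' : rho (ψ u) * π = π * rho (ψ v) := by
    rw [← hπ ()]
    group
  obtain ⟨Θ, hΘ, _⟩ := (hxCyc X u v).univ (Equiv.Perm W) (rho.comp ψ) π (by
    intro z
    change rho (ψ (zpowersHom _ u z)) * π = π * rho (ψ (zpowersHom _ v z))
    rw [zpowersHom_apply, zpowersHom_apply, map_zpow, map_zpow, map_zpow, map_zpow]
    have h1 : rho (ψ u) = π * rho (ψ v) * π⁻¹ := by
      rw [← hπ', mul_inv_cancel_right]
    rw [h1, conj_zpow, inv_mul_cancel_right])
  have h1 := fch_le_comap Θ 1 hz
  rw [finite_bot, Subgroup.mem_comap, Subgroup.mem_bot, hΘ] at h1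
  change rho (ψ (zpowersHom _ v z)) = 1 at h1
  rw [← map_one rho] at h1
  have h2 := rho_injective h1
  rw [zpowersHom_apply, map_zpow, ← orderOf_dvd_iff_zpow_eq_one, hov] at h2
  have h3 := Nat.le_of_dvd (Int.natAbs_pos.mpr hz0) (Int.natCast_dvd.mp h2)
  omega

theorem cyc_bot (hu : u ≠ 1) (hv : v ≠ 1) :
    fch (PresentedGroup ({cycRel X u v} : Set (FreeGroup (Option X)))) 2 = ⊥ :=
  (hxCyc X u v).fch_bot (cyc_edge X u v hu hv) le_rfl (free_bot X)

end

end Pool.Agent.H88FR
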