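import Pool.Agent.H88FR.OneRel

/-!
Embeddings of one-relator groups into one-relator groups; base cases.
-/

namespace Pool.Agent.H88FR

open Pool.Agent.Helper68.FR

theorem exists_embedding {Y Y' : Type} {P : Type*} [Group P] (θ : FreeGroup Y →* FreeGroup Y')
    (r : FreeGroup Y) (Ψ : FreeGroup Y' →* P) (D : PresentedGroup ({r} : Set (FreeGroup Y)) →* P)
    (hD : Function.Injective D)
    (h : ∀ y, Ψ (θ (FreeGroup.of y)) = D (PresentedGroup.of y)) :
    ∃ j : PresentedGroup ({r} : Set (FreeGroup Y)) →* PresentedGroup ({θ r} : Set (FreeGroup Y')),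
      Function.Injective j := by
  have hcomp : Ψ.comp θ = D.comp (PresentedGroup.mk ({r} : Set (FreeGroup Y))) := by
    apply FreeGroup.ext_hom
    intro y
    exact h y
  have hcomp' : ∀ w, Ψ (θ w) = D (PresentedGroup.mk _ w) := fun w => DFunLike.congr_fun hcomp w
  have hΨ : ∀ s ∈ ({θ r} : Set (FreeGroup Y')), FreeGroup.lift (fun y => Ψ (FreeGroup.of y)) s = 1 := by
    intro s hs
    rw [Set.mem_singleton_iff] at hs
    subst hs
    have h1 : FreeGroup.lift (fun y => Ψ (FreeGroup.of y)) = Ψ := by
      apply FreeGroup.ext_hom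
      intro y
      rw [FreeGroup.lift_apply_of]
    rw [h1, hcomp', mk_rel_one, map_one]
  have hj : ∀ s ∈ ({r} : Set (FreeGroup Y)), FreeGroup.lift (fun y =>
      PresentedGroup.mk ({θ r} : Set (FreeGroup Y')) (θ (FreeGroup.of y))) s = 1 := by
    intro s hs
    rw [Set.mem_singleton_iff] at hs
    subst hs
    have h1 : FreeGroup.lift (fun y => PresentedGroup.mk ({θ s} : Set (FreeGroup Y'))
        (θ (FreeGroup.of y))) = (PresentedGroup.mk ({θ s} : Set (FreeGroup Y'))).comp θ := by
      apply FreeGroup.ext_hom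
      intro y
      rw [FreeGroup.lift_apply_of]
      rfl
    rw [h1]
    exact mk_rel_one _
  let j := PresentedGroup.toGroup hj
  let Ψ' := PresentedGroup.toGroup hΨ
  have hcc : Ψ'.comp j = D := by
    apply PresentedGroup.ext
    intro y
    rw [MonoidHom.comp_apply]
    have h1 : j (PresentedGroup.of y) = PresentedGroup.mk ({θ r} : Set (FreeGroup Y'))
      (θ (FreeGroup.of y)) := PresentedGroup.toGroup.of hj
    have h2 : ∀ w, Ψ' (PresentedGroup.mk ({θ r} : Set (FreeGroup Y')) w) = Ψ w := by
      intro w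
      have h3 : Ψ'.comp (PresentedGroup.mk ({θ r} : Set (FreeGroup Y'))) = Ψ := by
        apply FreeGroup.ext_hom
        intro y
        exact PresentedGroup.toGroup.of hΨ
      exact DFunLike.congr_fun h3 w
    rw [h1, h2, h y]
  refine ⟨j, fun a b hab => hD ?_⟩
  rw [← hcc, MonoidHom.comp_apply, MonoidHom.comp_apply, hab]

theorem normalClosure_conj {Y : Type} (r c : FreeGroup Y) :
    Subgroup.normalClosure ({r} : Set (FreeGroup Y)) =
      Subgroup.normalClosure ({c * r * c⁻¹} : Set (FreeGroup Y)) := by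
  apply le_antisymm
  · apply Subgroup.normalClosure_le_normal
    intro x hx
    rw [Set.mem_singleton_iff] at hx
    subst hx
    have hn : (Subgroup.normalClosure ({c * x * c⁻¹} : Set (FreeGroup Y))).Normal :=
      Subgroup.normalClosure_normal
    have h1 := hn.conj_mem (c * x * c⁻¹) (Subgroup.subset_normalClosure rfl) c⁻¹
    have h2 : c⁻¹ * (c * x * c⁻¹) * c⁻¹⁻¹ = x := by group
    rw [h2] at h1
    exact h1
  · apply Subgroup.normalClosure_le_normal
    intro x hx
    rw [Set.mem_singleton_iff] at hx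
    subst hx
    have hn : (Subgroup.normalClosure ({r} : Set (FreeGroup Y))).Normal :=
      Subgroup.normalClosure_normal
    exact hn.conj_mem r (Subgroup.subset_normalClosure rfl) c

theorem conj_embedding {Y : Type} (r c : FreeGroup Y) :
    ∃ j : PresentedGroup ({r} : Set (FreeGroup Y)) →*
      PresentedGroup ({c * r * c⁻¹} : Set (FreeGroup Y)), Function.Injective j :=
  ⟨(QuotientGroup.quotientMulEquivOfEq (normalClosure_conj r c)).toMonoidHom,
    (QuotientGroup.quotientMulEquivOfEq (normalClosure_conj r c)).injective⟩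

theorem free_bot (Y : Type*) : fch (FreeGroup Y) 1 = ⊥ := by
  rw [eq_bot_iff]
  intro x hx
  rw [Subgroup.mem_bot]
  by_contra hne
  obtain ⟨M, hM, hxM⟩ := free_rf x hne
  apply hxM
  have h1 : x ∈ fres (⊤ : Subgroup (FreeGroup Y)) := hx
  apply mem_fres.mp h1 M le_top
  change M.relIndex ⊤ ≠ 0
  rw [Subgroup.relIndex_top_right]
  exact hM.index_ne_zero

theorem finite_bot (G : Type*) [Group G] [Finite G] : fch G 1 = ⊥ := by
  rw [eq_bot_iff]
  intro x hx
  have h1 : x ∈ fres (⊤ : Subgroup G) := hx
  apply mem_fres.mp h1 ⊥ bot_le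
  exact Subgroup.index_ne_zero_of_finite

theorem one_bot (Y : Type) : fch (PresentedGroup ({1} : Set (FreeGroup Y))) 1 = ⊥ := by
  have h1 : ∀ r ∈ ({1} : Set (FreeGroup Y)), FreeGroup.lift (FreeGroup.of : Y → FreeGroup Y) r = 1 := by
    intro r hr
    rw [Set.mem_singleton_iff] at hr
    rw [hr, map_one]
  have h2 : (PresentedGroup.mk ({1} : Set (FreeGroup Y))).comp (PresentedGroup.toGroup h1) =
      MonoidHom.id _ := by
    apply PresentedGroup.ext
    intro y
    rw [MonoidHom.comp_apply, PresentedGroup.toGroup.of]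
    rfl
  apply fch_eq_bot_of_injective (PresentedGroup.toGroup h1) _ 1 (free_bot Y)
  intro a b hab
  have h3 := congrArg (PresentedGroup.mk ({1} : Set (FreeGroup Y))) hab
  have h4 : ∀ x, PresentedGroup.mk ({1} : Set (FreeGroup Y)) (PresentedGroup.toGroup h1 x) = x :=
    fun x => DFunLike.congr_fun h2 x
  rwa [h4, h4] at h3

theorem cyclic_finite (Y : Type) (t : Y) (hY : ∀ y, y = t) (k : ℤ) (hk : k ≠ 0) :
    Finite (PresentedGroup ({FreeGroup.of t ^ k} : Set (FreeGroup Y))) := by
  let g : PresentedGroup ({FreeGroup.of t ^ k} : Set (FreeGroup Y)) := PresentedGroup.of t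
  have hg : g ^ k = 1 := by
    have h := mk_rel_one (FreeGroup.of t ^ k)
    rw [map_zpow] at h
    exact h
  have h1 : Subgroup.zpowers g = ⊤ := by
    rw [eq_top_iff, ← PresentedGroup.closure_range_of, Subgroup.closure_le]
    rintro _ ⟨y, rfl⟩
    rw [hY y]
    exact Subgroup.mem_zpowers g
  have h2 : IsOfFinOrder g := isOfFinOrder_iff_zpow_eq_one.mpr ⟨k, hk, hg⟩
  have h3 : ((Subgroup.zpowers g : Subgroup _) : Set
      (PresentedGroup ({FreeGroup.of t ^ k} : Set (FreeGroup Y)))).Finite := finite_zpowers.mpr h2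
  rw [h1] at h3
  exact Set.finite_univ_iff.mp h3

/-- The shift of period `a` with `a`-th power the left multiplication by `t`. -/
theorem exists_root {G : Type*} [Group G] (t : G) (a : ℕ) (ha : 1 ≤ a) :
    ∃ T : Equiv.Perm (G × Fin a), ∀ g i, (T ^ a) (g, i) = (t * g, i) := by
  let f : G × Fin a → G × Fin a := fun p =>
    if h : p.2.val + 1 < a then (p.1, ⟨p.2.val + 1, h⟩) else (t * p.1, ⟨0, ha⟩)
  let f' : G × Fin a → G × Fin a := fun p =>
    if h : 0 < p.2.val then (p.1, ⟨p.2.val - 1, by omega⟩) else (t⁻¹ * p.1, ⟨a - 1, by omega⟩)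
  let T : Equiv.Perm (G × Fin a) :=
    { toFun := f
      invFun := f'
      left_inv := by
        rintro ⟨g, i⟩
        simp only [f]
        split_ifs with h
        · simp [f']
        · have h1 : i.val = a - 1 := by
            have := i.2
            omega
          simp only [f', lt_irrefl, dite_false, inv_mul_cancel_left]
          exact Prod.ext rfl (Fin.ext h1.symm)
      right_inv := by
        rintro ⟨g, i⟩
        simp only [f']
        split_ifs with h
        · have h1 : i.val - 1 + 1 < a := by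
            have := i.2
            omega
          simp only [f, dif_pos h1]
          exact Prod.ext rfl (Fin.ext (by simp only at h ⊢; omega))
        · have h1 : ¬ a - 1 + 1 < a := by omega
          simp only [f, dif_neg h1, mul_inv_cancel_left]
          have h2 : i.val = 0 := by
            omega
          exact Prod.ext rfl (Fin.ext h2.symm) }
  have hT : ∀ k (g : G) (i : ℕ) (hi : i < a) (h : i + k < a), (T ^ k) (g, ⟨i, hi⟩) =
      (g, ⟨i + k, h⟩) := by
    intro k
    induction k with
    | zero =>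
      intro g i hi h
      simp
    | succ k ih =>
      intro g i hi h
      rw [pow_succ', Equiv.Perm.mul_apply, ih g i hi (by omega)]
      change f (g, ⟨i + k, _⟩) = _
      have h1 : i + k + 1 < a := by omega
      simp only [f, dif_pos h1]
      rfl
  refine ⟨T, ?_⟩
  rintro g ⟨i, hi⟩
  have h1 : a = i + (1 + (a - 1 - i)) := by omega
  have h2 : T ^ a = T ^ i * (T * T ^ (a - 1 - i)) := by
    have h3 : T ^ a = T ^ (i + (1 + (a - 1 - i))) := congrArg (fun n : ℕ => T ^ n) h1
    rw [h3, pow_add, pow_add, pow_one]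
  rw [h2, Equiv.Perm.mul_apply, Equiv.Perm.mul_apply, hT (a - 1 - i) g i hi (by omega)]
  have h3 : T (g, ⟨i + (a - 1 - i), by omega⟩) = (t * g, ⟨0, ha⟩) := by
    change f (g, ⟨i + (a - 1 - i), _⟩) = _
    have h4 : ¬ (i + (a - 1 - i) + 1 < a) := by omega
    simp only [f, dif_neg h4]
  rw [h3, hT i (t * g) 0 ha (by omega)]
  simp

open scoped Classical in
/-- The substitution `t ↦ t ^ a`, `x ↦ x t ^ (- b)`. -/
noncomputable def sub (Y : Type) (t x : Y) (a : ℕ) (b : ℤ) : FreeGroup Y →* FreeGroup Y :=
  FreeGroup.lift fun y => if y = t then FreeGroup.of t ^ a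
    else if y = x then FreeGroup.of x * FreeGroup.of t ^ (-b) else FreeGroup.of y

theorem sub_embedding (Y : Type) (t x : Y) (hxt : x ≠ t) (a : ℕ) (ha : 1 ≤ a) (b : ℤ)
    (r : FreeGroup Y) :
    ∃ j : PresentedGroup ({r} : Set (FreeGroup Y)) →*
      PresentedGroup ({sub Y t x a b r} : Set (FreeGroup Y)), Function.Injective j := by
  classical
  let G := PresentedGroup ({r} : Set (FreeGroup Y))
  obtain ⟨T, hT⟩ := exists_root (PresentedGroup.of t : G) a ha
  let D : G →* Equiv.Perm (G × Fin a) :=
    { toFun := fun g =>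
        { toFun := fun p => (g * p.1, p.2)
          invFun := fun p => (g⁻¹ * p.1, p.2)
          left_inv := by
            rintro ⟨ω, w⟩
            simp
          right_inv := by
            rintro ⟨ω, w⟩
            simp }
      map_one' := by
        ext ⟨ω, w⟩ <;> simp
      map_mul' := by
        intro a b
        ext ⟨ω, w⟩ <;> simp [mul_assoc] }
  have hD : Function.Injective D := by
    intro g g' h
    have h1 := congrArg (fun e : Equiv.Perm (G × Fin a) => (e (1, ⟨0, ha⟩)).1) h
    change g * 1 = g' * 1 at h1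
    rwa [mul_one, mul_one] at h1
  have hTD : T ^ a = D (PresentedGroup.of t) := by
    apply Equiv.ext
    rintro ⟨g, i⟩
    rw [hT]
    rfl
  apply exists_embedding (sub Y t x a b) r (FreeGroup.lift fun y => if y = t then T
    else if y = x then D (PresentedGroup.of x) * T ^ b else D (PresentedGroup.of y)) D hD
  intro y
  rw [sub, FreeGroup.lift_apply_of]
  by_cases h1 : y = t
  · rw [if_pos h1, map_pow, FreeGroup.lift_apply_of, if_pos rfl, h1, hTD]
  · rw [if_neg h1]
    by_cases h2 : y = x
    · rw [if_pos h2, map_mul, map_zpow, FreeGroup.lift_apply_of, FreeGroup.lift_apply_of,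
        if_pos rfl, if_neg hxt, if_pos rfl, h2, mul_assoc, ← zpow_add, add_neg_cancel, zpow_zero,
        mul_one]
    · rw [if_neg h2, FreeGroup.lift_apply_of, if_neg h1, if_neg h2]

end Pool.Agent.H88FR
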