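import Mathlib

/-!
Equations over finite `p`-groups with exponent sum prime to `p` have exactly one solution, and a
count of the solutions of an equation in several unknowns.
-/

namespace Pool.Agent.H88FR

open scoped Classical in
/-- The sum of the exponents with which the generator `y` occurs. -/
noncomputable def expSum {Y : Type*} (y : Y) : FreeGroup Y →* Multiplicative ℤ :=
  FreeGroup.lift fun x => Multiplicative.ofAdd (if x = y then 1 else 0)

open scoped Classical in
theorem lift_update_central {Y W : Type*} [Group W] (f : Y → W) (y : Y) (w z : W)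
    (hz : z ∈ Subgroup.center W) (r : FreeGroup Y) :
    FreeGroup.lift (Function.update f y (w * z)) r =
      FreeGroup.lift (Function.update f y w) r * z ^ (Multiplicative.toAdd (expSum y r)) := by
  let Φ : FreeGroup Y →* W :=
    { toFun := fun r => FreeGroup.lift (Function.update f y w) r *
        z ^ (Multiplicative.toAdd (expSum y r))
      map_one' := by simp
      map_mul' := by
        intro a b
        have h1 : ∀ (k : ℤ) (x : W), z ^ k * x = x * z ^ k := by
          intro k x
          have h2 : z ^ k ∈ Subgroup.center W := Subgroup.zpow_mem _ hz k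
          exact (Subgroup.mem_center_iff.mp h2 x).symm
        rw [map_mul, map_mul, toAdd_mul, zpow_add]
        have h2 := h1 (Multiplicative.toAdd (expSum y a))
          (FreeGroup.lift (Function.update f y w) b)
        simp only [mul_assoc]
        rw [← mul_assoc (z ^ (Multiplicative.toAdd (expSum y a)))
          (FreeGroup.lift (Function.update f y w) b), h2]
        simp only [mul_assoc] }
  have h : FreeGroup.lift (Function.update f y (w * z)) = Φ := by
    apply FreeGroup.ext_hom
    intro x
    change FreeGroup.lift (Function.update f y (w * z)) (FreeGroup.of x) =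
      FreeGroup.lift (Function.update f y w) (FreeGroup.of x) *
        z ^ (Multiplicative.toAdd (expSum y (FreeGroup.of x)))
    rw [FreeGroup.lift_apply_of, FreeGroup.lift_apply_of, expSum, FreeGroup.lift_apply_of]
    by_cases hx : x = y
    · subst hx
      simp
    · simp [hx]
  rw [h]
  rfl

open scoped Classical in
theorem equation_injective {Y : Type*} (y : Y) (r : FreeGroup Y) (p : ℕ) [hp : Fact p.Prime]
    (hc : ¬ (p : ℤ) ∣ Multiplicative.toAdd (expSum y r)) (W : Type) [Group W] [hn : Group.IsNilpotent W] :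
    IsPGroup p W → ∀ (f : Y → W) (w w' : W), FreeGroup.lift (Function.update f y w) r =
      FreeGroup.lift (Function.update f y w') r → w = w' := by
  refine Group.nilpotent_center_quotient_ind (P := fun W _ _ => IsPGroup p W →
    ∀ (f : Y → W) (w w' : W), FreeGroup.lift (Function.update f y w) r =
      FreeGroup.lift (Function.update f y w') r → w = w') W ?_ ?_
  · exact fun G _ _ _ _ w w' _ => Subsingleton.elim w w'
  · intro G _ _ ih hW f w w' h
    have h1 := ih (hW.to_quotient _) (fun x => (f x : G ⧸ Subgroup.center G))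
      (w : G ⧸ Subgroup.center G) (w' : G ⧸ Subgroup.center G)
    have h2 : ∀ v : G, FreeGroup.lift (Function.update
        (fun x => (f x : G ⧸ Subgroup.center G)) y (v : G ⧸ Subgroup.center G)) r =
        QuotientGroup.mk' (Subgroup.center G) (FreeGroup.lift (Function.update f y v) r) := by
      intro v
      have h3 : FreeGroup.lift (Function.update
        (fun x => (f x : G ⧸ Subgroup.center G)) y (v : G ⧸ Subgroup.center G)) =
        (QuotientGroup.mk' (Subgroup.center G)).comp
          (FreeGroup.lift (Function.update f y v)) := by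
        apply FreeGroup.ext_hom
        intro x
        rw [MonoidHom.comp_apply, FreeGroup.lift_apply_of, FreeGroup.lift_apply_of]
        by_cases hx : x = y
        · subst hx
          simp
        · simp [hx]
      rw [h3]
      rfl
    rw [h2, h2, h] at h1
    have h3 := QuotientGroup.eq.mp (h1 rfl)
    set z := w⁻¹ * w' with hz
    have h4 : w' = w * z := by
      rw [hz, mul_inv_cancel_left]
    rw [h4, lift_update_central f y w z h3 r] at h
    have h5 := left_eq_mul.mp h
    obtain ⟨k, hk⟩ := hW z
    have h6 : orderOf z ∣ p ^ k := orderOf_dvd_of_pow_eq_one hk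
    have h7 : (orderOf z : ℤ) ∣ Multiplicative.toAdd (expSum y r) :=
      orderOf_dvd_iff_zpow_eq_one.mpr h5
    obtain ⟨j, _, hj⟩ := (Nat.dvd_prime_pow hp.out).mp h6
    have h8 : j = 0 := by
      by_contra hj0
      apply hc
      refine dvd_trans ?_ h7
      rw [hj]
      exact_mod_cast dvd_pow_self p hj0
    rw [h8, pow_zero, orderOf_eq_one_iff] at hj
    rw [h4, hj, mul_one]

open scoped Classical in
theorem equation_unique {Y : Type*} (y : Y) (r : FreeGroup Y) (p : ℕ) [hp : Fact p.Prime]
    (hc : ¬ (p : ℤ) ∣ Multiplicative.toAdd (expSum y r)) (W : Type) [Group W] [Finite W]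
    (hW : IsPGroup p W) (f : Y → W) :
    ∃! w : W, FreeGroup.lift (Function.update f y w) r = 1 := by
  have hn : Group.IsNilpotent W := hW.isNilpotent
  have h1 : Function.Injective (fun w : W => FreeGroup.lift (Function.update f y w) r) :=
    fun w w' h => equation_injective y r p hc W hW f w w' h
  have h2 := Finite.injective_iff_surjective.mp h1
  obtain ⟨w, hw⟩ := h2 1
  exact ⟨w, hw, fun w' hw' => h1 (hw'.trans hw.symm)⟩

section

variable {Y Y₁ W : Type} [Group W] (r : FreeGroup Y) (y : Y)

/-- The solutions. -/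
abbrev Sol (W : Type) [Group W] (r : FreeGroup Y) : Type := {f : Y → W // FreeGroup.lift f r = 1}

open scoped Classical in
theorem exists_fiberEquiv (hu : ∀ f : Y → W, ∃! w : W,
    FreeGroup.lift (Function.update f y w) r = 1) (i : Y₁ → Y) (hi : Function.Injective i)
    (hy : ∀ x, i x ≠ y) (g g' : Y₁ → W) :
    Nonempty ({ω : Sol W r // ω.1 ∘ i = g} ≃ {ω : Sol W r // ω.1 ∘ i = g'}) := by
  choose s hs hs' using hu
  have hs2 : ∀ f f' : Y → W, (∀ x, x ≠ y → f x = f' x) → Function.update f y (s f) =
      Function.update f' y (s f') := by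
    intro f f' h
    have h1 : ∀ v, Function.update f y v = Function.update f' y v := by
      intro v
      funext x
      by_cases hx : x = y
      · subst hx
        simp
      · simp [hx, h x hx]
    have h2 : s f = s f' := by
      apply hs' f'
      rw [← h1]
      exact hs f
    rw [h1, h2]
  have hs3 : ∀ ω : Sol W r, Function.update ω.1 y (s ω.1) = ω.1 := by
    intro ω
    have h1 : ω.1 y = s ω.1 := by
      apply hs' ω.1
      rw [Function.update_eq_self]
      exact ω.2
    rw [← h1, Function.update_eq_self]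
  have mapto : ∀ (g g' : Y₁ → W), ∃ F : {ω : Sol W r // ω.1 ∘ i = g} →
      {ω : Sol W r // ω.1 ∘ i = g'}, ∀ ω x, x ≠ y → (F ω).1.1 x =
        ω.1.1 x * ((Function.extend i g 1 x)⁻¹ * Function.extend i g' 1 x) := by
    intro g g'
    refine ⟨fun ω => ⟨⟨Function.update (fun x => ω.1.1 x *
      ((Function.extend i g 1 x)⁻¹ * Function.extend i g' 1 x)) y (s _), hs _⟩, ?_⟩, ?_⟩
    · funext x
      simp only [Function.comp_apply]
      rw [Function.update_of_ne (hy x), hi.extend_apply, hi.extend_apply]
      have h1 : ω.1.1 (i x) = g x := congrFun ω.2 x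
      rw [h1, mul_inv_cancel_left]
    · intro ω x hx
      simp only
      rw [Function.update_of_ne hx]
  obtain ⟨F, hF⟩ := mapto g g'
  obtain ⟨F', hF'⟩ := mapto g' g
  have heq : ∀ ω ω' : Sol W r, (∀ x, x ≠ y → ω.1 x = ω'.1 x) → ω = ω' := by
    intro ω ω' h
    apply Subtype.ext
    rw [← hs3 ω, ← hs3 ω']
    exact hs2 _ _ h
  refine ⟨⟨F, F', ?_, ?_⟩⟩
  · intro ω
    apply Subtype.ext
    apply heq
    intro x hx
    rw [hF' _ x hx, hF _ x hx]
    group
  · intro ω
    apply Subtype.ext
    apply heq
    intro x hx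
    rw [hF _ x hx, hF' _ x hx]
    group

open scoped Classical in
theorem exists_balanced [Finite Y] [Finite W] (y₁ y₂ : Y)
    (h₁ : ∀ f : Y → W, ∃! w : W, FreeGroup.lift (Function.update f y₁ w) r = 1)
    (h₂ : ∀ f : Y → W, ∃! w : W, FreeGroup.lift (Function.update f y₂ w) r = 1)
    (i₁ i₂ : Y₁ → Y) (hi₁ : Function.Injective i₁) (hi₂ : Function.Injective i₂)
    (hy₁ : ∀ x, i₁ x ≠ y₁) (hy₂ : ∀ x, i₂ x ≠ y₂) :
    ∃ T : Sol W r ≃ Sol W r, ∀ ω, (T ω).1 ∘ i₁ = ω.1 ∘ i₂ := by
  have hY₁ : Finite Y₁ := Finite.of_injective i₁ hi₁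
  have := Fintype.ofFinite Y
  have := Fintype.ofFinite Y₁
  have := Fintype.ofFinite W
  have count : ∀ (i : Y₁ → Y), (∀ g g' : Y₁ → W, Nonempty ({ω : Sol W r // ω.1 ∘ i = g} ≃
      {ω : Sol W r // ω.1 ∘ i = g'})) → ∀ g : Y₁ → W, Fintype.card (Sol W r) =
      Fintype.card (Y₁ → W) * Fintype.card {ω : Sol W r // ω.1 ∘ i = g} := by
    intro i h g
    rw [← Fintype.card_congr (Equiv.sigmaFiberEquiv (fun ω : Sol W r => ω.1 ∘ i)),
      Fintype.card_sigma]
    rw [Finset.sum_congr rfl (fun g' _ => Fintype.card_congr (h g' g).some)]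
    rw [Finset.sum_const, smul_eq_mul, Finset.card_univ]
  have c1 := count i₁ (exists_fiberEquiv r y₁ h₁ i₁ hi₁ hy₁)
  have c2 := count i₂ (exists_fiberEquiv r y₂ h₂ i₂ hi₂ hy₂)
  have h3 : ∀ g : Y₁ → W, Nonempty ({ω : Sol W r // ω.1 ∘ i₂ = g} ≃
      {ω : Sol W r // ω.1 ∘ i₁ = g}) := by
    intro g
    apply Fintype.card_eq.mp
    have h4 := (c2 g).symm.trans (c1 g)
    exact Nat.eq_of_mul_eq_mul_left Fintype.card_pos h4
  refine ⟨Equiv.ofFiberEquiv (f := fun ω : Sol W r => ω.1 ∘ i₂)
    (g := fun ω : Sol W r => ω.1 ∘ i₁) (fun g => (h3 g).some), fun ω => ?_⟩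
  exact Equiv.ofFiberEquiv_map (f := fun ω : Sol W r => ω.1 ∘ i₂)
    (g := fun ω : Sol W r => ω.1 ∘ i₁) (fun g => (h3 g).some) ω

end

end Pool.Agent.H88FR
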