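import Pool.Agent.H88FR.Free

/-!
If the associated subgroups meet the normal subgroup `K` trivially, then the finite residual of `K`
meets the base group in the finite residual of the intersection.
-/

namespace Pool.Agent.H88FR

open Pool.Agent.Helper68.FR

variable {G L A : Type} [Group G] [Group L] [Group A] (X : HX G L A)

theorem HX.comap_fres_le (K : Subgroup G) [hKn : K.Normal]
    (hA : ∀ x : A, X.ι (X.β x) ∈ K → x = 1) :
    (fres K).comap X.ι ≤ fres (K.comap X.ι) := by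
  classical
  intro h hh
  rw [Subgroup.mem_comap] at hh
  rw [mem_fres]
  intro M hMD hi
  by_contra hM
  set D := K.comap X.ι with hD
  have hhD : h ∈ D := by
    rw [hD, Subgroup.mem_comap]
    exact fres_le K hh
  let M' : Subgroup D := M.subgroupOf D
  have hfi : M'.FiniteIndex := ⟨hi⟩
  let S := D ⧸ M'
  have hS : Finite S := Subgroup.finite_quotient_of_finiteIndex
  let δ : D →* Equiv.Perm S := MulAction.toPermHom D S
  let δ' : L → Equiv.Perm S := fun x => if hx : x ∈ D then δ ⟨x, hx⟩ else 1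
  have hδ : ∀ x y, x ∈ D → y ∈ D → δ' (x * y) = δ' x * δ' y := by
    intro x y hx hy
    simp only [δ', dif_pos hx, dif_pos hy, dif_pos (D.mul_mem hx hy)]
    rw [← map_mul]
    rfl
  let In : (G ⧸ K) → Prop := fun q => ∃ l : L, ((X.ι l : G) : G ⧸ K) = q
  let σ : (G ⧸ K) → L := fun q => if hq : In q then hq.choose else 1
  have hσ : ∀ q, In q → ((X.ι (σ q) : G) : G ⧸ K) = q := by
    intro q hq
    simp only [σ, dif_pos hq]
    exact hq.choose_spec
  have hIn : ∀ g q, In (((X.ι g : G) : G ⧸ K) * q) ↔ In q := by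
    intro g q
    constructor
    · rintro ⟨l, hl⟩
      refine ⟨g⁻¹ * l, ?_⟩
      rw [map_mul, map_inv, QuotientGroup.mk_mul, QuotientGroup.mk_inv, hl, inv_mul_cancel_left]
    · rintro ⟨l, hl⟩
      refine ⟨g * l, ?_⟩
      rw [map_mul, QuotientGroup.mk_mul, hl]
  have hmemD : ∀ g q, In q →
      (σ (((X.ι g : G) : G ⧸ K) * q))⁻¹ * g * σ q ∈ D := by
    intro g q hq
    rw [hD, Subgroup.mem_comap, ← QuotientGroup.eq_one_iff]
    rw [map_mul, map_mul, map_inv, QuotientGroup.mk_mul, QuotientGroup.mk_mul,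
      QuotientGroup.mk_inv, hσ _ ((hIn g q).mpr hq), hσ q hq]
    group
  let c : L → (G ⧸ K) → Equiv.Perm S := fun g q =>
    if In q then δ' ((σ (((X.ι g : G) : G ⧸ K) * q))⁻¹ * g * σ q) else 1
  have hc : ∀ g g' q, c (g * g') q = c g ((X.ι g' : G ⧸ K) * q) * c g' q := by
    intro g g' q
    by_cases hq : In q
    · have hq' := (hIn g' q).mpr hq
      simp only [c, if_pos hq, if_pos hq']
      rw [← hδ _ _ (hmemD g _ hq') (hmemD g' q hq)]
      congr 1
      rw [map_mul, QuotientGroup.mk_mul, mul_assoc ((X.ι g : G) : G ⧸ K)]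
      group
    · have hq' : ¬ In (((X.ι g' : G) : G ⧸ K) * q) := fun h1 => hq ((hIn g' q).mp h1)
      simp only [c, if_neg hq, if_neg hq', mul_one]
  let bb : A → G ⧸ K := fun x => ((X.ι (X.β x) : G) : G ⧸ K)
  have hbb1 : bb 1 = 1 := by
    simp only [bb, map_one, QuotientGroup.mk_one]
  have hbbm : ∀ x y, bb (x * y) = bb x * bb y := by
    intro x y
    simp only [bb, map_mul, QuotientGroup.mk_mul]
  have hbbi : ∀ x, bb x⁻¹ = (bb x)⁻¹ := by
    intro x
    simp only [bb, map_inv, QuotientGroup.mk_inv]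
  have hbbinj : ∀ x y, bb x = bb y → x = y := by
    intro x y hxy
    have h1 : bb (x⁻¹ * y) = 1 := by
      rw [hbbm, hbbi, hxy, inv_mul_cancel]
    have h2 := hA _ ((QuotientGroup.eq_one_iff _).mp h1)
    exact (inv_mul_eq_one.mp h2)
  let rs : Setoid (G ⧸ K) :=
    { r := fun q q' => ∃ x : A, q' = bb x * q
      iseqv :=
        { refl := fun q => ⟨1, by rw [hbb1, one_mul]⟩
          symm := by
            rintro q q' ⟨x, hx⟩
            exact ⟨x⁻¹, by rw [hbbi, hx, inv_mul_cancel_left]⟩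
          trans := by
            rintro q q' q'' ⟨x, hx⟩ ⟨y, hy⟩
            exact ⟨y * x, by rw [hbbm, mul_assoc, ← hx, hy]⟩ } }
  let rep : (G ⧸ K) → (G ⧸ K) := fun q => (Quotient.mk rs q).out
  have hrep : ∀ q, ∃ x : A, q = bb x * rep q := fun q => Quotient.mk_out (s := rs) q
  choose xq hxq using hrep
  have hrepinv : ∀ x q, rep (bb x * q) = rep q := by
    intro x q
    have h1 : Quotient.mk rs (bb x * q) = Quotient.mk rs q := by
      apply Quotient.sound
      refine ⟨x⁻¹, ?_⟩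
      rw [hbbi, inv_mul_cancel_left]
    simp only [rep, h1]
  have hxqinv : ∀ x q, xq (bb x * q) = x * xq q := by
    intro x q
    apply hbbinj
    have h1 := hxq (bb x * q)
    rw [hrepinv] at h1
    have h2 : bb (x * xq q) * rep q = bb x * q := by
      rw [hbbm, mul_assoc, ← hxq q]
    exact mul_right_cancel (h1.symm.trans h2.symm)
  have hrelq : ∀ x, ((X.ι (X.α x) : G) : G ⧸ K) * (X.t : G ⧸ K) = (X.t : G ⧸ K) * bb x := by
    intro x
    simp only [bb]
    rw [← QuotientGroup.mk_mul, ← QuotientGroup.mk_mul, X.rel x]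
  let d : (G ⧸ K) → Equiv.Perm S := fun q =>
    c (X.α (xq q)) ((X.t : G ⧸ K) * rep q) * (c (X.β (xq q)) (rep q))⁻¹
  have hd : ∀ x q, d (((X.ι (X.β x) : G) : G ⧸ K) * q) * c (X.β x) q =
      c (X.α x) ((X.t : G ⧸ K) * q) * d q := by
    intro x q
    change d (bb x * q) * c (X.β x) q = _
    simp only [d]
    rw [hrepinv, hxqinv, map_mul X.α, map_mul X.β, hc, hc]
    have h1 : ((X.ι (X.α (xq q)) : G) : G ⧸ K) * ((X.t : G ⧸ K) * rep q) =
        (X.t : G ⧸ K) * q := by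
      rw [← mul_assoc, hrelq, mul_assoc, ← hxq q]
    have h2 : ((X.ι (X.β (xq q)) : G) : G ⧸ K) * rep q = q := (hxq q).symm
    rw [h1, h2, mul_inv_rev]
    group
  obtain ⟨Θ, hΘ1, hΘ2, hΘ3⟩ := X.exists_action K S c hc d hd
  let a := σ 1
  have hIn1 : In 1 := ⟨1, by rw [map_one, QuotientGroup.mk_one]⟩
  have haD : a ∈ D := by
    rw [hD, Subgroup.mem_comap, ← QuotientGroup.eq_one_iff]
    exact hσ 1 hIn1
  have hh1 : ((X.ι h : G) : G ⧸ K) * 1 = 1 := by
    rw [mul_one, QuotientGroup.eq_one_iff]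
    exact hhD
  have hch : c h 1 = δ' (a⁻¹) * δ' h * δ' a := by
    simp only [c, if_pos hIn1]
    rw [hh1, hδ _ _ (D.mul_mem (D.inv_mem haD) hhD) haD, hδ _ _ (D.inv_mem haD) hhD]
  have haa : δ' a * δ' a⁻¹ = 1 := by
    rw [← hδ _ _ haD (D.inv_mem haD), mul_inv_cancel]
    simp only [δ', dif_pos D.one_mem]
    exact map_one δ
  let s₀ : S := ((1 : D) : D ⧸ M')
  have hs₀ : δ' h s₀ ≠ s₀ := by
    intro h1
    simp only [δ', dif_pos hhD] at h1
    have h2 : (((⟨h, hhD⟩ : D) * 1 : D) : D ⧸ M') = ((1 : D) : D ⧸ M') := h1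
    rw [QuotientGroup.eq] at h2
    have h3 : (((⟨h, hhD⟩ : D) * 1)⁻¹ * 1 : D) ∈ M.subgroupOf D := h2
    rw [Subgroup.mem_subgroupOf] at h3
    apply hM
    simpa using h3
  refine not_mem_fres_of_action K S Θ hΘ3 (X.ι h) (δ' a⁻¹ s₀) ?_ hh
  rw [hΘ1, hh1, hch]
  intro h1
  have h2 : (δ' a⁻¹ * δ' h * δ' a) (δ' a⁻¹ s₀) = δ' a⁻¹ s₀ := congrArg Prod.snd h1
  rw [Equiv.Perm.mul_apply, Equiv.Perm.mul_apply] at h2
  have h3 : δ' a (δ' a⁻¹ s₀) = s₀ := by
    rw [← Equiv.Perm.mul_apply, haa]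
    rfl
  rw [h3] at h2
  exact hs₀ ((δ' a⁻¹).injective h2)

end Pool.Agent.H88FR
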