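import Pool.Agent.H88FR.Basic

/-!
A normal subgroup which meets the base group trivially has trivial finite residual.
-/

namespace Pool.Agent.H88FR

open Pool.Agent.Helper68.FR

variable {G L A : Type} [Group G] [Group L] [Group A] (X : HX G L A)

/-- `t` or its inverse. -/
def HX.tp (e : Bool) : G := if e then X.t else X.t⁻¹

/-- Elements which are products of elements of the base group and of `n` letters `t^±1`. -/
inductive HX.Len (X : HX G L A) : ℕ → G → Prop
  | base (h : L) : X.Len 0 (X.ι h)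
  | step (n : ℕ) (y : G) (h : L) (e : Bool) (hy : X.Len n y) : X.Len (n + 1) (X.ι h * (X.tp e * y))

theorem HX.len_mul {n : ℕ} {y : G} (h : L) (hy : X.Len n y) : X.Len n (X.ι h * y) := by
  cases hy with
  | base h' =>
    rw [← map_mul]
    exact HX.Len.base _
  | step n y h' e hy =>
    rw [← mul_assoc, ← map_mul]
    exact HX.Len.step _ _ _ _ hy

theorem HX.len_tp {n : ℕ} {y : G} (e : Bool) (hy : X.Len n y) : X.Len (n + 1) (X.tp e * y) := by
  have h := HX.Len.step n y 1 e hy
  rwa [map_one, one_mul] at h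

theorem HX.exists_len (g : G) : ∃ n, X.Len n g := by
  have hgen : Subgroup.closure (Set.range X.ι ∪ {X.t}) = ⊤ := by
    apply X.gen
    · intro h
      exact Subgroup.subset_closure (Or.inl ⟨h, rfl⟩)
    · exact Subgroup.subset_closure (Or.inr rfl)
  have hg : g ∈ Subgroup.closure (Set.range X.ι ∪ {X.t}) := by
    rw [hgen]
    exact Subgroup.mem_top g
  induction hg using Subgroup.closure_induction_left with
  | one =>
    refine ⟨0, ?_⟩
    have h := HX.Len.base (X := X) 1
    rwa [map_one] at h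
  | mul_left x hx y hy ih =>
    obtain ⟨n, hn⟩ := ih
    rcases hx with ⟨h, rfl⟩ | hx
    · exact ⟨n, X.len_mul h hn⟩
    · rw [Set.mem_singleton_iff] at hx
      subst hx
      exact ⟨n + 1, X.len_tp true hn⟩
  | inv_mul_cancel x hx y hy ih =>
    obtain ⟨n, hn⟩ := ih
    rcases hx with ⟨h, rfl⟩ | hx
    · refine ⟨n, ?_⟩
      rw [← map_inv]
      exact X.len_mul h⁻¹ hn
    · rw [Set.mem_singleton_iff] at hx
      subst hx
      exact ⟨n + 1, X.len_tp false hn⟩

theorem HX.exists_seq {n : ℕ} {k : G} (h : X.Len n k) :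
    ∃ (y : ℕ → G) (e : ℕ → Bool) (g : ℕ → L), y n = k ∧ (∃ l, y 0 = X.ι l) ∧
      ∀ j < n, y (j + 1) = X.ι (g j) * (X.tp (e j) * y j) := by
  induction h with
  | base l => exact ⟨fun _ => X.ι l, fun _ => true, fun _ => 1, rfl, ⟨l, rfl⟩, by intro j hj; omega⟩
  | step n y h e hy ih =>
    obtain ⟨y', e', g', h1, h2, h3⟩ := ih
    refine ⟨fun i => if i ≤ n then y' i else X.ι h * (X.tp e * y),
      fun i => if i < n then e' i else e, fun i => if i < n then g' i else h, ?_, ?_, ?_⟩
    · simp
    · simpa using h2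
    · intro j hj
      rcases Nat.lt_or_ge j n with h4 | h4
      · have h5 : j + 1 ≤ n := h4
        have h6 : j ≤ n := by omega
        simp only [h5, h6, h4, if_true]
        exact h3 j h4
      · have h5 : j = n := by omega
        subst h5
        simp [h1]

theorem HX.fres_eq_bot (K : Subgroup G) [hKn : K.Normal] (hK : ∀ h : L, X.ι h ∈ K → h = 1) :
    fres K = ⊥ := by
  classical
  rw [eq_bot_iff]
  intro k hk
  rw [Subgroup.mem_bot]
  by_contra hk1
  have hkK : k ∈ K := fres_le K hk
  have hex := X.exists_len k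
  set n := Nat.find hex with hn
  have hlen : X.Len n k := Nat.find_spec hex
  have hmin : ∀ m, m < n → ¬ X.Len m k := fun m hm => Nat.find_min hex hm
  obtain ⟨y, e, g, hyn, ⟨l₀, hy0⟩, hys⟩ := X.exists_seq hlen
  have hlens : ∀ j, j ≤ n → X.Len j (y j) := by
    intro j
    induction j with
    | zero =>
      intro _
      rw [hy0]
      exact HX.Len.base _
    | succ j ih =>
      intro hj
      rw [hys j (by omega)]
      exact HX.Len.step _ _ _ _ (ih (by omega))
  have hshort : ∀ i m, i ≤ n → X.Len m (y i) → ∀ d, i + d ≤ n → X.Len (m + d) (y (i + d)) := by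
    intro i m hi hm d
    induction d with
    | zero =>
      intro _
      exact hm
    | succ d ih =>
      intro hd
      have h1 := ih (by omega)
      have h2 := hys (i + d) (by omega)
      rw [← add_assoc, ← add_assoc, h2]
      exact HX.Len.step _ _ _ _ h1
  have hn0 : n ≠ 0 := by
    intro h0
    rw [h0] at hyn
    rw [hy0] at hyn
    have h1 := hK l₀ (by rw [hyn]; exact hkK)
    rw [h1, map_one] at hyn
    exact hk1 hyn.symm
  -- reduced: no pinches
  have hpinA : ∀ i, i + 2 ≤ n → e i = true → e (i + 1) = false → ∀ x : A, g i ≠ X.α x := by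
    intro i hi h1 h2 x hx
    have h3 := hys i (by omega)
    have h4 := hys (i + 1) (by omega)
    rw [h3, h1, h2, hx] at h4
    have h5 : y (i + 2) = X.ι (g (i + 1) * X.β x) * y i := by
      change y (i + 1 + 1) = _
      rw [h4, map_mul]
      simp only [HX.tp, if_true, Bool.false_eq_true, if_false]
      have h6 := X.rel x
      calc X.ι (g (i + 1)) * (X.t⁻¹ * (X.ι (X.α x) * (X.t * y i)))
          = X.ι (g (i + 1)) * (X.t⁻¹ * ((X.ι (X.α x) * X.t) * y i)) := by simp only [mul_assoc]
        _ = X.ι (g (i + 1)) * (X.t⁻¹ * ((X.t * X.ι (X.β x)) * y i)) := by rw [h6]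
        _ = X.ι (g (i + 1)) * X.ι (X.β x) * y i := by group
    have h6 : X.Len i (y (i + 2)) := by
      rw [h5]
      exact X.len_mul _ (hlens i (by omega))
    have h7 := hshort (i + 2) i hi h6 (n - (i + 2)) (by omega)
    have h8 : i + 2 + (n - (i + 2)) = n := by omega
    rw [h8, hyn] at h7
    exact hmin _ (by omega) h7
  have hpinB : ∀ i, i + 2 ≤ n → e i = false → e (i + 1) = true → ∀ x : A, g i ≠ X.β x := by
    intro i hi h1 h2 x hx
    have h3 := hys i (by omega)
    have h4 := hys (i + 1) (by omega)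
    rw [h3, h1, h2, hx] at h4
    have h5 : y (i + 2) = X.ι (g (i + 1) * X.α x) * y i := by
      change y (i + 1 + 1) = _
      rw [h4, map_mul]
      simp only [HX.tp, if_true, Bool.false_eq_true, if_false]
      have h6 := X.rel x
      calc X.ι (g (i + 1)) * (X.t * (X.ι (X.β x) * (X.t⁻¹ * y i)))
          = X.ι (g (i + 1)) * ((X.t * X.ι (X.β x)) * (X.t⁻¹ * y i)) := by simp only [mul_assoc]
        _ = X.ι (g (i + 1)) * ((X.ι (X.α x) * X.t) * (X.t⁻¹ * y i)) := by rw [h6]
        _ = X.ι (g (i + 1)) * X.ι (X.α x) * y i := by group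
    have h6 : X.Len i (y (i + 2)) := by
      rw [h5]
      exact X.len_mul _ (hlens i (by omega))
    have h7 := hshort (i + 2) i hi h6 (n - (i + 2)) (by omega)
    have h8 : i + 2 + (n - (i + 2)) = n := by omega
    rw [h8, hyn] at h7
    exact hmin _ (by omega) h7
  let b : ℕ → G ⧸ K := fun i => if e i then ((y i : G) : G ⧸ K) else ((X.t⁻¹ * y i : G) : G ⧸ K)
  let R : (G ⧸ K) → Fin (n + 1) → Fin (n + 1) → Prop := fun q i i' =>
    (i'.val = i.val + 1 ∧ e i.val = true ∧ ∃ x : A, q = ((X.ι (X.β x) : G) : G ⧸ K) * b i.val) ∨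
    (i.val = i'.val + 1 ∧ e i'.val = false ∧ ∃ x : A, q = ((X.ι (X.β x) : G) : G ⧸ K) * b i'.val)
  have hRinv : ∀ x q, R (((X.ι (X.β x) : G) : G ⧸ K) * q) = R q := by
    have hex : ∀ (z : G ⧸ K) x q, (∃ x' : A, (((X.ι (X.β x) : G) : G ⧸ K) * q) =
        ((X.ι (X.β x') : G) : G ⧸ K) * z) ↔ (∃ x' : A, q = ((X.ι (X.β x') : G) : G ⧸ K) * z) := by
      intro z x q
      constructor
      · rintro ⟨x', hx'⟩
        refine ⟨x⁻¹ * x', ?_⟩
        rw [map_mul, map_mul, map_inv, map_inv, QuotientGroup.mk_mul, QuotientGroup.mk_inv,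
          mul_assoc, ← hx', inv_mul_cancel_left]
      · rintro ⟨x', hx'⟩
        refine ⟨x * x', ?_⟩
        rw [map_mul, map_mul, QuotientGroup.mk_mul, mul_assoc, ← hx']
    intro x q
    funext i i'
    simp only [R, hex]
  have hR1 : ∀ q (x z z' : Fin (n + 1)), R q x z → R q x z' → z = z' := by
    have key : ∀ q (x z z' : Fin (n + 1)),
        (z.val = x.val + 1 ∧ e x.val = true ∧ ∃ a : A, q = ((X.ι (X.β a) : G) : G ⧸ K) * b x.val) →
        (x.val = z'.val + 1 ∧ e z'.val = false ∧
          ∃ a : A, q = ((X.ι (X.β a) : G) : G ⧸ K) * b z'.val) → False := by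
      rintro q x z z' ⟨h1, h2, a, ha⟩ ⟨h3, h4, a', ha'⟩
      have hx : x.val + 1 ≤ n := by
        have := z.2
        omega
      apply hpinB z'.val (by omega) h4 (by rw [← h3]; exact h2) (a⁻¹ * a')
      have h5 := hys z'.val (by omega)
      have h6 : b x.val = ((X.ι (g z'.val) : G) : G ⧸ K) * b z'.val := by
        simp only [b, h2, h4, if_true, Bool.false_eq_true, if_false]
        rw [h3, h5, h4]
        simp only [HX.tp, Bool.false_eq_true, if_false]
        rw [QuotientGroup.mk_mul]
      rw [ha', h6, ← mul_assoc] at ha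
      have h7 := mul_right_cancel ha
      have h8 : ((X.ι (X.β (a⁻¹ * a')) : G) : G ⧸ K) = ((X.ι (g z'.val) : G) : G ⧸ K) := by
        rw [map_mul, map_mul, map_inv, map_inv, QuotientGroup.mk_mul, QuotientGroup.mk_inv, h7,
          inv_mul_cancel_left]
      have h9 : X.ι ((X.β (a⁻¹ * a'))⁻¹ * g z'.val) ∈ K := by
        rw [map_mul, map_inv]
        exact QuotientGroup.eq.mp h8
      have h10 := hK _ h9
      exact (inv_mul_eq_one.mp h10).symm
    rintro q x z z' (h | h) (h' | h')
    · apply Fin.ext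
      rw [h.1, h'.1]
    · exact (key q x z z' h h').elim
    · exact (key q x z' z h' h).elim
    · apply Fin.ext
      have := h.1
      have := h'.1
      omega
  have hR2 : ∀ q (x x' z : Fin (n + 1)), R q x z → R q x' z → x = x' := by
    have key : ∀ q (x x' z : Fin (n + 1)),
        (z.val = x.val + 1 ∧ e x.val = true ∧ ∃ a : A, q = ((X.ι (X.β a) : G) : G ⧸ K) * b x.val) →
        (x'.val = z.val + 1 ∧ e z.val = false ∧
          ∃ a : A, q = ((X.ι (X.β a) : G) : G ⧸ K) * b z.val) → False := by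
      rintro q x x' z ⟨h1, h2, a, ha⟩ ⟨h3, h4, a', ha'⟩
      have hx : z.val + 1 ≤ n := by
        have := x'.2
        omega
      apply hpinA x.val (by omega) h2 (by rw [← h1]; exact h4) (a'⁻¹ * a)
      have h5 := hys x.val (by omega)
      have h6 : b z.val = (X.t : G ⧸ K)⁻¹ * ((X.ι (g x.val) : G) : G ⧸ K) * (X.t : G ⧸ K) *
          b x.val := by
        simp only [b, h2, h4, if_true, Bool.false_eq_true, if_false]
        rw [h1, h5, h2]
        simp only [HX.tp, if_true]
        simp only [QuotientGroup.mk_mul, QuotientGroup.mk_inv, mul_assoc]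
      rw [ha', h6, ← mul_assoc] at ha
      have h7 := mul_right_cancel ha
      have h8 : ((X.ι (X.β (a'⁻¹ * a)) : G) : G ⧸ K) =
          (X.t : G ⧸ K)⁻¹ * ((X.ι (g x.val) : G) : G ⧸ K) * (X.t : G ⧸ K) := by
        rw [map_mul, map_mul, map_inv, map_inv, QuotientGroup.mk_mul, QuotientGroup.mk_inv, ← h7,
          inv_mul_cancel_left]
      have h9 : ((X.ι (X.α (a'⁻¹ * a)) : G) : G ⧸ K) = ((X.ι (g x.val) : G) : G ⧸ K) := by
        have h10 : X.ι (X.α (a'⁻¹ * a)) = X.t * X.ι (X.β (a'⁻¹ * a)) * X.t⁻¹ := by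
          rw [← X.rel, mul_inv_cancel_right]
        rw [h10, QuotientGroup.mk_mul, QuotientGroup.mk_mul, h8, QuotientGroup.mk_inv]
        group
      have h11 : X.ι ((X.α (a'⁻¹ * a))⁻¹ * g x.val) ∈ K := by
        rw [map_mul, map_inv]
        exact QuotientGroup.eq.mp h9
      have h12 := hK _ h11
      exact (inv_mul_eq_one.mp h12).symm
    rintro q x x' z (h | h) (h' | h')
    · apply Fin.ext
      have := h.1
      have := h'.1
      omega
    · exact (key q x x' z h h').elim
    · exact (key q x' x z h' h).elim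
    · apply Fin.ext
      rw [h.1, h'.1]
  let F : (Fin (n + 1) → Fin (n + 1) → Prop) → Equiv.Perm (Fin (n + 1)) := fun R' =>
    if h : ∃ π : Equiv.Perm (Fin (n + 1)), ∀ x z, R' x z → π x = z then h.choose else 1
  have hF : ∀ q x z, R q x z → F (R q) x = z := by
    intro q
    have h : ∃ π : Equiv.Perm (Fin (n + 1)), ∀ x z, R q x z → π x = z :=
      exists_perm_of_rel (R q) (hR1 q) (hR2 q)
    simp only [F, dif_pos h]
    exact h.choose_spec
  obtain ⟨Θ, hΘ1, hΘ2, hΘ3⟩ := X.exists_action K (Fin (n + 1)) (fun _ _ => 1) (by simp)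
    (fun q => F (R q)) (by
      intro x q
      rw [hRinv]
      simp)
  have hpath : ∀ j (hj : j < n + 1), Θ (y j) (1, 0) = (((y j : G) : G ⧸ K), ⟨j, hj⟩) := by
    intro j
    induction j with
    | zero =>
      intro hj
      rw [hy0, hΘ1]
      simp
    | succ j ih =>
      intro hj
      have h1 := ih (by omega)
      have h2 := hys j (by omega)
      rw [h2, map_mul, map_mul, Equiv.Perm.mul_apply, Equiv.Perm.mul_apply, h1]
      cases hej : e j with
      | true =>
        have h3 : F (R ((y j : G) : G ⧸ K)) ⟨j, by omega⟩ = ⟨j + 1, hj⟩ := by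
          apply hF
          left
          refine ⟨rfl, hej, 1, ?_⟩
          simp [b, hej]
        simp only [HX.tp, if_true]
        rw [hΘ2, hΘ1, h3]
        simp [QuotientGroup.mk_mul]
      | false =>
        have h3 : F (R ((X.t⁻¹ * y j : G) : G ⧸ K)) ⟨j + 1, hj⟩ = ⟨j, by omega⟩ := by
          apply hF
          right
          refine ⟨rfl, hej, 1, ?_⟩
          simp [b, hej]
        have h4 : Θ X.t⁻¹ (((y j : G) : G ⧸ K), ⟨j, by omega⟩) =
            (((X.t⁻¹ * y j : G) : G ⧸ K), ⟨j + 1, hj⟩) := by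
          rw [map_inv, Equiv.Perm.inv_eq_iff_eq, hΘ2, h3, ← QuotientGroup.mk_mul,
            mul_inv_cancel_left]
        simp only [HX.tp, Bool.false_eq_true, if_false]
        rw [h4, hΘ1]
        simp [QuotientGroup.mk_mul]
  have hfin : Θ k (1, 0) ≠ (1, 0) := by
    have h1 := hpath n (by omega)
    rw [hyn] at h1
    rw [h1]
    intro h2
    have h3 := congrArg (fun p : (G ⧸ K) × Fin (n + 1) => p.2.val) h2
    simp only [Fin.val_zero] at h3
    exact hn0 h3
  exact not_mem_fres_of_action K (Fin (n + 1)) Θ hΘ3 k 0 hfin hk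

end Pool.Agent.H88FR
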