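import Pool.Agent.H88FR.Extend

/-!
A normal subgroup `K` which meets the associated subgroups trivially and meets the base group in a
residually finite group is residually finite.
-/

namespace Pool.Agent.H88FR

open Pool.Agent.Helper68.FR

variable {G L A : Type} [Group G] [Group L] [Group A] (X : HX G L A)

theorem HX.fres_eq_bot' (K : Subgroup G) [hKn : K.Normal]
    (hA : ∀ x : A, X.ι (X.β x) ∈ K → x = 1) (hD0 : fres (K.comap X.ι) = ⊥) :
    fres K = ⊥ := by
  classical
  rw [eq_bot_iff]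
  intro k hk
  rw [Subgroup.mem_bot]
  by_contra hk1
  have hkK : k ∈ K := fres_le K hk
  have hex := X.exists_len k
  set n := Nat.find hex with hn
  have hlen : X.Len n k := Nat.find_spec hex
  have hmin : ∀ m, m < n → ¬ X.Len m k := fun m hm => Nat.find_min hex hm
  obtain ⟨y, e, g, hyn, ⟨l₀, hy0⟩, hys⟩ := X.exists_seq hlen
  have hlens : ∀ j, j ≤ n → X.Len j (y j) := by
    intro j
    induction j with
    | zero =>
      intro _
      rw [hy0]
      exact HX.Len.base _
    | succ j ih =>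
      intro hj
      rw [hys j (by omega)]
      exact HX.Len.step _ _ _ _ (ih (by omega))
  have hshort : ∀ i m, i ≤ n → X.Len m (y i) → ∀ d, i + d ≤ n → X.Len (m + d) (y (i + d)) := by
    intro i m hi hm d
    induction d with
    | zero =>
      intro _
      exact hm
    | succ d ih =>
      intro hd
      have h1 := ih (by omega)
      have h2 := hys (i + d) (by omega)
      rw [← add_assoc, ← add_assoc, h2]
      exact HX.Len.step _ _ _ _ h1
  set D := K.comap X.ι with hD
  have hn0 : n ≠ 0 := by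
    intro h0
    rw [h0] at hyn
    rw [hy0] at hyn
    rw [← hyn] at hk
    have h1 := X.comap_fres_le K hA hk
    rw [← hD, hD0, Subgroup.mem_bot] at h1
    rw [h1, map_one] at hyn
    exact hk1 hyn.symm
  have hpinA : ∀ i, i + 2 ≤ n → e i = true → e (i + 1) = false → ∀ x : A, g i ≠ X.α x := by
    intro i hi h1 h2 x hx
    have h3 := hys i (by omega)
    have h4 := hys (i + 1) (by omega)
    rw [h3, h1, h2, hx] at h4
    have h5 : y (i + 2) = X.ι (g (i + 1) * X.β x) * y i := by
      change y (i + 1 + 1) = _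
      rw [h4, map_mul]
      simp only [HX.tp, if_true, Bool.false_eq_true, if_false]
      have h6 := X.rel x
      calc X.ι (g (i + 1)) * (X.t⁻¹ * (X.ι (X.α x) * (X.t * y i)))
          = X.ι (g (i + 1)) * (X.t⁻¹ * ((X.ι (X.α x) * X.t) * y i)) := by simp only [mul_assoc]
        _ = X.ι (g (i + 1)) * (X.t⁻¹ * ((X.t * X.ι (X.β x)) * y i)) := by rw [h6]
        _ = X.ι (g (i + 1)) * X.ι (X.β x) * y i := by group
    have h6 : X.Len i (y (i + 2)) := by
      rw [h5]
      exact X.len_mul _ (hlens i (by omega))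
    have h7 := hshort (i + 2) i hi h6 (n - (i + 2)) (by omega)
    have h8 : i + 2 + (n - (i + 2)) = n := by omega
    rw [h8, hyn] at h7
    exact hmin _ (by omega) h7
  have hpinB : ∀ i, i + 2 ≤ n → e i = false → e (i + 1) = true → ∀ x : A, g i ≠ X.β x := by
    intro i hi h1 h2 x hx
    have h3 := hys i (by omega)
    have h4 := hys (i + 1) (by omega)
    rw [h3, h1, h2, hx] at h4
    have h5 : y (i + 2) = X.ι (g (i + 1) * X.α x) * y i := by
      change y (i + 1 + 1) = _
      rw [h4, map_mul]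
      simp only [HX.tp, if_true, Bool.false_eq_true, if_false]
      have h6 := X.rel x
      calc X.ι (g (i + 1)) * (X.t * (X.ι (X.β x) * (X.t⁻¹ * y i)))
          = X.ι (g (i + 1)) * ((X.t * X.ι (X.β x)) * (X.t⁻¹ * y i)) := by simp only [mul_assoc]
        _ = X.ι (g (i + 1)) * ((X.ι (X.α x) * X.t) * (X.t⁻¹ * y i)) := by rw [h6]
        _ = X.ι (g (i + 1)) * X.ι (X.α x) * y i := by group
    have h6 : X.Len i (y (i + 2)) := by
      rw [h5]
      exact X.len_mul _ (hlens i (by omega))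
    have h7 := hshort (i + 2) i hi h6 (n - (i + 2)) (by omega)
    have h8 : i + 2 + (n - (i + 2)) = n := by omega
    rw [h8, hyn] at h7
    exact hmin _ (by omega) h7
  -- sections of the orbits of the base group
  let bar : G → G ⧸ K := fun x => (x : G ⧸ K)
  let li : L → G ⧸ K := fun x => ((X.ι x : G) : G ⧸ K)
  have hli1 : li 1 = 1 := by simp only [li, map_one, QuotientGroup.mk_one]
  have hlim : ∀ x z, li (x * z) = li x * li z := by
    intro x z
    simp only [li, map_mul, QuotientGroup.mk_mul]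
  have hlii : ∀ x, li x⁻¹ = (li x)⁻¹ := by
    intro x
    simp only [li, map_inv, QuotientGroup.mk_inv]
  have hliD : ∀ x, li x = 1 ↔ x ∈ D := by
    intro x
    simp only [li]
    rw [QuotientGroup.eq_one_iff]
    rfl
  let ls : Setoid (G ⧸ K) :=
    { r := fun q q' => ∃ x : L, q' = li x * q
      iseqv :=
        { refl := fun q => ⟨1, by rw [hli1, one_mul]⟩
          symm := by
            rintro q q' ⟨x, hx⟩
            exact ⟨x⁻¹, by rw [hlii, hx, inv_mul_cancel_left]⟩
          trans := by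
            rintro q q' q'' ⟨x, hx⟩ ⟨z, hz⟩
            exact ⟨z * x, by rw [hlim, mul_assoc, ← hx, hz]⟩ } }
  let ρ : (G ⧸ K) → (G ⧸ K) := fun q => (Quotient.mk ls q).out
  have hρ : ∀ q, ∃ x : L, q = li x * ρ q := fun q => Quotient.mk_out (s := ls) q
  choose σ hσ using hρ
  have hρinv : ∀ x q, ρ (li x * q) = ρ q := by
    intro x q
    have h1 : Quotient.mk ls (li x * q) = Quotient.mk ls q := by
      apply Quotient.sound
      refine ⟨x⁻¹, ?_⟩
      rw [hlii, inv_mul_cancel_left]
    simp only [ρ, h1]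
  have hmemD : ∀ x q, (σ (li x * q))⁻¹ * x * σ q ∈ D := by
    intro x q
    rw [← hliD, hlim, hlim, hlii]
    have h1 := hσ (li x * q)
    rw [hρinv] at h1
    have h2 := hσ q
    have h3 : li (σ (li x * q)) * ρ q = li x * (li (σ q) * ρ q) := by rw [← h2, ← h1]
    rw [← mul_assoc] at h3
    rw [mul_right_cancel h3]
    group
  -- orbits of the associated group
  let bb : A → G ⧸ K := fun x => li (X.β x)
  have hbb1 : bb 1 = 1 := by simp only [bb, map_one, hli1]
  have hbbm : ∀ x z, bb (x * z) = bb x * bb z := by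
    intro x z
    simp only [bb, map_mul, hlim]
  have hbbi : ∀ x, bb x⁻¹ = (bb x)⁻¹ := by
    intro x
    simp only [bb, map_inv, hlii]
  have hbbinj : ∀ x z, bb x = bb z → x = z := by
    intro x z hxz
    have h1 : bb (x⁻¹ * z) = 1 := by
      rw [hbbm, hbbi, hxz, inv_mul_cancel]
    have h2 := hA _ ((QuotientGroup.eq_one_iff _).mp h1)
    exact (inv_mul_eq_one.mp h2)
  let rs : Setoid (G ⧸ K) :=
    { r := fun q q' => ∃ x : A, q' = bb x * q
      iseqv :=
        { refl := fun q => ⟨1, by rw [hbb1, one_mul]⟩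
          symm := by
            rintro q q' ⟨x, hx⟩
            exact ⟨x⁻¹, by rw [hbbi, hx, inv_mul_cancel_left]⟩
          trans := by
            rintro q q' q'' ⟨x, hx⟩ ⟨z, hz⟩
            exact ⟨z * x, by rw [hbbm, mul_assoc, ← hx, hz]⟩ } }
  let rep : (G ⧸ K) → (G ⧸ K) := fun q => (Quotient.mk rs q).out
  have hrep : ∀ q, ∃ x : A, q = bb x * rep q := fun q => Quotient.mk_out (s := rs) q
  choose xq hxq using hrep
  have hrepinv : ∀ x q, rep (bb x * q) = rep q := by
    intro x q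
    have h1 : Quotient.mk rs (bb x * q) = Quotient.mk rs q := by
      apply Quotient.sound
      refine ⟨x⁻¹, ?_⟩
      rw [hbbi, inv_mul_cancel_left]
    simp only [rep, h1]
  have hxqinv : ∀ x q, xq (bb x * q) = x * xq q := by
    intro x q
    apply hbbinj
    have h1 := hxq (bb x * q)
    rw [hrepinv] at h1
    have h2 : bb (x * xq q) * rep q = bb x * q := by
      rw [hbbm, mul_assoc, ← hxq q]
    exact mul_right_cancel (h1.symm.trans h2.symm)
  let tt : G ⧸ K := (X.t : G ⧸ K)
  have hrelq : ∀ x, li (X.α x) * tt = tt * bb x := by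
    intro x
    simp only [li, bb, tt]
    rw [← QuotientGroup.mk_mul, ← QuotientGroup.mk_mul, X.rel x]
  have htrep : ∀ q, li (X.α (xq q)) * (tt * rep q) = tt * q := by
    intro q
    rw [← mul_assoc, hrelq, mul_assoc, ← hxq q]
  -- the path
  let b : ℕ → G ⧸ K := fun i => if e i then bar (y i) else tt⁻¹ * bar (y i)
  let z : ℕ → G ⧸ K := fun i => if e i then tt * bar (y i) else tt⁻¹ * bar (y i)
  have hz : ∀ j < n, bar (y (j + 1)) = li (g j) * z j := by
    intro j hj
    simp only [bar, li, z, tt]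
    rw [hys j hj]
    cases hej : e j with
    | true => simp [HX.tp, QuotientGroup.mk_mul]
    | false => simp [HX.tp, QuotientGroup.mk_mul]
  let dd : ℕ → L := fun j => Nat.rec ((σ (bar (y 0)))⁻¹ * l₀ * σ 1)
    (fun j c => ((σ (bar (y (j + 1))))⁻¹ * g j * σ (z j)) * c) j
  have hdd0 : dd 0 = (σ (bar (y 0)))⁻¹ * l₀ * σ 1 := rfl
  have hdds : ∀ j, dd (j + 1) = ((σ (bar (y (j + 1))))⁻¹ * g j * σ (z j)) * dd j := fun j => rfl
  have hddD : ∀ j ≤ n, dd j ∈ D := by
    intro j
    induction j with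
    | zero =>
      intro _
      rw [hdd0]
      have h1 := hmemD l₀ 1
      have h2 : li l₀ * 1 = bar (y 0) := by
        rw [mul_one, hy0]
      rw [h2] at h1
      exact h1
    | succ j ih =>
      intro hj
      rw [hdds]
      apply D.mul_mem _ (ih (by omega))
      have h1 := hmemD (g j) (z j)
      rw [← hz j (by omega)] at h1
      exact h1
  let uu : ℕ → L := fun j => (σ (b j))⁻¹ * X.β (xq (b j)) * σ (rep (b j))
  let vv : ℕ → L := fun j => (σ (tt * b j))⁻¹ * X.α (xq (b j)) * σ (tt * rep (b j))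
  have huuD : ∀ j, uu j ∈ D := by
    intro j
    have h1 := hmemD (X.β (xq (b j))) (rep (b j))
    have h2 : li (X.β (xq (b j))) * rep (b j) = b j := (hxq (b j)).symm
    rw [h2] at h1
    exact h1
  have hvvD : ∀ j, vv j ∈ D := by
    intro j
    have h1 := hmemD (X.α (xq (b j))) (tt * rep (b j))
    rw [htrep] at h1
    exact h1
  -- elements which have to be avoided
  let ea : ℕ → L := fun j => (((vv j)⁻¹ * dd j))⁻¹ * ((vv (j + 1))⁻¹ * dd (j + 1))
  let eb : ℕ → L := fun j => (((uu j)⁻¹ * dd j))⁻¹ * ((uu (j + 1))⁻¹ * dd (j + 1))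
  have hea : ∀ j, j + 2 ≤ n → e j = true → e (j + 1) = false → rep (b j) = rep (b (j + 1)) →
      ea j ≠ 1 := by
    intro j hj h1 h2 h3 h4
    apply hpinA j hj h1 h2 (xq (b (j + 1)) * (xq (b j))⁻¹)
    have hb1 : b j = bar (y j) := by simp only [b, h1, if_true]
    have hz1 : z j = tt * b j := by simp only [z, h1, if_true, hb1]
    have hb2 : tt * b (j + 1) = bar (y (j + 1)) := by
      simp only [b, h2, Bool.false_eq_true, if_false, mul_inv_cancel_left]
    have h5 : dd (j + 1) = ((σ (tt * b (j + 1)))⁻¹ * g j * σ (tt * b j)) * dd j := by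
      rw [hdds, ← hb2, hz1]
    simp only [ea, vv] at h4
    rw [h5, ← h3] at h4
    have h6 : (dd j)⁻¹ * (σ (tt * b j))⁻¹ * (X.α (xq (b j)) * (X.α (xq (b (j + 1))))⁻¹ * g j) *
        σ (tt * b j) * dd j = 1 := by
      rw [← h4]
      group
    have h7 : X.α (xq (b j)) * (X.α (xq (b (j + 1))))⁻¹ * g j = 1 := by
      calc X.α (xq (b j)) * (X.α (xq (b (j + 1))))⁻¹ * g j
          = (σ (tt * b j) * dd j) * ((dd j)⁻¹ * (σ (tt * b j))⁻¹ *
            (X.α (xq (b j)) * (X.α (xq (b (j + 1))))⁻¹ * g j) *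
            σ (tt * b j) * dd j) * (σ (tt * b j) * dd j)⁻¹ := by group
        _ = 1 := by
            rw [h6]
            group
    rw [map_mul, map_inv]
    have h8 := eq_inv_of_mul_eq_one_right h7
    rw [h8]
    group
  have heb : ∀ j, j + 2 ≤ n → e j = false → e (j + 1) = true → rep (b j) = rep (b (j + 1)) →
      eb j ≠ 1 := by
    intro j hj h1 h2 h3 h4
    apply hpinB j hj h1 h2 (xq (b (j + 1)) * (xq (b j))⁻¹)
    have hb1 : b j = tt⁻¹ * bar (y j) := by simp only [b, h1, Bool.false_eq_true, if_false]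
    have hz1 : z j = b j := by simp only [z, h1, Bool.false_eq_true, if_false, hb1]
    have hb2 : b (j + 1) = bar (y (j + 1)) := by
      simp only [b, h2, if_true]
    have h5 : dd (j + 1) = ((σ (b (j + 1)))⁻¹ * g j * σ (b j)) * dd j := by
      rw [hdds, ← hb2, hz1]
    simp only [eb, uu] at h4
    rw [h5, ← h3] at h4
    have h6 : (dd j)⁻¹ * (σ (b j))⁻¹ * (X.β (xq (b j)) * (X.β (xq (b (j + 1))))⁻¹ * g j) *
        σ (b j) * dd j = 1 := by
      rw [← h4]
      group
    have h7 : X.β (xq (b j)) * (X.β (xq (b (j + 1))))⁻¹ * g j = 1 := by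
      calc X.β (xq (b j)) * (X.β (xq (b (j + 1))))⁻¹ * g j
          = (σ (b j) * dd j) * ((dd j)⁻¹ * (σ (b j))⁻¹ *
            (X.β (xq (b j)) * (X.β (xq (b (j + 1))))⁻¹ * g j) *
            σ (b j) * dd j) * (σ (b j) * dd j)⁻¹ := by group
        _ = 1 := by
            rw [h6]
            group
    rw [map_mul, map_inv]
    have h8 := eq_inv_of_mul_eq_one_right h7
    rw [h8]
    group
  -- a subgroup of finite index in `D` avoiding these elements
  have havoid : ∀ h : L, ∃ M : Subgroup D, M.FiniteIndex ∧ (h ≠ 1 → ∀ hh : h ∈ D, (⟨h, hh⟩ : D) ∉ M) := by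
    intro h
    by_cases h1 : h ≠ 1
    · have h2 : h ∉ fres D := by
        rw [hD0, Subgroup.mem_bot]
        exact h1
      rw [mem_fres] at h2
      push Not at h2
      obtain ⟨M, hM1, hM2, hM3⟩ := h2
      refine ⟨M.subgroupOf D, ⟨hM2⟩, fun _ hh hmem => hM3 ?_⟩
      rw [Subgroup.mem_subgroupOf] at hmem
      exact hmem
    · exact ⟨⊤, inferInstance, fun h2 => (h1 h2).elim⟩
  choose Mf hMf1 hMf2 using havoid
  let M : Subgroup D := ⨅ i : Fin (n + 1), (Mf (ea i.val) ⊓ Mf (eb i.val))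
  have hMfi : M.FiniteIndex := by
    have h1 : ∀ i : Fin (n + 1), (Mf (ea i.val) ⊓ Mf (eb i.val)).FiniteIndex := by
      intro i
      have h2 := hMf1 (ea i.val)
      have h3 := hMf1 (eb i.val)
      infer_instance
    exact Subgroup.finiteIndex_iInf h1
  have hMle : ∀ i : ℕ, i ≤ n → M ≤ Mf (ea i) ∧ M ≤ Mf (eb i) := by
    intro i hi
    have h1 : M ≤ Mf (ea i) ⊓ Mf (eb i) :=
      iInf_le (fun i : Fin (n + 1) => Mf (ea i.val) ⊓ Mf (eb i.val)) ⟨i, by omega⟩
    exact ⟨h1.trans inf_le_left, h1.trans inf_le_right⟩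
  let S₀ := D ⧸ M
  have hS₀ : Finite S₀ := Subgroup.finite_quotient_of_finiteIndex
  let S := S₀ × Fin (n + 1)
  have hS : Finite S := inferInstance
  -- classes of elements of `D`
  let cl : L → S₀ := fun x => if hx : x ∈ D then ((⟨x, hx⟩ : D) : D ⧸ M) else ((1 : D) : D ⧸ M)
  have hcl : ∀ x x', x ∈ D → x' ∈ D → cl x = cl x' → ∀ h : x⁻¹ * x' ∈ D, (⟨x⁻¹ * x', h⟩ : D) ∈ M := by
    intro x x' hx hx' h h'
    simp only [cl, dif_pos hx, dif_pos hx'] at h
    rw [QuotientGroup.eq] at h
    exact h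
  let δ : D →* Equiv.Perm S₀ := MulAction.toPermHom D S₀
  let δ' : L → Equiv.Perm S₀ := fun x => if hx : x ∈ D then δ ⟨x, hx⟩ else 1
  have hδ : ∀ x z, x ∈ D → z ∈ D → δ' (x * z) = δ' x * δ' z := by
    intro x z hx hz
    simp only [δ', dif_pos hx, dif_pos hz, dif_pos (D.mul_mem hx hz)]
    rw [← map_mul]
    rfl
  have hδcl : ∀ x z, x ∈ D → z ∈ D → δ' x (cl z) = cl (x * z) := by
    intro x z hx hz
    simp only [δ', cl, dif_pos hx, dif_pos hz, dif_pos (D.mul_mem hx hz)]
    rfl
  have hδinv : ∀ x, x ∈ D → (δ' x)⁻¹ = δ' x⁻¹ := by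
    intro x hx
    rw [inv_eq_iff_mul_eq_one, ← hδ _ _ hx (D.inv_mem hx), mul_inv_cancel]
    simp only [δ', dif_pos D.one_mem]
    exact map_one δ
  let up : Equiv.Perm S₀ → Equiv.Perm S := fun π => Equiv.prodCongr π (Equiv.refl _)
  have hupm : ∀ π π', up (π * π') = up π * up π' := by
    intro π π'
    ext ⟨a, i⟩ <;> rfl
  have hupi : ∀ π, (up π)⁻¹ = up π⁻¹ := by
    intro π
    rw [inv_eq_iff_mul_eq_one, ← hupm, mul_inv_cancel]
    rfl
  let c : L → (G ⧸ K) → Equiv.Perm S := fun x q => up (δ' ((σ (li x * q))⁻¹ * x * σ q))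
  have hc : ∀ x x' q, c (x * x') q = c x (li x' * q) * c x' q := by
    intro x x' q
    simp only [c]
    rw [← hupm, ← hδ _ _ (hmemD x _) (hmemD x' q)]
    congr 2
    rw [hlim, mul_assoc (li x)]
    group
  -- the relations
  let R : (G ⧸ K) → S → S → Prop := fun q s s' =>
    ∃ j : ℕ, j < n ∧ rep (b j) = q ∧
      ((e j = true ∧ s = (cl ((uu j)⁻¹ * dd j), (Fin.ofNat (n + 1) j)) ∧
          s' = (cl ((vv j)⁻¹ * dd j), (Fin.ofNat (n + 1) (j + 1)))) ∨
       (e j = false ∧ s = (cl ((uu j)⁻¹ * dd j), (Fin.ofNat (n + 1) (j + 1))) ∧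
          s' = (cl ((vv j)⁻¹ * dd j), (Fin.ofNat (n + 1) j))))
  have hofNat : ∀ i i', i < n + 1 → i' < n + 1 → Fin.ofNat (n + 1) i = Fin.ofNat (n + 1) i' →
      i = i' := by
    intro i i' hi hi' h
    have h1 := congrArg Fin.val h
    simpa [Fin.ofNat, Nat.mod_eq_of_lt hi, Nat.mod_eq_of_lt hi'] using h1
  have hR1 : ∀ q (s s' s'' : S), R q s s' → R q s s'' → s' = s'' := by
    have key : ∀ q j j', j < n → j' < n → rep (b j) = q → rep (b j') = q → e j = true →
        e j' = false → (cl ((uu j)⁻¹ * dd j), (Fin.ofNat (n + 1) j)) =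
          ((cl ((uu j')⁻¹ * dd j'), (Fin.ofNat (n + 1) (j' + 1))) : S) → False := by
      intro q j j' hj hj' hq hq' he he' heq
      have h1 := hofNat _ _ (by omega) (by omega) (congrArg Prod.snd heq)
      have h2 : cl ((uu j)⁻¹ * dd j) = cl ((uu j')⁻¹ * dd j') := congrArg Prod.fst heq
      subst h1
      have h3 := hcl _ _ (D.mul_mem (D.inv_mem (huuD j')) (hddD j' (by omega)))
        (D.mul_mem (D.inv_mem (huuD (j' + 1))) (hddD (j' + 1) (by omega))) h2.symm
        (D.mul_mem (D.inv_mem (D.mul_mem (D.inv_mem (huuD j')) (hddD j' (by omega))))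
          (D.mul_mem (D.inv_mem (huuD (j' + 1))) (hddD (j' + 1) (by omega))))
      have h4 := heb j' (by omega) he' he (hq'.trans hq.symm)
      exact hMf2 (eb j') h4 _ ((hMle j' (by omega)).2 h3)
    rintro q s s' s'' ⟨j, hj, hq, h⟩ ⟨j', hj', hq', h'⟩
    rcases h with ⟨h1, h2, h3⟩ | ⟨h1, h2, h3⟩ <;> rcases h' with ⟨h4, h5, h6⟩ | ⟨h4, h5, h6⟩
    · have h7 := hofNat _ _ (by omega) (by omega) (congrArg Prod.snd (h2.symm.trans h5))
      subst h7
      rw [h3, h6]
    · exact (key q j j' hj hj' hq hq' h1 h4 (h2.symm.trans h5)).elim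
    · exact (key q j' j hj' hj hq' hq h4 h1 (h5.symm.trans h2)).elim
    · have h7 := hofNat _ _ (by omega) (by omega) (congrArg Prod.snd (h2.symm.trans h5))
      have h8 : j = j' := by omega
      subst h8
      rw [h3, h6]
  have hR2 : ∀ q (s s' s'' : S), R q s s'' → R q s' s'' → s = s' := by
    have key : ∀ q j j', j < n → j' < n → rep (b j) = q → rep (b j') = q → e j = true →
        e j' = false → (cl ((vv j)⁻¹ * dd j), (Fin.ofNat (n + 1) (j + 1))) =
          ((cl ((vv j')⁻¹ * dd j'), (Fin.ofNat (n + 1) j')) : S) → False := by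
      intro q j j' hj hj' hq hq' he he' heq
      have h1 := hofNat _ _ (by omega) (by omega) (congrArg Prod.snd heq)
      have h2 : cl ((vv j)⁻¹ * dd j) = cl ((vv j')⁻¹ * dd j') := congrArg Prod.fst heq
      subst h1
      have h3 := hcl _ _ (D.mul_mem (D.inv_mem (hvvD j)) (hddD j (by omega)))
        (D.mul_mem (D.inv_mem (hvvD (j + 1))) (hddD (j + 1) (by omega))) h2
        (D.mul_mem (D.inv_mem (D.mul_mem (D.inv_mem (hvvD j)) (hddD j (by omega))))
          (D.mul_mem (D.inv_mem (hvvD (j + 1))) (hddD (j + 1) (by omega))))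
      have h4 := hea j (by omega) he he' (hq.trans hq'.symm)
      exact hMf2 (ea j) h4 _ ((hMle j (by omega)).1 h3)
    rintro q s s' s'' ⟨j, hj, hq, h⟩ ⟨j', hj', hq', h'⟩
    rcases h with ⟨h1, h2, h3⟩ | ⟨h1, h2, h3⟩ <;> rcases h' with ⟨h4, h5, h6⟩ | ⟨h4, h5, h6⟩
    · have h7 := hofNat _ _ (by omega) (by omega) (congrArg Prod.snd (h3.symm.trans h6))
      have h8 : j = j' := by omega
      subst h8
      rw [h2, h5]
    · exact (key q j j' hj hj' hq hq' h1 h4 (h3.symm.trans h6)).elim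
    · exact (key q j' j hj' hj hq' hq h4 h1 (h6.symm.trans h3)).elim
    · have h7 := hofNat _ _ (by omega) (by omega) (congrArg Prod.snd (h3.symm.trans h6))
      subst h7
      rw [h2, h5]
  have hC : ∀ q, ∃ π : Equiv.Perm S, ∀ s s', R q s s' → π s = s' := by
    intro q
    have := Fintype.ofFinite S
    exact exists_perm_of_rel (R q) (hR1 q) (hR2 q)
  choose C hC using hC
  let d : (G ⧸ K) → Equiv.Perm S := fun q =>
    c (X.α (xq q)) (tt * rep q) * C (rep q) * (c (X.β (xq q)) (rep q))⁻¹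
  have hd : ∀ x q, d (((X.ι (X.β x) : G) : G ⧸ K) * q) * c (X.β x) q =
      c (X.α x) ((X.t : G ⧸ K) * q) * d q := by
    intro x q
    change d (bb x * q) * c (X.β x) q = c (X.α x) (tt * q) * d q
    simp only [d]
    rw [hrepinv, hxqinv, map_mul X.α, map_mul X.β, hc, hc]
    have h2 : li (X.β (xq q)) * rep q = q := (hxq q).symm
    rw [htrep, h2, mul_inv_rev]
    group
  obtain ⟨Θ, hΘ1, hΘ2, hΘ3⟩ := X.exists_action K S c hc d hd
  have hcb : ∀ j, c (X.β (xq (b j))) (rep (b j)) = up (δ' (uu j)) := by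
    intro j
    have h2 : li (X.β (xq (b j))) * rep (b j) = b j := (hxq (b j)).symm
    simp only [c, h2, uu]
  have hca : ∀ j, c (X.α (xq (b j))) (tt * rep (b j)) = up (δ' (vv j)) := by
    intro j
    simp only [c, htrep, vv]
  have hdstep : ∀ j (hj : j < n), (e j = true → d (b j) (cl (dd j), Fin.ofNat (n + 1) j) =
      (cl (dd j), Fin.ofNat (n + 1) (j + 1))) ∧
      (e j = false → d (b j) (cl (dd j), Fin.ofNat (n + 1) (j + 1)) =
      (cl (dd j), Fin.ofNat (n + 1) j)) := by
    intro j hj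
    have hU : ∀ i, (up (δ' (uu j)))⁻¹ (cl (dd j), i) = (cl ((uu j)⁻¹ * dd j), i) := by
      intro i
      rw [hupi, hδinv _ (huuD j)]
      change (δ' (uu j)⁻¹ (cl (dd j)), i) = _
      rw [hδcl _ _ (D.inv_mem (huuD j)) (hddD j (by omega))]
    have hV : ∀ i, (up (δ' (vv j))) (cl ((vv j)⁻¹ * dd j), i) = (cl (dd j), i) := by
      intro i
      change (δ' (vv j) (cl ((vv j)⁻¹ * dd j)), i) = _
      rw [hδcl _ _ (hvvD j) (D.mul_mem (D.inv_mem (hvvD j)) (hddD j (by omega))),
        mul_inv_cancel_left]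
    constructor
    · intro he
      simp only [d]
      rw [hcb, hca, Equiv.Perm.mul_apply, Equiv.Perm.mul_apply, hU,
        hC (rep (b j)) _ _ ⟨j, hj, rfl, Or.inl ⟨he, rfl, rfl⟩⟩, hV]
    · intro he
      simp only [d]
      rw [hcb, hca, Equiv.Perm.mul_apply, Equiv.Perm.mul_apply, hU,
        hC (rep (b j)) _ _ ⟨j, hj, rfl, Or.inr ⟨he, rfl, rfl⟩⟩, hV]
  have hpath : ∀ j (hj : j < n + 1), Θ (y j) (1, (cl 1, Fin.ofNat (n + 1) 0)) =
      (bar (y j), (cl (dd j), Fin.ofNat (n + 1) j)) := by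
    intro j
    induction j with
    | zero =>
      intro hj
      rw [hy0, hΘ1]
      have h1 : li l₀ * 1 = bar (y 0) := by rw [mul_one, hy0]
      have h2 := hmemD l₀ 1
      refine Prod.ext ?_ ?_
      · rw [mul_one]
      · change (δ' ((σ (li l₀ * 1))⁻¹ * l₀ * σ 1) (cl 1), _) = _
        rw [hδcl _ _ h2 D.one_mem, h1, mul_one, ← hdd0]
        rfl
    | succ j ih =>
      intro hj
      have h1 := ih (by omega)
      have h2 := hys j (by omega)
      have hzj := hz j (by omega)
      have h3 : Θ (X.tp (e j)) (bar (y j), (cl (dd j), Fin.ofNat (n + 1) j)) =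
          (z j, (cl (dd j), Fin.ofNat (n + 1) (j + 1))) := by
        cases hej : e j with
        | true =>
          have hb : b j = bar (y j) := by simp only [b, hej, if_true]
          simp only [HX.tp, z, hej, if_true]
          rw [hΘ2, ← hb, (hdstep j (by omega)).1 hej]
        | false =>
          have hb : b j = tt⁻¹ * bar (y j) := by
            simp only [b, hej, Bool.false_eq_true, if_false]
          simp only [HX.tp, z, hej, Bool.false_eq_true, if_false]
          rw [map_inv, Equiv.Perm.inv_eq_iff_eq, hΘ2, ← hb, (hdstep j (by omega)).2 hej, hb]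
          change (bar (y j), _) = (tt * (tt⁻¹ * bar (y j)), _)
          rw [mul_inv_cancel_left]
      rw [h2, map_mul, map_mul, Equiv.Perm.mul_apply, Equiv.Perm.mul_apply, h1, h3, hΘ1, ← h2]
      refine Prod.ext ?_ ?_
      · exact hzj.symm
      · have h4 := hmemD (g j) (z j)
        change (δ' ((σ (li (g j) * z j))⁻¹ * g j * σ (z j)) (cl (dd j)), _) = _
        rw [hδcl _ _ h4 (hddD j (by omega)), ← hzj, ← hdds]
        rfl
  have hfin : Θ k (1, (cl 1, Fin.ofNat (n + 1) 0)) ≠ (1, (cl 1, Fin.ofNat (n + 1) 0)) := by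
    have h1 := hpath n (by omega)
    rw [hyn] at h1
    rw [h1]
    intro h2
    have h3 := congrArg (fun p : (G ⧸ K) × S => p.2.2) h2
    exact hn0 (hofNat n 0 (by omega) (by omega) h3)
  exact not_mem_fres_of_action K S Θ hΘ3 k _ hfin hk

end Pool.Agent.H88FR
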