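import Mathlib

/-!
A nontrivial element of a free group is detected by finite `p`-groups for all large primes `p`.
-/

namespace Pool.Agent.H88FR

theorem exists_syllables {X : Type*} (w : FreeGroup X) : ∃ L : List (X × ℤ),
    (∀ s ∈ L, s.2 ≠ 0) ∧ L.IsChain (fun a b => a.1 ≠ b.1) ∧
      w = (L.map (fun s => FreeGroup.of s.1 ^ s.2)).prod := by
  classical
  have merge : ∀ (a : X) (e : ℤ), e ≠ 0 → ∀ L : List (X × ℤ), (∀ s ∈ L, s.2 ≠ 0) →
      L.IsChain (fun a b => a.1 ≠ b.1) → ∃ L' : List (X × ℤ), (∀ s ∈ L', s.2 ≠ 0) ∧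
        L'.IsChain (fun a b => a.1 ≠ b.1) ∧
        FreeGroup.of a ^ e * (L.map (fun s => FreeGroup.of s.1 ^ s.2)).prod =
          (L'.map (fun s => FreeGroup.of s.1 ^ s.2)).prod := by
    intro a e he L h1 h2
    match L, h1, h2 with
    | [], h1, h2 => exact ⟨[(a, e)], by simpa using he, by simp, by simp⟩
    | (a', e') :: L'', h1, h2 =>
      have h3 : ∀ s ∈ L'', s.2 ≠ 0 := fun s hs => h1 s (List.mem_cons_of_mem _ hs)
      have h4 : L''.IsChain (fun a b => a.1 ≠ b.1) := h2.tail
      by_cases ha : a' = a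
      · subst ha
        by_cases hee : e + e' = 0
        · refine ⟨L'', h3, h4, ?_⟩
          simp only [List.map_cons, List.prod_cons]
          rw [← mul_assoc, ← zpow_add, hee, zpow_zero, one_mul]
        · refine ⟨(a', e + e') :: L'', ?_, ?_, ?_⟩
          · intro s hs
            rcases List.mem_cons.mp hs with rfl | hs
            · exact hee
            · exact h3 s hs
          · cases L'' with
            | nil => simp
            | cons b L3 =>
              rw [List.isChain_cons_cons] at h2 ⊢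
              exact ⟨h2.1, h2.2⟩
          · simp only [List.map_cons, List.prod_cons]
            rw [← mul_assoc, ← zpow_add]
      · refine ⟨(a, e) :: (a', e') :: L'', ?_, ?_, ?_⟩
        · intro s hs
          rcases List.mem_cons.mp hs with rfl | hs
          · exact he
          · exact h1 s hs
        · rw [List.isChain_cons_cons]
          exact ⟨fun h => ha h.symm, h2⟩
        · simp only [List.map_cons, List.prod_cons]
  have key : ∀ l : List (X × Bool), ∃ L : List (X × ℤ),
    (∀ s ∈ L, s.2 ≠ 0) ∧ L.IsChain (fun a b => a.1 ≠ b.1) ∧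
      FreeGroup.mk l = (L.map (fun s => FreeGroup.of s.1 ^ s.2)).prod := by
    intro l
    induction l with
    | nil => exact ⟨[], by simp, by simp, rfl⟩
    | cons c l ih =>
      obtain ⟨L, h1, h2, h3⟩ := ih
      obtain ⟨a, b⟩ := c
      have h4 : FreeGroup.mk ((a, b) :: l) = FreeGroup.of a ^ (if b then (1 : ℤ) else -1) *
          FreeGroup.mk l := by
        have h5 : FreeGroup.mk ((a, b) :: l) = FreeGroup.mk [(a, b)] * FreeGroup.mk l := rfl
        rw [h5]
        cases b with
        | true =>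
          rw [if_pos rfl, zpow_one]
          rfl
        | false =>
          rw [if_neg (by simp), zpow_neg, zpow_one]
          rfl
      obtain ⟨L', h5, h6, h7⟩ := merge a (if b then 1 else -1) (by cases b <;> simp) L h1 h2
      exact ⟨L', h5, h6, by rw [h4, h3, h7]⟩
  obtain ⟨L, h1, h2, h3⟩ := key w.toWord
  exact ⟨L, h1, h2, by rw [← h3, FreeGroup.mk_toWord]⟩

section

variable {X : Type*} [DecidableEq X] (cs : List X) (R : Type) [CommRing R]

/-- The matrix with entries `1` at `(i, i + 1)` for the letters equal to `a`. -/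
def Nm (a : X) : Matrix (Fin (cs.length + 1)) (Fin (cs.length + 1)) R := fun i j =>
  if j.val = i.val + 1 ∧ cs[i.val]? = some a then 1 else 0

theorem Nm_mul (a : X) (M : Matrix (Fin (cs.length + 1)) (Fin (cs.length + 1)) R)
    (i j : Fin (cs.length + 1)) : (Nm cs R a * M) i j =
      if h : i.val + 1 < cs.length + 1 ∧ cs[i.val]? = some a then M ⟨i.val + 1, h.1⟩ j else 0 := by
  rw [Matrix.mul_apply]
  split_ifs with h
  · rw [Finset.sum_eq_single ⟨i.val + 1, h.1⟩]
    · simp [Nm, h.2]
    · intro b _ hb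
      have : ¬ (b.val = i.val + 1 ∧ cs[i.val]? = some a) := by
        rintro ⟨h1, _⟩
        exact hb (Fin.ext h1)
      simp [Nm, this]
    · intro h1
      exact (h1 (Finset.mem_univ _)).elim
  · apply Finset.sum_eq_zero
    intro k _
    have : ¬ (k.val = i.val + 1 ∧ cs[i.val]? = some a) := by
      rintro ⟨h1, h2⟩
      exact h ⟨by have := k.2; omega, h2⟩
    simp [Nm, this]

theorem Nm_sq (hc : cs.IsChain (· ≠ ·)) (a : X) : Nm cs R a * Nm cs R a = 0 := by
  ext i j
  rw [Nm_mul]
  split_ifs with h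
  · have h1 : ¬ (j.val = i.val + 1 + 1 ∧ cs[i.val + 1]? = some a) := by
      rintro ⟨_, h3⟩
      rw [List.isChain_iff_getElem] at hc
      obtain ⟨h4, h5⟩ := List.getElem?_eq_some_iff.mp h.2
      obtain ⟨h6, h7⟩ := List.getElem?_eq_some_iff.mp h3
      exact hc i.val h6 (h5.trans h7.symm)
    simp [Nm, h1]
  · rfl

/-- The unit `1 + e N`. -/
def Um (hc : cs.IsChain (· ≠ ·)) (a : X) (e : ℤ) :
    (Matrix (Fin (cs.length + 1)) (Fin (cs.length + 1)) R)ˣ where
  val := 1 + (e : R) • Nm cs R a
  inv := 1 - (e : R) • Nm cs R a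
  val_inv := by
    have h := Nm_sq cs R hc a
    have h2 : ((e : R) • Nm cs R a) * ((e : R) • Nm cs R a) = 0 := by
      rw [smul_mul_smul_comm, h, smul_zero]
    have h3 : (1 + (e : R) • Nm cs R a) * (1 - (e : R) • Nm cs R a) =
        1 - ((e : R) • Nm cs R a) * ((e : R) • Nm cs R a) := by
      generalize (e : R) • Nm cs R a = E
      noncomm_ring
    rw [h3, h2, sub_zero]
  inv_val := by
    have h := Nm_sq cs R hc a
    have h2 : ((e : R) • Nm cs R a) * ((e : R) • Nm cs R a) = 0 := by
      rw [smul_mul_smul_comm, h, smul_zero]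
    have h3 : (1 - (e : R) • Nm cs R a) * (1 + (e : R) • Nm cs R a) =
        1 - ((e : R) • Nm cs R a) * ((e : R) • Nm cs R a) := by
      generalize (e : R) • Nm cs R a = E
      noncomm_ring
    rw [h3, h2, sub_zero]

theorem Um_add (hc : cs.IsChain (· ≠ ·)) (a : X) (e e' : ℤ) :
    Um cs R hc a (e + e') = Um cs R hc a e * Um cs R hc a e' := by
  apply Units.ext
  change 1 + ((e + e' : ℤ) : R) • Nm cs R a =
    (1 + (e : R) • Nm cs R a) * (1 + (e' : R) • Nm cs R a)
  have h := Nm_sq cs R hc a
  have h2 : ((e : R) • Nm cs R a) * ((e' : R) • Nm cs R a) = 0 := by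
    rw [smul_mul_smul_comm, h, smul_zero]
  have h3 : (1 + (e : R) • Nm cs R a) * (1 + (e' : R) • Nm cs R a) =
      1 + ((e : R) • Nm cs R a + (e' : R) • Nm cs R a) +
        ((e : R) • Nm cs R a) * ((e' : R) • Nm cs R a) := by
    generalize (e : R) • Nm cs R a = E
    generalize (e' : R) • Nm cs R a = E'
    noncomm_ring
  rw [h3, h2, add_zero, ← add_smul]
  push_cast
  rfl

/-- `Um` as a homomorphism of the infinite cyclic group. -/
def Uh (hc : cs.IsChain (· ≠ ·)) (a : X) : Multiplicative ℤ →*
    (Matrix (Fin (cs.length + 1)) (Fin (cs.length + 1)) R)ˣ where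
  toFun e := Um cs R hc a (Multiplicative.toAdd e)
  map_one' := by
    apply Units.ext
    change 1 + ((0 : ℤ) : R) • Nm cs R a = 1
    simp
  map_mul' x y := Um_add cs R hc a _ _

/-- The homomorphism of the free group. -/
def Ψ (hc : cs.IsChain (· ≠ ·)) : FreeGroup X →*
    (Matrix (Fin (cs.length + 1)) (Fin (cs.length + 1)) R)ˣ :=
  FreeGroup.lift fun a => Um cs R hc a 1

theorem Ψ_zpow (hc : cs.IsChain (· ≠ ·)) (a : X) (e : ℤ) :
    ((Ψ cs R hc (FreeGroup.of a ^ e) :
      (Matrix (Fin (cs.length + 1)) (Fin (cs.length + 1)) R)ˣ) :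
      Matrix (Fin (cs.length + 1)) (Fin (cs.length + 1)) R) = 1 + (e : R) • Nm cs R a := by
  rw [map_zpow]
  have h1 : Ψ cs R hc (FreeGroup.of a) = Uh cs R hc a (Multiplicative.ofAdd 1) := by
    simp only [Ψ, FreeGroup.lift_apply_of]
    rfl
  rw [h1, ← map_zpow, ← ofAdd_zsmul, smul_eq_mul, mul_one]
  rfl

theorem Ψ_entry (hc : cs.IsChain (· ≠ ·)) (L : List (X × ℤ)) : ∀ s : ℕ,
    s + L.length = cs.length → (∀ i : ℕ, (L.map Prod.fst)[i]? = cs[s + i]?) →
    ∀ i : Fin (cs.length + 1),
      (i.val < s → ((Ψ cs R hc ((L.map (fun s => FreeGroup.of s.1 ^ s.2)).prod) :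
        (Matrix (Fin (cs.length + 1)) (Fin (cs.length + 1)) R)ˣ) :
        Matrix (Fin (cs.length + 1)) (Fin (cs.length + 1)) R) i (Fin.last _) = 0) ∧
      (i.val = s → ((Ψ cs R hc ((L.map (fun s => FreeGroup.of s.1 ^ s.2)).prod) :
        (Matrix (Fin (cs.length + 1)) (Fin (cs.length + 1)) R)ˣ) :
        Matrix (Fin (cs.length + 1)) (Fin (cs.length + 1)) R) i (Fin.last _) =
          (L.map (fun s => (s.2 : R))).prod) := by
  induction L with
  | nil =>
    intro s hs _ i
    simp only [List.length_nil, add_zero] at hs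
    simp only [List.map_nil, List.prod_nil, map_one, Units.val_one]
    constructor
    · intro h
      apply Matrix.one_apply_ne
      intro h1
      rw [h1, Fin.val_last] at h
      omega
    · intro h
      have h1 : i = Fin.last _ := Fin.ext (by rw [h, hs, Fin.val_last])
      rw [h1, Matrix.one_apply_eq]
  | cons c L ih =>
    obtain ⟨a, e⟩ := c
    intro s hs hL i
    simp only [List.length_cons] at hs
    have h1 := ih (s + 1) (by omega) (by
      intro i
      have h2 := hL (i + 1)
      simp only [List.map_cons, List.getElem?_cons_succ] at h2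
      rw [h2]
      congr 1
      omega)
    have h2 : cs[s]? = some a := by
      have h3 := hL 0
      simp only [List.map_cons, List.getElem?_cons_zero, add_zero] at h3
      exact h3.symm
    simp only [List.map_cons, List.prod_cons]
    rw [map_mul, Units.val_mul, Ψ_zpow, add_mul, one_mul, Matrix.add_apply, smul_mul_assoc,
      Matrix.smul_apply, Nm_mul]
    constructor
    · intro hi
      rw [(h1 i).1 (by omega), zero_add]
      split_ifs with h
      · rw [(h1 ⟨i.val + 1, h.1⟩).1 (by simp only; omega), smul_zero]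
      · rw [smul_zero]
    · intro hi
      rw [(h1 i).1 (by omega), zero_add]
      have h4 : i.val + 1 < cs.length + 1 ∧ cs[i.val]? = some a := ⟨by omega, by rw [hi]; exact h2⟩
      rw [dif_pos h4, (h1 ⟨i.val + 1, h4.1⟩).2 (by simp only; omega), smul_eq_mul]

theorem Ψ_tri (hc : cs.IsChain (· ≠ ·)) (g : FreeGroup X) :
    ∀ i j : Fin (cs.length + 1), j ≤ i →
      ((Ψ cs R hc g : (Matrix (Fin (cs.length + 1)) (Fin (cs.length + 1)) R)ˣ) :
        Matrix (Fin (cs.length + 1)) (Fin (cs.length + 1)) R) i j =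
      (1 : Matrix (Fin (cs.length + 1)) (Fin (cs.length + 1)) R) i j := by
  have hN : ∀ a, ∀ i j : Fin (cs.length + 1), j ≤ i → Nm cs R a i j = 0 := by
    intro a i j hij
    have : ¬ (j.val = i.val + 1 ∧ cs[i.val]? = some a) := by
      rintro ⟨h1, _⟩
      have h2 : j.val ≤ i.val := hij
      omega
    simp [Nm, this]
  induction g using FreeGroup.induction_on with
  | C1 =>
    intro i j _
    rw [map_one, Units.val_one]
  | of a =>
    intro i j hij
    have h := Ψ_zpow cs R hc a 1
    rw [zpow_one] at h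
    rw [h, Matrix.add_apply, Matrix.smul_apply, hN a i j hij, smul_zero, add_zero]
  | inv_of a _ =>
    intro i j hij
    have h := Ψ_zpow cs R hc a (-1)
    rw [zpow_neg, zpow_one] at h
    rw [h, Matrix.add_apply, Matrix.smul_apply, hN a i j hij, smul_zero, add_zero]
  | mul x y hx hy =>
    intro i j hij
    rw [map_mul, Units.val_mul, Matrix.mul_apply]
    rcases hij.lt_or_eq with h | h
    · rw [Matrix.one_apply_ne h.ne']
      apply Finset.sum_eq_zero
      intro k _
      rcases le_or_gt k i with h1 | h1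
      · rcases h1.lt_or_eq with h2 | h2
        · rw [hx i k h1, Matrix.one_apply_ne h2.ne', zero_mul]
        · subst h2
          rw [hy k j hij, Matrix.one_apply_ne h.ne', mul_zero]
      · rw [hy k j (by omega), Matrix.one_apply_ne (by omega), mul_zero]
    · subst h
      rw [Matrix.one_apply_eq, Finset.sum_eq_single j]
      · rw [hx j j le_rfl, hy j j le_rfl, Matrix.one_apply_eq, one_mul]
      · intro k _ hk
        rcases lt_or_gt_of_ne hk with h1 | h1
        · rw [hx j k h1.le, Matrix.one_apply_ne h1.ne', zero_mul]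
        · rw [hy k j h1.le, Matrix.one_apply_ne h1.ne', mul_zero]
      · intro h1
        exact (h1 (Finset.mem_univ _)).elim

end

theorem pow_of_strict {n p : ℕ} [hp : Fact p.Prime] (hn : n + 1 ≤ p)
    (M : Matrix (Fin (n + 1)) (Fin (n + 1)) (ZMod p))
    (h : ∀ i j, j ≤ i → M i j = (1 : Matrix (Fin (n + 1)) (Fin (n + 1)) (ZMod p)) i j) :
    M ^ p = 1 := by
  set Z := M - 1 with hZ
  have hZ0 : ∀ i j, j ≤ i → Z i j = 0 := by
    intro i j hij
    rw [hZ, Matrix.sub_apply, h i j hij, sub_self]
  have h1 : Z.BlockTriangular id := by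
    intro i j hij
    exact hZ0 i j (le_of_lt hij)
  have h2 : Z.charpoly = Polynomial.X ^ (n + 1) := by
    rw [Matrix.charpoly_of_isUpperTriangular Z h1]
    have h3 : ∀ i, (Polynomial.X - Polynomial.C (Z i i) : Polynomial (ZMod p)) = Polynomial.X := by
      intro i
      rw [hZ0 i i le_rfl, Polynomial.C_0, sub_zero]
    simp [h3]
  have h3 : Z ^ (n + 1) = 0 := by
    have h4 := Matrix.aeval_self_charpoly Z
    rw [h2, map_pow, Polynomial.aeval_X] at h4
    exact h4
  have h4 : Z ^ p = 0 := by
    obtain ⟨d, rfl⟩ := Nat.exists_eq_add_of_le hn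
    rw [pow_add, h3, zero_mul]
  have h5 : M = 1 + Z := by
    rw [hZ]
    abel
  rw [h5, add_pow_char_of_commute p (Commute.one_left Z), one_pow, h4, add_zero]

/-- A nontrivial element of a free group is detected by finite groups of exponent `p`, for all large
primes `p`. -/
theorem exists_exp_group {X : Type*} (w : FreeGroup X) (hw : w ≠ 1) : ∃ B : ℕ, ∀ p : ℕ, p.Prime →
    B ≤ p → ∃ (W : Type) (_ : Group W) (_ : Finite W) (ψ : FreeGroup X →* W),
      (∀ x : W, x ^ p = 1) ∧ ψ w ≠ 1 := by
  classical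
  obtain ⟨L, h1, h2, h3⟩ := exists_syllables w
  let cs := L.map Prod.fst
  have hlen : cs.length = L.length := List.length_map _
  have hc : cs.IsChain (· ≠ ·) := by
    rw [List.isChain_iff_getElem] at h2 ⊢
    intro i hi
    have h4 := h2 i (by simpa [cs] using hi)
    simpa [cs] using h4
  refine ⟨cs.length + 1 + (L.map (fun s => s.2.natAbs)).sum, fun p hp hB => ?_⟩
  have hpf : Fact p.Prime := ⟨hp⟩
  let ψ := Ψ cs (ZMod p) hc
  have hpow : ∀ g, ψ g ^ p = 1 := by
    intro g
    apply Units.ext
    rw [Units.val_pow_eq_pow_val, Units.val_one]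
    exact pow_of_strict (by omega) _ (Ψ_tri cs (ZMod p) hc g)
  refine ⟨ψ.range, inferInstance, inferInstance, ψ.rangeRestrict, ?_, ?_⟩
  · rintro ⟨_, g, rfl⟩
    apply Subtype.ext
    exact hpow g
  · intro h4
    have h5 : ψ w = 1 := congrArg Subtype.val h4
    have h6 := (Ψ_entry cs (ZMod p) hc L 0 (by omega) (by simp [cs]) 0).2 rfl
    rw [← h3] at h6
    change ((ψ w : (Matrix (Fin (cs.length + 1)) (Fin (cs.length + 1)) (ZMod p))ˣ) :
        Matrix (Fin (cs.length + 1)) (Fin (cs.length + 1)) (ZMod p)) 0 (Fin.last _) = _ at h6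
    rw [h5, Units.val_one] at h6
    have hL : L ≠ [] := by
      intro h7
      rw [h7] at h3
      simp only [List.map_nil, List.prod_nil] at h3
      exact hw h3
    have hpos : 0 < cs.length := by
      rw [hlen]
      exact List.length_pos_of_ne_nil hL
    rw [Matrix.one_apply_ne (by
      intro h7
      have := congrArg Fin.val h7
      rw [Fin.val_last] at this
      simp at this
      omega)] at h6
    have h7 := List.prod_eq_zero_iff.mp h6.symm
    rw [List.mem_map] at h7
    obtain ⟨s, hs, hs0⟩ := h7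
    rw [ZMod.intCast_zmod_eq_zero_iff_dvd] at hs0
    have h8 : s.2.natAbs ≤ (L.map (fun s => s.2.natAbs)).sum := by
      apply List.single_le_sum (by simp)
      exact List.mem_map.mpr ⟨s, hs, rfl⟩
    have h9 : p ≤ s.2.natAbs := by
      apply Nat.le_of_dvd
      · exact Int.natAbs_pos.mpr (h1 s hs)
      · exact Int.natCast_dvd.mp hs0
    omega

/-- A nontrivial element of a free group is detected by finite `p`-groups, for all large primes. -/
theorem exists_pgroup {X : Type*} (w : FreeGroup X) (hw : w ≠ 1) : ∃ B : ℕ, ∀ p : ℕ, p.Prime →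
    B ≤ p → ∃ (W : Type) (_ : Group W) (_ : Finite W) (ψ : FreeGroup X →* W),
      IsPGroup p W ∧ ψ w ≠ 1 := by
  obtain ⟨B, hB⟩ := exists_exp_group w hw
  refine ⟨B, fun p hp h => ?_⟩
  obtain ⟨W, h1, h2, ψ, h3, h4⟩ := hB p hp h
  exact ⟨W, h1, h2, ψ, fun x => ⟨1, by rw [pow_one, h3]⟩, h4⟩

end Pool.Agent.H88FR
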