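import Pool.Agent.H88FR.Chain
import Pool.Agent.H88FR.Uni
import Pool.Agent.H88FR.Equation

/-!
One-relator groups with relator `r₀ (t⁻ʲ x tʲ)`, where the generators with the smallest and with the
largest index `j` have nonzero exponent sum in `r₀`.
-/

namespace Pool.Agent.H88FR

open Pool.Agent.Helper68.FR

/-- The homomorphism with `(x, j) ↦ t⁻ʲ x tʲ`, where `t` is the generator `none`. -/
def mag (X : Type) (m : ℕ) : FreeGroup (X × Fin (m + 1)) →* FreeGroup (Option X) :=
  FreeGroup.lift fun p =>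
    (FreeGroup.of none)⁻¹ ^ p.2.val * FreeGroup.of (some p.1) * FreeGroup.of none ^ p.2.val

theorem mag_of (X : Type) (m : ℕ) (p : X × Fin (m + 1)) : mag X m (FreeGroup.of p) =
    (FreeGroup.of none)⁻¹ ^ p.2.val * FreeGroup.of (some p.1) * FreeGroup.of none ^ p.2.val := by
  rw [mag, FreeGroup.lift_apply_of]

section

variable (X : Type) (m : ℕ) (r₀ : FreeGroup (X × Fin (m + 1)))

/-- The base group. -/
abbrev Lg : Type := PresentedGroup ({r₀} : Set (FreeGroup (X × Fin (m + 1))))

/-- The large group. -/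
abbrev Gg : Type := PresentedGroup ({mag X m r₀} : Set (FreeGroup (Option X)))

theorem mk_rel_one {Y : Type*} (r : FreeGroup Y) :
    PresentedGroup.mk ({r} : Set (FreeGroup Y)) r = 1 :=
  (QuotientGroup.eq_one_iff r).mpr (Subgroup.subset_normalClosure rfl)

/-- The homomorphism from the base group. -/
def iotaHom : Lg X m r₀ →* Gg X m r₀ :=
  PresentedGroup.toGroup (f := fun p => PresentedGroup.mk ({mag X m r₀} : Set (FreeGroup (Option X)))
    (mag X m (FreeGroup.of p))) (by
    intro r hr
    rw [Set.mem_singleton_iff] at hr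
    subst hr
    have h : FreeGroup.lift (fun p => PresentedGroup.mk
        ({mag X m r} : Set (FreeGroup (Option X))) (mag X m (FreeGroup.of p))) =
        (PresentedGroup.mk ({mag X m r} : Set (FreeGroup (Option X)))).comp (mag X m) := by
      apply FreeGroup.ext_hom
      intro p
      rw [FreeGroup.lift_apply_of]
      rfl
    rw [h]
    exact mk_rel_one _)

theorem iotaHom_of (p : X × Fin (m + 1)) : iotaHom X m r₀ (PresentedGroup.of p) =
    (PresentedGroup.of none)⁻¹ ^ p.2.val * PresentedGroup.of (some p.1) *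
      PresentedGroup.of none ^ p.2.val := by
  rw [iotaHom, PresentedGroup.toGroup.of, mag_of, map_mul, map_mul, map_pow, map_pow, map_inv]
  rfl

/-- The structure of an extension of the base group. -/
noncomputable def hx : HX (Gg X m r₀) (Lg X m r₀) (FreeGroup (X × Fin m)) where
  ι := iotaHom X m r₀
  t := PresentedGroup.of none
  α := FreeGroup.lift fun p => PresentedGroup.of (p.1, p.2.castSucc)
  β := FreeGroup.lift fun p => PresentedGroup.of (p.1, p.2.succ)
  rel := by
    intro x
    have h : (iotaHom X m r₀).comp (FreeGroup.lift fun p : X × Fin m =>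
        (PresentedGroup.of (p.1, p.2.castSucc) : Lg X m r₀)) =
        ((MulAut.conj (PresentedGroup.of none : Gg X m r₀)).toMonoidHom.comp
          (iotaHom X m r₀)).comp (FreeGroup.lift fun p : X × Fin m =>
        (PresentedGroup.of (p.1, p.2.succ) : Lg X m r₀)) := by
      apply FreeGroup.ext_hom
      rintro ⟨x, j⟩
      simp only [MonoidHom.comp_apply, FreeGroup.lift_apply_of, MulEquiv.coe_toMonoidHom,
        MulAut.conj_apply]
      rw [iotaHom_of, iotaHom_of]
      simp only [Fin.val_castSucc, Fin.val_succ]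
      rw [pow_succ', pow_succ]
      group
    have h2 := DFunLike.congr_fun h x
    simp only [MonoidHom.comp_apply, MulEquiv.coe_toMonoidHom, MulAut.conj_apply] at h2
    rw [h2, inv_mul_cancel_right]
  gen := by
    intro S h1 h2
    rw [eq_top_iff, ← PresentedGroup.closure_range_of, Subgroup.closure_le]
    rintro _ ⟨o, rfl⟩
    cases o with
    | none => exact h2
    | some x =>
      have h3 := h1 (PresentedGroup.of (x, 0))
      rw [iotaHom_of] at h3
      simpa using h3
  univ := by
    intro P _ φ s hs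
    let f : Option X → P := fun o => o.elim s (fun x => φ (PresentedGroup.of (x, 0)))
    have hf : ∀ (x : X) (j : ℕ) (hj : j < m + 1), s⁻¹ ^ j * φ (PresentedGroup.of (x, 0)) * s ^ j =
        φ (PresentedGroup.of (x, ⟨j, hj⟩)) := by
      intro x j
      induction j with
      | zero =>
        intro hj
        simp
      | succ j ih =>
        intro hj
        have h1 := ih (by omega)
        have h2 := hs (FreeGroup.of (x, ⟨j, by omega⟩))
        rw [FreeGroup.lift_apply_of, FreeGroup.lift_apply_of] at h2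
        have h3 : φ (PresentedGroup.of (x, ⟨j + 1, hj⟩)) =
            s⁻¹ * (φ (PresentedGroup.of (x, ⟨j, by omega⟩)) * s) := by
          rw [eq_inv_mul_iff_mul_eq]
          exact h2.symm
        rw [h3, ← h1, pow_succ', pow_succ]
        group
    have hfl : (FreeGroup.lift f).comp (mag X m) =
        φ.comp (PresentedGroup.mk ({r₀} : Set (FreeGroup (X × Fin (m + 1))))) := by
      apply FreeGroup.ext_hom
      rintro ⟨x, j⟩
      rw [MonoidHom.comp_apply, MonoidHom.comp_apply, mag, FreeGroup.lift_apply_of, map_mul,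
        map_mul, map_pow, map_pow, map_inv, FreeGroup.lift_apply_of, FreeGroup.lift_apply_of]
      exact hf x j.val j.2
    have hrel : ∀ r ∈ ({mag X m r₀} : Set (FreeGroup (Option X))), FreeGroup.lift f r = 1 := by
      intro r hr
      rw [Set.mem_singleton_iff] at hr
      subst hr
      have h1 := DFunLike.congr_fun hfl r₀
      rw [MonoidHom.comp_apply, MonoidHom.comp_apply, mk_rel_one, map_one] at h1
      exact h1
    refine ⟨PresentedGroup.toGroup hrel, ?_, ?_⟩
    · have h1 : (PresentedGroup.toGroup hrel).comp (iotaHom X m r₀) = φ := by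
        apply PresentedGroup.ext
        rintro ⟨x, j⟩
        rw [MonoidHom.comp_apply, iotaHom_of, map_mul, map_mul, map_pow, map_pow, map_inv,
          PresentedGroup.toGroup.of, PresentedGroup.toGroup.of]
        exact hf x j.val j.2
      intro h
      exact DFunLike.congr_fun h1 h
    · exact PresentedGroup.toGroup.of hrel

open scoped Classical in
theorem edge [Finite X] (y z : X)
    (hy : Multiplicative.toAdd (expSum (y, Fin.last m) r₀) ≠ 0)
    (hz : Multiplicative.toAdd (expSum (z, (0 : Fin (m + 1))) r₀) ≠ 0)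
    (x : FreeGroup (X × Fin m)) (hx1 : (hx X m r₀).ι ((hx X m r₀).β x) ∈ fch (Gg X m r₀) 1) :
    x = 1 := by
  by_contra hne
  obtain ⟨B, hB⟩ := exists_pgroup x hne
  obtain ⟨p, hpge, hp⟩ := Nat.exists_infinite_primes (B +
    (Multiplicative.toAdd (expSum (y, Fin.last m) r₀)).natAbs +
    (Multiplicative.toAdd (expSum (z, (0 : Fin (m + 1))) r₀)).natAbs + 1)
  have hpf : Fact p.Prime := ⟨hp⟩
  obtain ⟨W, hWg, hWf, ψ, hW, hψ⟩ := hB p hp (by omega)
  have hndvd : ∀ c : ℤ, c ≠ 0 → c.natAbs < p → ¬ (p : ℤ) ∣ c := by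
    intro c hc hcp hdvd
    have h1 := Nat.le_of_dvd (Int.natAbs_pos.mpr hc) (Int.natCast_dvd.mp hdvd)
    omega
  have hu₁ := equation_unique (y, Fin.last m) r₀ p (hndvd _ hy (by omega)) W hW
  have hu₂ := equation_unique (z, (0 : Fin (m + 1))) r₀ p (hndvd _ hz (by omega)) W hW
  let i₁ : X × Fin m → X × Fin (m + 1) := fun q => (q.1, q.2.castSucc)
  let i₂ : X × Fin m → X × Fin (m + 1) := fun q => (q.1, q.2.succ)
  have hi₁ : Function.Injective i₁ := by
    rintro ⟨a, b⟩ ⟨a', b'⟩ h
    simpa [i₁] using h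
  have hi₂ : Function.Injective i₂ := by
    rintro ⟨a, b⟩ ⟨a', b'⟩ h
    simpa [i₂] using h
  have hy₁ : ∀ q, i₁ q ≠ (y, Fin.last m) := by
    rintro ⟨a, b⟩ h
    have h1 := congrArg (fun q : X × Fin (m + 1) => q.2.val) h
    simp only [i₁, Fin.val_castSucc, Fin.val_last] at h1
    have := b.2
    omega
  have hy₂ : ∀ q, i₂ q ≠ (z, (0 : Fin (m + 1))) := by
    rintro ⟨a, b⟩ h
    have h1 := congrArg (fun q : X × Fin (m + 1) => q.2.val) h
    simp [i₂] at h1
  obtain ⟨T, hT⟩ := exists_balanced r₀ (y, Fin.last m) (z, (0 : Fin (m + 1))) hu₁ hu₂ i₁ i₂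
    hi₁ hi₂ hy₁ hy₂
  let hat : Sol W r₀ → (Lg X m r₀ →* W) := fun ω => PresentedGroup.toGroup (f := ω.1) (by
    intro r hr
    rw [Set.mem_singleton_iff] at hr
    subst hr
    exact ω.2)
  have hhat : ∀ ω q, hat ω (PresentedGroup.of q) = ω.1 q := fun ω q =>
    PresentedGroup.toGroup.of _
  let φ : Lg X m r₀ →* Equiv.Perm (Sol W r₀ × W) :=
    { toFun := fun g =>
        { toFun := fun p => (p.1, hat p.1 g * p.2)
          invFun := fun p => (p.1, (hat p.1 g)⁻¹ * p.2)
          left_inv := by
            rintro ⟨ω, w⟩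
            simp
          right_inv := by
            rintro ⟨ω, w⟩
            simp }
      map_one' := by
        ext ⟨ω, w⟩ <;> simp
      map_mul' := by
        intro a b
        ext ⟨ω, w⟩ <;> simp [mul_assoc] }
  let τ : Equiv.Perm (Sol W r₀ × W) := Equiv.prodCongr T (Equiv.refl W)
  have hrel : ∀ a, φ ((hx X m r₀).α a) * τ = τ * φ ((hx X m r₀).β a) := by
    intro a
    have h1 : ∀ ω, (hat (T ω)).comp (hx X m r₀).α = (hat ω).comp (hx X m r₀).β := by
      intro ω
      apply FreeGroup.ext_hom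
      rintro ⟨b, j⟩
      have h2 := congrFun (hT ω) (b, j)
      simp only [MonoidHom.comp_apply, hx, FreeGroup.lift_apply_of]
      rw [hhat, hhat]
      exact h2
    ext ⟨ω, w⟩
    · rfl
    · change hat (T ω) ((hx X m r₀).α a) * w = hat ω ((hx X m r₀).β a) * w
      have h2 := DFunLike.congr_fun (h1 ω) a
      simp only [MonoidHom.comp_apply] at h2
      rw [h2]
  obtain ⟨Θ, hΘ, _⟩ := (hx X m r₀).univ _ φ τ hrel
  have hker : (hx X m r₀).ι ((hx X m r₀).β x) ∈ Θ.ker := by
    have h1 : (hx X m r₀).ι ((hx X m r₀).β x) ∈ fres (⊤ : Subgroup (Gg X m r₀)) := hx1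
    apply mem_fres.mp h1 Θ.ker le_top
    change Θ.ker.relIndex ⊤ ≠ 0
    rw [Subgroup.relIndex_top_right]
    have h2 : Θ.ker.FiniteIndex := Subgroup.finiteIndex_ker Θ
    exact h2.index_ne_zero
  rw [MonoidHom.mem_ker, hΘ] at hker
  let f : X × Fin (m + 1) → W := Function.extend i₂ (fun q => ψ (FreeGroup.of q)) 1
  obtain ⟨w, hw, _⟩ := hu₂ f
  let ω : Sol W r₀ := ⟨_, hw⟩
  have h1 : (hat ω).comp (hx X m r₀).β = ψ := by
    apply FreeGroup.ext_hom
    rintro ⟨b, j⟩
    simp only [MonoidHom.comp_apply, hx, FreeGroup.lift_apply_of]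
    rw [hhat]
    have h2 : ω.1 (i₂ (b, j)) = f (i₂ (b, j)) := by
      simp only [ω, Function.update]
      rw [dif_neg (hy₂ (b, j))]
    have h3 : f (i₂ (b, j)) = ψ (FreeGroup.of (b, j)) := hi₂.extend_apply _ _ _
    exact h2.trans h3
  have h2 := congrArg (fun e : Equiv.Perm (Sol W r₀ × W) => (e (ω, 1)).2) hker
  change hat ω ((hx X m r₀).β x) * 1 = 1 at h2
  rw [mul_one] at h2
  apply hψ
  rw [← h1]
  exact h2

end

end Pool.Agent.H88FR
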