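import Pool.Agent.H88FR.Embed

/-!
One-relator groups in whose relator all generators but one occur with exponents of one sign.
-/

namespace Pool.Agent.H88FR

open Pool.Agent.Helper68.FR

/-- The product of the elements `t⁻ᴺ x tᴺ`. -/
def pr {X : Type} (P : List (X × ℤ)) : FreeGroup (Option X) :=
  (P.map fun q => FreeGroup.of none ^ (-q.2) * FreeGroup.of (some q.1) *
    FreeGroup.of none ^ q.2).prod

theorem pr_cons {X : Type} (q : X × ℤ) (P : List (X × ℤ)) : pr (q :: P) =
    FreeGroup.of none ^ (-q.2) * FreeGroup.of (some q.1) * FreeGroup.of none ^ q.2 * pr P := by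
  simp [pr]

theorem pr_append {X : Type} (P P' : List (X × ℤ)) : pr (P ++ P') = pr P * pr P' := by
  simp [pr]

theorem shift {X : Type} (k : ℤ) (P : List (X × ℤ)) : FreeGroup.of none ^ k * pr P =
    pr (P.map fun q => (q.1, q.2 - k)) * FreeGroup.of none ^ k := by
  induction P with
  | nil => simp [pr]
  | cons q P ih =>
    rw [List.map_cons, pr_cons, pr_cons, mul_assoc _ (pr _) _, ← ih]
    simp only
    have h1 : (FreeGroup.of (none : Option X)) ^ (q.2 - k) =
        FreeGroup.of none ^ q.2 * (FreeGroup.of none ^ k)⁻¹ := by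
      rw [zpow_sub]
    have h2 : (FreeGroup.of (none : Option X)) ^ (-(q.2 - k)) =
        FreeGroup.of none ^ k * FreeGroup.of none ^ (-q.2) := by
      rw [← zpow_add]
      congr 1
      ring
    rw [h1, h2]
    group

theorem PF_mul {X : Type} (P P' : List (X × ℤ)) (k k' : ℤ) : ∃ P'' : List (X × ℤ),
    P''.map Prod.fst = P.map Prod.fst ++ P'.map Prod.fst ∧
    (pr P * FreeGroup.of none ^ k) * (pr P' * FreeGroup.of none ^ k') =
      pr P'' * FreeGroup.of none ^ (k + k') := by
  refine ⟨P ++ P'.map fun q => (q.1, q.2 - k), ?_, ?_⟩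
  · rw [List.map_append, List.map_map]
    rfl
  · rw [pr_append, mul_assoc (pr P), ← mul_assoc (FreeGroup.of none ^ k), shift, zpow_add]
    group

open scoped Classical in
theorem sub_pr {X : Type} (x : X) (a : ℕ) (b : ℤ) (P : List (X × ℤ)) : ∃ P'' : List (X × ℤ),
    P''.map Prod.fst = P.map Prod.fst ∧
    sub (Option X) none (some x) a b (pr P) =
      pr P'' * FreeGroup.of none ^ (-b * ((P.map Prod.fst).count x : ℤ)) := by
  have hnone : sub (Option X) none (some x) a b (FreeGroup.of none) = FreeGroup.of none ^ a := by
    rw [sub, FreeGroup.lift_apply_of, if_pos rfl]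
  induction P with
  | nil => exact ⟨[], rfl, by simp [pr]⟩
  | cons q P ih =>
    obtain ⟨P₁, h1, h2⟩ := ih
    obtain ⟨y, N⟩ := q
    have h3 : sub (Option X) none (some x) a b (FreeGroup.of none ^ (-N) *
        FreeGroup.of (some y) * FreeGroup.of none ^ N) =
        pr [(y, (a : ℤ) * N)] * FreeGroup.of none ^ (if y = x then -b else 0) := by
      rw [map_mul, map_mul, map_zpow, map_zpow, hnone, sub, FreeGroup.lift_apply_of,
        if_neg (by simp)]
      by_cases hyx : y = x
      · subst hyx
        rw [if_pos rfl, if_pos rfl]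
        simp only [pr, List.map_cons, List.map_nil, List.prod_cons, List.prod_nil, mul_one]
        rw [← zpow_natCast, ← zpow_mul, ← zpow_mul]
        have h4 : (a : ℤ) * -N = -((a : ℤ) * N) := by ring
        rw [h4]
        simp only [mul_assoc]
        rw [← zpow_add, ← zpow_add, add_comm (-b)]
      · rw [if_neg (by simpa using hyx), if_neg hyx, zpow_zero, mul_one]
        simp only [pr, List.map_cons, List.map_nil, List.prod_cons, List.prod_nil, mul_one]
        rw [← zpow_natCast, ← zpow_mul, ← zpow_mul]
        have h4 : (a : ℤ) * -N = -((a : ℤ) * N) := by ring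
        rw [h4]
    obtain ⟨P₂, h5, h6⟩ := PF_mul [(y, (a : ℤ) * N)] P₁ (if y = x then -b else 0)
      (-b * ((P.map Prod.fst).count x : ℤ))
    refine ⟨P₂, ?_, ?_⟩
    · rw [h5, h1]
      rfl
    · rw [pr_cons, map_mul, h3, h2, h6]
      congr 2
      rw [List.map_cons, List.count_cons]
      by_cases hyx : y = x
      · subst hyx
        simp
        ring
      · simp [hyx]

/-- The product of the letters of a list. -/
def wd {Y : Type} (s : List Y) : FreeGroup Y := (s.map FreeGroup.of).prod

open scoped Classical in
theorem expSum_wd {Y : Type} (y : Y) (s : List Y) :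
    Multiplicative.toAdd (expSum y (wd s)) = (s.count y : ℤ) := by
  induction s with
  | nil => simp [wd]
  | cons c s ih =>
    have h1 : wd (c :: s) = FreeGroup.of c * wd s := by simp [wd]
    rw [h1, map_mul, toAdd_mul, ih, expSum, FreeGroup.lift_apply_of, toAdd_ofAdd, List.count_cons]
    by_cases h : c = y
    · simp [h, add_comm]
    · simp [h]

theorem expSum_wd_ne {Y : Type} (y : Y) (s : List Y) (h : y ∈ s) :
    Multiplicative.toAdd (expSum y (wd s)) ≠ 0 := by
  classical
  have h1 := expSum_wd y s
  rw [h1]
  intro h2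
  have h3 := Int.natCast_eq_zero.mp h2
  exact (List.count_pos_iff.mpr h).ne' h3

theorem exists_norm {X : Type} (P : List (X × ℤ)) (hP : P ≠ []) :
    ∃ (μ : ℤ) (M : ℕ) (s₀ : List (X × Fin (M + 1))), s₀.length = P.length ∧
      (∃ y, (y, Fin.last M) ∈ s₀) ∧ (∃ z, (z, (0 : Fin (M + 1))) ∈ s₀) ∧
      mag X M (wd s₀) = FreeGroup.of none ^ μ * pr P * (FreeGroup.of none ^ μ)⁻¹ := by
  classical
  let S : Finset ℤ := (P.map Prod.snd).toFinset
  have hS : S.Nonempty := by
    obtain ⟨q, hq⟩ := List.exists_mem_of_ne_nil P hP
    exact ⟨q.2, List.mem_toFinset.mpr (List.mem_map.mpr ⟨q, hq, rfl⟩)⟩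
  let μ := S.min' hS
  let ν := S.max' hS
  have hμ : ∃ q ∈ P, q.2 = μ := by
    have h := S.min'_mem hS
    obtain ⟨q, hq, h1⟩ := List.mem_map.mp (List.mem_toFinset.mp h)
    exact ⟨q, hq, h1⟩
  have hν : ∃ q ∈ P, q.2 = ν := by
    have h := S.max'_mem hS
    obtain ⟨q, hq, h1⟩ := List.mem_map.mp (List.mem_toFinset.mp h)
    exact ⟨q, hq, h1⟩
  have hle : ∀ q ∈ P, μ ≤ q.2 ∧ q.2 ≤ ν := by
    intro q hq
    have h : q.2 ∈ S := List.mem_toFinset.mpr (List.mem_map.mpr ⟨q, hq, rfl⟩)
    exact ⟨S.min'_le _ h, S.le_max' _ h⟩
  let M := (ν - μ).toNat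
  let F : X × ℤ → X × Fin (M + 1) := fun q => (q.1, ⟨min (q.2 - μ).toNat M, by omega⟩)
  refine ⟨μ, M, P.map F, by simp, ?_, ?_, ?_⟩
  · obtain ⟨q, hq, h1⟩ := hν
    refine ⟨q.1, List.mem_map.mpr ⟨q, hq, ?_⟩⟩
    refine Prod.ext rfl (Fin.ext ?_)
    simp only [F, h1, Fin.val_last]
    exact min_self M
  · obtain ⟨q, hq, h1⟩ := hμ
    refine ⟨q.1, List.mem_map.mpr ⟨q, hq, ?_⟩⟩
    refine Prod.ext rfl (Fin.ext ?_)
    simp [F, h1]
  · rw [shift, mul_inv_cancel_right, wd, map_list_prod, pr, List.map_map, List.map_map,
      List.map_map]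
    congr 1
    apply List.map_congr_left
    intro q hq
    obtain ⟨h1, h2⟩ := hle q hq
    have h3 : (((F q).2.val : ℕ) : ℤ) = q.2 - μ := by
      simp only [F, M]
      have h4 : (q.2 - μ).toNat ≤ (ν - μ).toNat := by omega
      rw [min_eq_left h4]
      omega
    simp only [Function.comp_apply]
    rw [mag_of, inv_pow, ← zpow_natCast, h3, ← zpow_neg]

theorem step {X : Type} [Finite X] (P : List (X × ℤ)) (hP : P ≠ []) (k : ℤ)
    (N : ℕ) (hN1 : 1 ≤ N)
    (ih : ∀ (M : ℕ) (s₀ : List (X × Fin (M + 1))), s₀.length = P.length →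
      fch (PresentedGroup ({wd s₀} : Set (FreeGroup (X × Fin (M + 1))))) N = ⊥) :
    fch (PresentedGroup ({pr P * FreeGroup.of none ^ k} : Set (FreeGroup (Option X)))) (N + 1) =
      ⊥ := by
  classical
  match P, hP, ih with
  | (x, N₀) :: P', hP, ih =>
    set P := (x, N₀) :: P' with hPdef
    let a := (P.map Prod.fst).count x
    have ha : 1 ≤ a := by
      simp only [a, hPdef, List.map_cons, List.count_cons_self]
      omega
    obtain ⟨j₁, hj₁⟩ := sub_embedding (Option X) none (some x) (by simp) a ha k
      (pr P * FreeGroup.of none ^ k)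
    obtain ⟨P'', hfst, hsub⟩ := sub_pr x a k P
    have h1 : sub (Option X) none (some x) a k (pr P * FreeGroup.of none ^ k) = pr P'' := by
      rw [map_mul, hsub, map_zpow]
      have hnone : sub (Option X) none (some x) a k (FreeGroup.of none) =
          FreeGroup.of none ^ a := by
        rw [sub, FreeGroup.lift_apply_of, if_pos rfl]
      rw [hnone, ← zpow_natCast, ← zpow_mul, mul_assoc, ← zpow_add]
      have h2 : -k * ((P.map Prod.fst).count x : ℤ) + (a : ℤ) * k = 0 := by
        simp only [a]
        ring
      rw [h2, zpow_zero, mul_one]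
    have hlen : P''.length = P.length := by
      have h2 := congrArg List.length hfst
      rwa [List.length_map, List.length_map] at h2
    have hP'' : P'' ≠ [] := by
      intro h2
      rw [h2] at hlen
      simp [hPdef] at hlen
    obtain ⟨μ, M, s₀, hs1, ⟨y, hy⟩, ⟨z, hz⟩, hs4⟩ := exists_norm P'' hP''
    obtain ⟨j₂, hj₂⟩ := conj_embedding (pr P'') (FreeGroup.of none ^ μ)
    have hN := ih M s₀ (hs1.trans hlen)
    have hys := expSum_wd_ne _ s₀ hy
    have hzs := expSum_wd_ne _ s₀ hz
    have h3 := (hx X M (wd s₀)).fch_bot (edge X M (wd s₀) y z hys hzs) hN1 hN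
    refine fch_eq_bot_of_injective j₁ hj₁ _ ?_
    rw [h1]
    refine fch_eq_bot_of_injective j₂ hj₂ _ ?_
    rw [← hs4]
    exact h3

section front

variable (Y : Type) (t : Y) (ε : Y → Bool)

open scoped Classical in
/-- Change of notation: the generator `t` becomes `none`, the others are inverted if `ε` is
false. -/
noncomputable def fr : FreeGroup Y →* FreeGroup (Option {y : Y // y ≠ t}) :=
  FreeGroup.lift fun y => if h : y = t then FreeGroup.of none
    else if ε y then FreeGroup.of (some ⟨y, h⟩) else (FreeGroup.of (some ⟨y, h⟩))⁻¹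

theorem fr_t : fr Y t ε (FreeGroup.of t) = FreeGroup.of none := by
  rw [fr, FreeGroup.lift_apply_of, dif_pos rfl]

theorem fr_ne (y : Y) (h : y ≠ t) : fr Y t ε (FreeGroup.of y) =
    if ε y then FreeGroup.of (some ⟨y, h⟩) else (FreeGroup.of (some ⟨y, h⟩))⁻¹ := by
  rw [fr, FreeGroup.lift_apply_of, dif_neg h]

theorem fr_embedding (r : FreeGroup Y) :
    ∃ j : PresentedGroup ({r} : Set (FreeGroup Y)) →*
      PresentedGroup ({fr Y t ε r} : Set (FreeGroup (Option {y : Y // y ≠ t}))),
      Function.Injective j := by
  classical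
  apply exists_embedding (fr Y t ε) r (FreeGroup.lift fun o => o.elim
    (PresentedGroup.of t : PresentedGroup ({r} : Set (FreeGroup Y)))
    (fun y => if ε y.1 then PresentedGroup.of y.1 else (PresentedGroup.of y.1)⁻¹))
    (MonoidHom.id _) Function.injective_id
  intro y
  by_cases h : y = t
  · subst h
    rw [fr_t, FreeGroup.lift_apply_of]
    rfl
  · rw [fr_ne Y t ε y h]
    cases hε : ε y with
    | true =>
      rw [if_pos rfl, FreeGroup.lift_apply_of]
      simp [hε]
    | false =>
      rw [if_neg (by simp), map_inv, FreeGroup.lift_apply_of]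
      simp [hε]

open scoped Classical in
theorem exists_front (L : List (Y × Bool)) : (∀ p ∈ L, p.1 ≠ t → p.2 = ε p.1) →
    ∃ (P : List ({y : Y // y ≠ t} × ℤ)) (k : ℤ),
      P.length = (L.filter fun p => p.1 ≠ t).length ∧
      fr Y t ε (FreeGroup.mk L) = pr P * FreeGroup.of none ^ k := by
  induction L with
  | nil =>
    intro _
    refine ⟨[], 0, rfl, ?_⟩
    have : FreeGroup.mk ([] : List (Y × Bool)) = 1 := rfl
    rw [this, map_one]
    simp [pr]
  | cons c L ih =>
    intro hL
    obtain ⟨P, k, h1, h2⟩ := ih (fun p hp => hL p (List.mem_cons_of_mem _ hp))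
    obtain ⟨y, b⟩ := c
    have h3 : FreeGroup.mk ((y, b) :: L) = FreeGroup.mk [(y, b)] * FreeGroup.mk L := rfl
    by_cases hy : y = t
    · subst hy
      have h4 : fr Y y ε (FreeGroup.mk [(y, b)]) =
          pr [] * FreeGroup.of none ^ (if b then (1 : ℤ) else -1) := by
        cases b with
        | true =>
          have : FreeGroup.mk [(y, true)] = FreeGroup.of y := rfl
          rw [this, fr_t]
          simp [pr]
        | false =>
          have : FreeGroup.mk [(y, false)] = (FreeGroup.of y)⁻¹ := rfl
          rw [this, map_inv, fr_t]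
          simp [pr]
      obtain ⟨P'', h5, h6⟩ := PF_mul [] P (if b then (1 : ℤ) else -1) k
      refine ⟨P'', _, ?_, by rw [h3, map_mul, h4, h2, h6]⟩
      have h7 := congrArg List.length h5
      simp only [List.length_map, List.length_append, List.length_nil, List.map_nil,
        zero_add] at h7
      rw [h7, h1, List.filter_cons_of_neg (by simp)]
    · have hb : b = ε y := hL (y, b) List.mem_cons_self hy
      have h4 : fr Y t ε (FreeGroup.mk [(y, b)]) =
          pr [(⟨y, hy⟩, 0)] * FreeGroup.of none ^ (0 : ℤ) := by
        cases b with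
        | true =>
          have : FreeGroup.mk [(y, true)] = FreeGroup.of y := rfl
          rw [this, fr_ne Y t ε y hy, ← hb]
          simp [pr]
        | false =>
          have : FreeGroup.mk [(y, false)] = (FreeGroup.of y)⁻¹ := rfl
          rw [this, map_inv, fr_ne Y t ε y hy, ← hb]
          simp [pr]
      obtain ⟨P'', h5, h6⟩ := PF_mul [(⟨y, hy⟩, 0)] P 0 k
      refine ⟨P'', _, ?_, by rw [h3, map_mul, h4, h2, h6]⟩
      have h7 := congrArg List.length h5
      simp only [List.length_map, List.length_append, List.map_cons, List.map_nil,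
        List.length_cons, List.length_nil, zero_add] at h7
      rw [h7, h1, List.filter_cons_of_pos (by simpa using hy), List.length_cons, add_comm]

end front

theorem zpow_bot (c : ℕ) : ∀ (Y : Type) [Finite Y] (t : Y) (k : ℤ), Nat.card Y = c →
    fch (PresentedGroup ({FreeGroup.of t ^ k} : Set (FreeGroup Y))) 1 = ⊥ := by
  classical
  induction c using Nat.strong_induction_on with
  | _ c ih =>
    intro Y _ t k hc
    by_cases hk : k = 0
    · subst hk
      rw [zpow_zero]
      exact one_bot Y
    by_cases hY : ∀ y, y = t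
    · have := cyclic_finite Y t hY k hk
      exact finite_bot _
    push Not at hY
    obtain ⟨y, hy⟩ := hY
    let X := {x : Y // x ≠ y}
    let t' : X := ⟨t, hy.symm⟩
    have hcard : Nat.card (X × Fin 1) < c := by
      rw [Nat.card_prod, Nat.card_eq_fintype_card (α := Fin 1), Fintype.card_fin, mul_one, ← hc]
      apply Finite.card_subtype_lt (x := y)
      simp
    have hN := ih _ hcard (X × Fin 1) (t', 0) k rfl
    obtain ⟨j, hj⟩ := fr_embedding Y y (fun _ => true) (FreeGroup.of t ^ k)
    have h1 : fr Y y (fun _ => true) (FreeGroup.of t ^ k) =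
        mag X 0 (FreeGroup.of (t', 0) ^ k) := by
      rw [map_zpow, map_zpow, fr_ne Y y _ t hy.symm, mag_of]
      simp [t']
    refine fch_eq_bot_of_injective j hj _ ?_
    rw [h1]
    refine (hx X 0 (FreeGroup.of (t', 0) ^ k)).fch_one_bot (fun x => ?_) hN
    have hemp : IsEmpty (X × Fin 0) := inferInstance
    exact Subsingleton.elim x 1

open scoped Classical in
theorem pos_bot (n : ℕ) : ∀ (Y : Type) [Finite Y] (L : List (Y × Bool)) (t : Y) (ε : Y → Bool),
    (∀ p ∈ L, p.1 ≠ t → p.2 = ε p.1) → (L.filter fun p => p.1 ≠ t).length = n →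
    fch (PresentedGroup ({FreeGroup.mk L} : Set (FreeGroup Y))) (n + 1) = ⊥ := by
  induction n using Nat.strong_induction_on with
  | _ n ih =>
    intro Y _ L t ε hL hn
    obtain ⟨P, k, h1, h2⟩ := exists_front Y t ε L hL
    by_cases hP : P = []
    · -- only the letter `t` occurs
      have h3 : FreeGroup.mk L = FreeGroup.of t ^ k := by
        obtain ⟨j, hj⟩ := fr_embedding Y t ε 1
        have hinj : Function.Injective (fr Y t ε) := by
          let Ψ : FreeGroup (Option {y : Y // y ≠ t}) →* FreeGroup Y :=
            FreeGroup.lift fun o => o.elim (FreeGroup.of t)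
              (fun y => if ε y.1 then FreeGroup.of y.1 else (FreeGroup.of y.1)⁻¹)
          have h4 : Ψ.comp (fr Y t ε) = MonoidHom.id _ := by
            apply FreeGroup.ext_hom
            intro y
            rw [MonoidHom.comp_apply]
            by_cases h : y = t
            · subst h
              rw [fr_t]
              simp only [Ψ]
              rw [FreeGroup.lift_apply_of]
              rfl
            · rw [fr_ne Y t ε y h]
              simp only [Ψ]
              cases hε : ε y with
              | true =>
                rw [if_pos rfl, FreeGroup.lift_apply_of]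
                simp [hε]
              | false =>
                rw [if_neg (by simp), map_inv, FreeGroup.lift_apply_of]
                simp [hε]
          intro u v huv
          have h5 := congrArg Ψ huv
          rw [← MonoidHom.comp_apply, ← MonoidHom.comp_apply, h4] at h5
          exact h5
        apply hinj
        rw [h2, map_zpow, fr_t, hP]
        simp [pr]
      rw [h3, eq_bot_iff, ← zpow_bot _ Y t k rfl]
      exact fch_anti _ (by omega)
    · obtain ⟨j, hj⟩ := fr_embedding Y t ε (FreeGroup.mk L)
      have hn1 : 1 ≤ n := by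
        rw [← hn, ← h1]
        exact List.length_pos_of_ne_nil hP
      have h3 := step P hP k n hn1 (by
        intro M s₀ hs₀
        have hlen : s₀.length = n := by rw [hs₀, h1, hn]
        have hne : s₀ ≠ [] := by
          intro h4
          rw [h4] at hs₀
          simp only [List.length_nil] at hs₀
          exact hP (List.length_eq_zero_iff.mp hs₀.symm)
        match s₀, hlen, hne with
        | c :: s₁, hlen, _ =>
          have h5 : wd (c :: s₁) = FreeGroup.mk ((c :: s₁).map fun y => (y, true)) := by
            have h6 : ∀ s : List ({y : Y // y ≠ t} × Fin (M + 1)),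
                wd s = FreeGroup.mk (s.map fun y => (y, true)) := by
              intro s
              induction s with
              | nil => rfl
              | cons d s ih' =>
                have h7 : wd (d :: s) = FreeGroup.of d * wd s := by simp [wd]
                rw [h7, ih']
                rfl
            exact h6 _
          rw [h5]
          have key : ∀ n', n' < n → fch (PresentedGroup ({FreeGroup.mk ((c :: s₁).map fun y =>
              (y, true))} : Set (FreeGroup ({y : Y // y ≠ t} × Fin (M + 1))))) (n' + 1) = ⊥ →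
              fch (PresentedGroup ({FreeGroup.mk ((c :: s₁).map fun y =>
              (y, true))} : Set (FreeGroup ({y : Y // y ≠ t} × Fin (M + 1))))) n = ⊥ := by
            intro n' hn' h6
            rw [eq_bot_iff, ← h6]
            exact fch_anti _ (by omega)
          have hsign : ∀ p ∈ ((c :: s₁).map fun y => (y, true)), p.1 ≠ c →
              p.2 = (fun _ => true : {y : Y // y ≠ t} × Fin (M + 1) → Bool) p.1 := by
            intro p hp _
            obtain ⟨y, _, rfl⟩ := List.mem_map.mp hp
            rfl
          refine (fun hlt => key _ hlt (ih _ hlt ({y : Y // y ≠ t} × Fin (M + 1)) _ c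
            (fun _ => true) hsign rfl)) ?_
          rw [List.map_cons, List.filter_cons_of_neg (by simp)]
          calc _ ≤ (s₁.map fun y => (y, true)).length := List.length_filter_le _ _
            _ = s₁.length := List.length_map _
            _ < n := by
              rw [← hlen, List.length_cons]
              omega)
      refine fch_eq_bot_of_injective j hj _ ?_
      rw [h2]
      exact h3

end Pool.Agent.H88FR
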