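import Pool.Agent.H88FR.Embed

/-!
The chains of iterated finite residuals of a one-relator group and of the one-relator group obtained
by adjoining a root of a generator.
-/

namespace Pool.Agent.H88FR

open Pool.Agent.Helper68.FR

theorem retract_fch {R H : Type*} [Group R] [Group H] (i : R →* H) (π : H →* R)
    (h : ∀ x, π (i x) = x) (j : ℕ) : (fch H j).comap i = fch R j := by
  apply le_antisymm
  · intro x hx
    have h1 := fch_le_comap π j (Subgroup.mem_comap.mp hx)
    rw [Subgroup.mem_comap, h] at h1
    exact h1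
  · exact fch_le_comap i j

theorem zpow_ofAdd {P : Type*} [Group P] (f : Multiplicative ℤ →* P) (x : Multiplicative ℤ) :
    f x = f (Multiplicative.ofAdd 1) ^ (Multiplicative.toAdd x) := by
  rw [← map_zpow, ← ofAdd_zsmul, smul_eq_mul, mul_one, ofAdd_toAdd]

theorem int_bot : fch (Multiplicative ℤ) 1 = ⊥ := by
  rw [eq_bot_iff]
  intro x hx
  rw [Subgroup.mem_bot]
  by_contra hne
  have h0 : Multiplicative.toAdd x ≠ 0 := by
    intro h
    apply hne
    rw [← ofAdd_toAdd x, h]
    rfl
  set n := (Multiplicative.toAdd x).natAbs + 1 with hn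
  have hn0 : NeZero n := ⟨by omega⟩
  let f : Multiplicative ℤ →* Multiplicative (ZMod n) :=
    AddMonoidHom.toMultiplicative (Int.castAddHom (ZMod n))
  have h1 := fch_le_comap f 1 hx
  have h2 : Finite (Multiplicative (ZMod n)) := inferInstanceAs (Finite (ZMod n))
  rw [Subgroup.mem_comap, finite_bot, Subgroup.mem_bot] at h1
  have h3 : ((Multiplicative.toAdd x : ℤ) : ZMod n) = 0 := h1
  rw [ZMod.intCast_zmod_eq_zero_iff_dvd] at h3
  have h4 := Nat.le_of_dvd (Int.natAbs_pos.mpr h0) (Int.natCast_dvd.mp h3)
  omega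

/-- The free product of `G` and an infinite cyclic group. -/
abbrev FP1 (G : Type) [Group G] : Type := Monoid.Coprod G (Multiplicative ℤ)

/-- The free generator of the infinite cyclic factor. -/
def sG (G : Type) [Group G] : FP1 G := Monoid.Coprod.inr (Multiplicative.ofAdd 1)

theorem FP1_gen {G : Type} [Group G] (S : Subgroup (FP1 G)) (h1 : ∀ g, Monoid.Coprod.inl g ∈ S)
    (h2 : sG G ∈ S) : S = ⊤ := by
  rw [eq_top_iff]
  intro x _
  induction x using Monoid.Coprod.induction_on with
  | inl g => exact h1 g
  | inr n =>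
    rw [zpow_ofAdd (Monoid.Coprod.inr : Multiplicative ℤ →* FP1 G) n]
    exact S.zpow_mem h2 _
  | mul x y hx hy => exact S.mul_mem (hx trivial) (hy trivial)

/-- The free product as an extension of `G` with trivial associated group. -/
def hxFP (G : Type) [Group G] : HX (FP1 G) G PUnit.{1} where
  ι := Monoid.Coprod.inl
  t := sG G
  α := 1
  β := 1
  rel := by
    intro x
    simp
  gen := fun S h1 h2 => FP1_gen S h1 h2
  univ := by
    intro P _ φ s _
    refine ⟨Monoid.Coprod.lift φ (zpowersHom P s), fun h => Monoid.Coprod.lift_apply_inl _ _ _, ?_⟩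
    change Monoid.Coprod.lift φ (zpowersHom P s) (Monoid.Coprod.inr _) = s
    rw [Monoid.Coprod.lift_apply_inr, zpowersHom_apply]
    simp

section construct

variable (L A : Type) [Group L] [Group A] (α β : A →* L)

/-- The relators of the HNN type group. -/
def hnnRel : Set (FP1 L) :=
  Set.range fun x : A => Monoid.Coprod.inl (α x) * sG L * (Monoid.Coprod.inl (β x))⁻¹ * (sG L)⁻¹

/-- The group generated by `L` and an element `t` with `α x * t = t * β x`. -/
abbrev HnnG : Type := FP1 L ⧸ Subgroup.normalClosure (hnnRel L A α β)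

/-- The structure on this group. -/
def hxHnn : HX (HnnG L A α β) L A where
  ι := (QuotientGroup.mk' _).comp Monoid.Coprod.inl
  t := QuotientGroup.mk' _ (sG L)
  α := α
  β := β
  rel := by
    intro x
    have h : QuotientGroup.mk' (Subgroup.normalClosure (hnnRel L A α β))
        (Monoid.Coprod.inl (α x) * sG L * (Monoid.Coprod.inl (β x))⁻¹ * (sG L)⁻¹) = 1 :=
      (QuotientGroup.eq_one_iff _).mpr (Subgroup.subset_normalClosure ⟨x, rfl⟩)
    rw [map_mul, map_mul, map_mul, map_inv, map_inv, mul_inv_eq_one, mul_inv_eq_iff_eq_mul] at h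
    exact h
  gen := by
    intro S h1 h2
    have h3 : S.comap (QuotientGroup.mk' (Subgroup.normalClosure (hnnRel L A α β))) = ⊤ :=
      FP1_gen _ (fun g => h1 g) h2
    rw [eq_top_iff]
    intro x _
    obtain ⟨g, rfl⟩ := QuotientGroup.mk'_surjective _ x
    have h4 : g ∈ S.comap (QuotientGroup.mk' (Subgroup.normalClosure (hnnRel L A α β))) := by
      rw [h3]
      exact Subgroup.mem_top g
    exact h4
  univ := by
    intro P _ φ s hs
    let Θ : FP1 L →* P := Monoid.Coprod.lift φ (zpowersHom P s)
    have hΘs : Θ (sG L) = s := by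
      change Monoid.Coprod.lift φ (zpowersHom P s) (Monoid.Coprod.inr _) = s
      rw [Monoid.Coprod.lift_apply_inr, zpowersHom_apply]
      simp
    have hΘi : ∀ l, Θ (Monoid.Coprod.inl l) = φ l := fun l => Monoid.Coprod.lift_apply_inl _ _ _
    have hker : Subgroup.normalClosure (hnnRel L A α β) ≤ Θ.ker := by
      apply Subgroup.normalClosure_le_normal
      rintro _ ⟨x, rfl⟩
      change Θ (Monoid.Coprod.inl (α x) * sG L * (Monoid.Coprod.inl (β x))⁻¹ * (sG L)⁻¹) = 1
      rw [map_mul, map_mul, map_mul, map_inv, map_inv, hΘs, hΘi, hΘi, hs]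
      group
    exact ⟨QuotientGroup.lift _ Θ hker, fun h => hΘi h, hΘs⟩

end construct

section

variable {G L A : Type} [Group G] [Group L] [Group A] (X : HX G L A)

include X in
/-- If the associated group is trivial, then the chains become constant at the same step. -/
theorem HX.stab_free (hA : ∀ x : A, x = 1) {n : ℕ} (hn : 1 ≤ n)
    (h : fch L n = fch L (n + 1)) : fch G n = fch G (n + 1) := by
  have hcomap : ∀ j, (fch G j).comap X.ι = fch L j := by
    intro j
    induction j with
    | zero => rfl
    | succ j ih =>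
      apply le_antisymm
      · have h1 := X.comap_fres_le (fch G j) (fun x _ => hA x)
        rw [ih] at h1
        exact h1
      · exact fch_le_comap X.ι (j + 1)
  obtain ⟨j, rfl⟩ := Nat.exists_eq_add_of_le' hn
  set P := fch L (j + 1) with hP
  have hPn : P.Normal := fch_normal L (j + 1)
  let N := Subgroup.normalClosure (X.ι '' (P : Set L))
  have hNle : ∀ i, N ≤ fch G i := by
    intro i
    apply Subgroup.normalClosure_le_normal
    rintro _ ⟨x, hx, rfl⟩
    have h1 : fch L (j + 1 + i) = P := fch_const L h (by omega)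
    have h2 : x ∈ fch L (j + 1 + i) := by
      rw [h1]
      exact hx
    exact fch_anti G (by omega) (fch_le_comap X.ι (j + 1 + i) h2)
  let mk : G →* G ⧸ N := QuotientGroup.mk' N
  have hmk : Function.Surjective mk := QuotientGroup.mk'_surjective N
  let K' : Subgroup (G ⧸ N) := (fch G j).map mk
  have hK'n : K'.Normal := (fch_normal G j).map mk hmk
  have hker : mk.ker = N := QuotientGroup.ker_mk' N
  have hcm : K'.comap mk = fch G j := by
    apply Subgroup.comap_map_eq_self
    rw [hker]
    exact hNle _
  have h1 : fres K' = ⊥ := by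
    apply (X.quot P).fres_eq_bot' K' (fun x _ => hA x)
    have h3 : K'.comap (X.quot P).ι = ((fch G j).comap X.ι).map (QuotientGroup.mk' P) := by
      ext l
      obtain ⟨l, rfl⟩ := QuotientGroup.mk'_surjective _ l
      constructor
      · intro h4
        have h5 : mk (X.ι l) ∈ K' := h4
        rw [← Subgroup.mem_comap, hcm] at h5
        exact ⟨l, h5, rfl⟩
      · rintro ⟨l', hl', hll'⟩
        rw [← hll']
        exact ⟨X.ι l', hl', rfl⟩
    rw [h3, hcomap]
    exact fres_map_bot _ P rfl
  have h2 : fch G (j + 1) ≤ N := by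
    intro x hx
    have h3 := fres_le_comap mk (fch G j) K' (by rw [hcm]) hx
    rw [h1, Subgroup.mem_comap, Subgroup.mem_bot] at h3
    rw [← hker]
    exact h3
  exact le_antisymm (h2.trans (hNle _)) (fch_succ_le G _)

end

section root

variable (Y : Type) (t x : Y) (hxt : x ≠ t) (a : ℕ) (ha : 1 ≤ a) (b : ℤ) (r : FreeGroup Y)

theorem sub_t : sub Y t x a b (FreeGroup.of t) = FreeGroup.of t ^ a := by
  rw [sub, FreeGroup.lift_apply_of, if_pos rfl]

include hxt in
theorem sub_x : sub Y t x a b (FreeGroup.of x) = FreeGroup.of x * FreeGroup.of t ^ (-b) := by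
  rw [sub, FreeGroup.lift_apply_of, if_neg hxt, if_pos rfl]

theorem sub_y (y : Y) (h1 : y ≠ t) (h2 : y ≠ x) :
    sub Y t x a b (FreeGroup.of y) = FreeGroup.of y := by
  rw [sub, FreeGroup.lift_apply_of, if_neg h1, if_neg h2]

include hxt ha in
/-- The chains of `⟨Y; r⟩` and of `⟨Y; r (t ^ a, x t ^ (- b))⟩`. -/
theorem root_stab (χ : FreeGroup Y →* Multiplicative ℤ) (hχr : χ r = 1)
    (hχt : χ (FreeGroup.of t) ≠ 1) :
    (∀ n, 1 ≤ n → fch (PresentedGroup ({r} : Set (FreeGroup Y))) n =
        fch (PresentedGroup ({r} : Set (FreeGroup Y))) (n + 1) →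
      fch (PresentedGroup ({sub Y t x a b r} : Set (FreeGroup Y))) (n + 1) =
        fch (PresentedGroup ({sub Y t x a b r} : Set (FreeGroup Y))) (n + 2)) ∧
    (∀ n, fch (PresentedGroup ({sub Y t x a b r} : Set (FreeGroup Y))) n =
        fch (PresentedGroup ({sub Y t x a b r} : Set (FreeGroup Y))) (n + 1) →
      fch (PresentedGroup ({r} : Set (FreeGroup Y))) n =
        fch (PresentedGroup ({r} : Set (FreeGroup Y))) (n + 1)) := by
  classical
  let G := PresentedGroup ({r} : Set (FreeGroup Y))
  let G' := PresentedGroup ({sub Y t x a b r} : Set (FreeGroup Y))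
  let L := FP1 G
  let tG : G := PresentedGroup.of t
  let α : Multiplicative ℤ →* L := zpowersHom L (Monoid.Coprod.inl tG)
  let β : Multiplicative ℤ →* L := zpowersHom L (sG G ^ a)
  let H := HnnG L (Multiplicative ℤ) α β
  let X : HX H L (Multiplicative ℤ) := hxHnn L (Multiplicative ℤ) α β
  -- the map `G → G'`
  have hj : ∀ s ∈ ({r} : Set (FreeGroup Y)), FreeGroup.lift (fun y =>
      PresentedGroup.mk ({sub Y t x a b r} : Set (FreeGroup Y)) (sub Y t x a b (FreeGroup.of y))) s
      = 1 := by
    intro s hs
    rw [Set.mem_singleton_iff] at hs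
    subst hs
    have h1 : FreeGroup.lift (fun y => PresentedGroup.mk
        ({sub Y t x a b s} : Set (FreeGroup Y)) (sub Y t x a b (FreeGroup.of y))) =
        (PresentedGroup.mk ({sub Y t x a b s} : Set (FreeGroup Y))).comp (sub Y t x a b) := by
      apply FreeGroup.ext_hom
      intro y
      rw [FreeGroup.lift_apply_of]
      rfl
    rw [h1]
    exact mk_rel_one _
  let j : G →* G' := PresentedGroup.toGroup hj
  have hjof : ∀ y, j (PresentedGroup.of y) = PresentedGroup.mk _ (sub Y t x a b (FreeGroup.of y)) :=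
    fun y => PresentedGroup.toGroup.of hj
  -- the map `H → G'`
  let φ : L →* G' := Monoid.Coprod.lift j (zpowersHom G' (PresentedGroup.of t))
  have hφs : φ (sG G) = PresentedGroup.of t := by
    change Monoid.Coprod.lift j (zpowersHom G' (PresentedGroup.of t)) (Monoid.Coprod.inr _) = _
    rw [Monoid.Coprod.lift_apply_inr, zpowersHom_apply]
    simp
  have hφi : ∀ g, φ (Monoid.Coprod.inl g) = j g := fun g => Monoid.Coprod.lift_apply_inl _ _ _
  have hφαβ : ∀ z, φ (α z) = φ (β z) := by
    intro z
    have h1 : φ.comp α = φ.comp β := by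
      apply MonoidHom.ext_mint
      simp only [MonoidHom.comp_apply, α, β, zpowersHom_apply, toAdd_ofAdd, zpow_one]
      rw [hφi, map_pow, hφs, hjof, sub_t, map_pow]
      rfl
    exact DFunLike.congr_fun h1 z
  obtain ⟨π, hπ, hπt⟩ := X.univ G' φ 1 (by
    intro z
    rw [mul_one, one_mul]
    exact hφαβ z)
  -- the map `G' → H`
  let f : Y → H := fun y => if y = t then X.ι (sG G)
    else if y = x then X.t⁻¹ * X.ι (Monoid.Coprod.inl (PresentedGroup.of x)) * X.t *
      X.ι (sG G) ^ b
    else X.t⁻¹ * X.ι (Monoid.Coprod.inl (PresentedGroup.of y)) * X.t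
  have hst : X.ι (sG G) ^ a = X.t⁻¹ * X.ι (Monoid.Coprod.inl tG) * X.t := by
    have h1 := X.rel (Multiplicative.ofAdd 1)
    have h2 : X.α (Multiplicative.ofAdd 1) = Monoid.Coprod.inl tG := by
      change zpowersHom L (Monoid.Coprod.inl tG) (Multiplicative.ofAdd 1) = _
      rw [zpowersHom_apply]
      simp
    have h3 : X.β (Multiplicative.ofAdd 1) = sG G ^ a := by
      change zpowersHom L (sG G ^ a) (Multiplicative.ofAdd 1) = _
      rw [zpowersHom_apply]
      simp
    rw [h2, h3, map_pow] at h1
    rw [mul_assoc, h1, inv_mul_cancel_left]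
  have hf : (FreeGroup.lift f).comp (sub Y t x a b) =
      (((MulAut.conj X.t⁻¹).toMonoidHom.comp X.ι).comp (Monoid.Coprod.inl : G →* L)).comp
        (PresentedGroup.mk ({r} : Set (FreeGroup Y))) := by
    apply FreeGroup.ext_hom
    intro y
    have hR : ∀ y, ((((MulAut.conj X.t⁻¹).toMonoidHom.comp X.ι).comp
        (Monoid.Coprod.inl : G →* L)).comp
        (PresentedGroup.mk ({r} : Set (FreeGroup Y)))) (FreeGroup.of y) =
        X.t⁻¹ * X.ι (Monoid.Coprod.inl (PresentedGroup.of y)) * X.t := by
      intro y
      change MulAut.conj X.t⁻¹ (X.ι (Monoid.Coprod.inl (PresentedGroup.of y))) = _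
      rw [MulAut.conj_apply, inv_inv]
    rw [hR, MonoidHom.comp_apply]
    by_cases h1 : y = t
    · subst h1
      rw [sub_t, map_pow, FreeGroup.lift_apply_of]
      simp only [f, if_true]
      exact hst
    · by_cases h2 : y = x
      · subst h2
        rw [sub_x Y t y h1, map_mul, map_zpow, FreeGroup.lift_apply_of, FreeGroup.lift_apply_of]
        simp only [f, if_true, if_neg h1]
        rw [mul_assoc, ← zpow_add, add_neg_cancel, zpow_zero, mul_one]
      · rw [sub_y Y t x a b y h1 h2, FreeGroup.lift_apply_of]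
        simp only [f, if_neg h1, if_neg h2]
  have hf' : ∀ w, FreeGroup.lift f (sub Y t x a b w) =
      X.t⁻¹ * X.ι (Monoid.Coprod.inl (PresentedGroup.mk _ w)) * X.t := by
    intro w
    have h1 := DFunLike.congr_fun hf w
    rw [MonoidHom.comp_apply] at h1
    rw [h1]
    change MulAut.conj X.t⁻¹ (X.ι (Monoid.Coprod.inl (PresentedGroup.mk _ w))) = _
    rw [MulAut.conj_apply, inv_inv]
  have hfrel : ∀ s ∈ ({sub Y t x a b r} : Set (FreeGroup Y)), FreeGroup.lift f s = 1 := by
    intro s hs
    rw [Set.mem_singleton_iff] at hs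
    subst hs
    rw [hf', mk_rel_one, map_one, map_one]
    group
  let i : G' →* H := PresentedGroup.toGroup hfrel
  have hiof : ∀ y, i (PresentedGroup.of y) = f y := fun y => PresentedGroup.toGroup.of hfrel
  have himk : ∀ w, i (PresentedGroup.mk _ w) = FreeGroup.lift f w := by
    intro w
    have h1 : i.comp (PresentedGroup.mk _) = FreeGroup.lift f := by
      apply FreeGroup.ext_hom
      intro y
      rw [FreeGroup.lift_apply_of]
      exact hiof y
    exact DFunLike.congr_fun h1 w
  have hπi : ∀ g, π (i g) = g := by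
    have h1 : π.comp i = MonoidHom.id _ := by
      apply PresentedGroup.ext
      intro y
      rw [MonoidHom.comp_apply, hiof, MonoidHom.id_apply]
      by_cases h1 : y = t
      · subst h1
        simp only [f, if_true]
        rw [hπ, hφs]
      · by_cases h2 : y = x
        · subst h2
          simp only [f, if_true, if_neg h1]
          rw [map_mul, map_mul, map_mul, map_inv, map_zpow, hπt, hπ, hπ, hφs, hφi, hjof,
            sub_x Y t y h1, map_mul, map_zpow]
          change 1⁻¹ * (PresentedGroup.of y * PresentedGroup.of t ^ (-b)) * 1 *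
            PresentedGroup.of t ^ b = PresentedGroup.of y
          rw [inv_one, one_mul, mul_one, mul_assoc, ← zpow_add, neg_add_cancel, zpow_zero,
            mul_one]
        · simp only [f, if_neg h1, if_neg h2]
          rw [map_mul, map_mul, map_inv, hπt, hπ, hφi, hjof, sub_y Y t x a b y h1 h2]
          change 1⁻¹ * PresentedGroup.of y * 1 = PresentedGroup.of y
          rw [inv_one, one_mul, mul_one]
    intro g
    exact DFunLike.congr_fun h1 g
  have hretr := retract_fch i π hπi
  -- the associated subgroup is seen by the abelianization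
  have hA : ∀ z : Multiplicative ℤ, X.ι (X.β z) ∈ fch H 1 → z = 1 := by
    have hχ' : ∀ s ∈ ({r} : Set (FreeGroup Y)),
        FreeGroup.lift (fun y => χ (FreeGroup.of y)) s = 1 := by
      intro s hs
      rw [Set.mem_singleton_iff] at hs
      subst hs
      have h1 : FreeGroup.lift (fun y => χ (FreeGroup.of y)) = χ := by
        apply FreeGroup.ext_hom
        intro y
        rw [FreeGroup.lift_apply_of]
      rw [h1, hχr]
    let χG : G →* Multiplicative ℤ := PresentedGroup.toGroup hχ'
    have hχG : χG tG = χ (FreeGroup.of t) := PresentedGroup.toGroup.of hχ'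
    let χL : L →* Multiplicative ℤ := Monoid.Coprod.lift ((powMonoidHom a).comp χG)
      (zpowersHom _ (χ (FreeGroup.of t)))
    have hχs : χL (sG G) = χ (FreeGroup.of t) := by
      change Monoid.Coprod.lift ((powMonoidHom a).comp χG)
        (zpowersHom _ (χ (FreeGroup.of t))) (Monoid.Coprod.inr _) = _
      rw [Monoid.Coprod.lift_apply_inr, zpowersHom_apply]
      simp
    have hχi : ∀ g, χL (Monoid.Coprod.inl g) = χG g ^ a := fun g =>
      Monoid.Coprod.lift_apply_inl _ _ _
    have hχαβ : ∀ z, χL (α z) = χL (β z) := by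
      intro z
      have h1 : χL.comp α = χL.comp β := by
        apply MonoidHom.ext_mint
        simp only [MonoidHom.comp_apply, α, β, zpowersHom_apply, toAdd_ofAdd, zpow_one]
        rw [hχi, map_pow, hχs, hχG]
      exact DFunLike.congr_fun h1 z
    obtain ⟨Θ, hΘ, _⟩ := X.univ (Multiplicative ℤ) χL 1 (by
      intro z
      rw [mul_one, one_mul]
      exact hχαβ z)
    intro z hz
    have h1 := fch_le_comap Θ 1 hz
    rw [int_bot, Subgroup.mem_comap, Subgroup.mem_bot, hΘ] at h1
    have h2 : X.β z = (sG G ^ a) ^ (Multiplicative.toAdd z) := by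
      change zpowersHom L (sG G ^ a) z = _
      rw [zpowersHom_apply]
    rw [h2, map_zpow, map_pow, hχs] at h1
    have h3 : Multiplicative.toAdd z * ((a : ℤ) *
        Multiplicative.toAdd (χ (FreeGroup.of t))) = 0 := by
      have h4 := congrArg Multiplicative.toAdd h1
      rw [toAdd_zpow, toAdd_pow, toAdd_one] at h4
      simpa using h4
    have h5 : Multiplicative.toAdd (χ (FreeGroup.of t)) ≠ 0 := by
      intro h6
      apply hχt
      rw [← ofAdd_toAdd (χ (FreeGroup.of t)), h6]
      rfl
    rcases mul_eq_zero.mp h3 with h6 | h6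
    · rw [← ofAdd_toAdd z, h6]
      rfl
    · rcases mul_eq_zero.mp h6 with h7 | h7
      · exfalso
        omega
      · exact (h5 h7).elim
  refine ⟨?_, ?_⟩
  · intro n hn h
    have h1 : fch L n = fch L (n + 1) := (hxFP G).stab_free (fun z => Subsingleton.elim z 1) hn h
    have h2 := X.stab_up hA hn h1
    rw [← hretr, ← hretr, h2]
  · intro n h
    -- upper bound
    have hup : ∀ k (g : G), j g ∈ fch G' (k + 1) → g ∈ fch G k := by
      intro k g hg
      obtain ⟨w, rfl⟩ : ∃ w, PresentedGroup.mk _ w = g := QuotientGroup.mk'_surjective _ g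
      have hjw : j (PresentedGroup.mk _ w) = PresentedGroup.mk _ (sub Y t x a b w) := by
        have h1 : j.comp (PresentedGroup.mk _) =
            (PresentedGroup.mk ({sub Y t x a b r} : Set (FreeGroup Y))).comp
              (sub Y t x a b) := by
          apply FreeGroup.ext_hom
          intro y
          exact hjof y
        exact DFunLike.congr_fun h1 w
      rw [hjw, ← hretr, Subgroup.mem_comap, himk, hf'] at hg
      have h1 := (fch_normal H (k + 1)).conj_mem _ hg X.t
      have h2 : X.t * (X.t⁻¹ * X.ι (Monoid.Coprod.inl (PresentedGroup.mk _ w)) * X.t) * X.t⁻¹ =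
          X.ι (Monoid.Coprod.inl (PresentedGroup.mk _ w)) := by group
      rw [h2] at h1
      have h3 := X.comap_fch_le hA k h1
      have h4 := retract_fch (Monoid.Coprod.inl : G →* L)
        (Monoid.Coprod.lift (MonoidHom.id G) 1) (fun g => Monoid.Coprod.lift_apply_inl _ _ _) k
      rw [← h4]
      exact h3
    apply le_antisymm _ (fch_succ_le _ n)
    intro g hg
    have h1 : j g ∈ fch G' n := fch_le_comap j n hg
    rw [← fch_const G' h (by omega : n ≤ n + 1 + 1)] at h1
    exact hup (n + 1) g h1

end root

end Pool.Agent.H88FR
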